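import Mathlib

/-!
# Auxiliary functions of a density `g`
-/

set_option autoImplicit false

namespace Pool.Agent.Helper115_ME.UU

open MeasureTheory Set Filter Topology

noncomputable section

/-- `f(t) = g(t) - t g'(t)` -/
def ff (g : ℝ → ℝ) (t : ℝ) : ℝ := g t - t * deriv g t

/-- the weight `(1-t²)^((n-4)/2)` -/
def om (n : ℕ) (t : ℝ) : ℝ := (1 - t ^ 2) ^ (((n : ℝ) - 4) / 2)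

/-- `Λ(τ) = ∫_0^1 f(τ s) s² om(τ s) ds` -/
def Lam (n : ℕ) (g : ℝ → ℝ) (τ : ℝ) : ℝ := ∫ s in (0 : ℝ)..1, ff g (τ * s) * s ^ 2 * om n (τ * s)

/-- `Θ(τ) = Λ(τ) (1-τ²)^(-(n-2)/2)` -/
def Tht (n : ℕ) (g : ℝ → ℝ) (τ : ℝ) : ℝ := Lam n g τ * ((√(1 - τ ^ 2)) ^ (n - 2))⁻¹

/-- `H(τ) = (f(τ) + (n-2) Θ(τ)) / (1-τ²)` -/
def HH (n : ℕ) (g : ℝ → ℝ) (τ : ℝ) : ℝ := (ff g τ + ((n : ℝ) - 2) * Tht n g τ) / (1 - τ ^ 2)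

/-- `c(x) = ∫_0^x f(r) r² om(r) dr` -/
def cc (n : ℕ) (g : ℝ → ℝ) (x : ℝ) : ℝ := ∫ r in (0 : ℝ)..x, ff g r * r ^ 2 * om n r

/-- `A(x) = ∫_x^1 (g(r) + r g'(r)) (1-r²)^((n-2)/2) dr` -/
def AA (n : ℕ) (g : ℝ → ℝ) (x : ℝ) : ℝ := ∫ r in x..1, (g r + r * deriv g r) * (√(1 - r ^ 2)) ^ (n - 2)

/-- with `x = y/√(1+y²)`, `s = 1/√(1+y²)`: `J₀(y) = g(x) s^(n-1) - (n/2) y A(x) + ((n-2)/2) c(x)/y` -/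
def J0 (n : ℕ) (g : ℝ → ℝ) (y : ℝ) : ℝ :=
  g (y / √(1 + y ^ 2)) * ((√(1 + y ^ 2)) ^ (n - 1))⁻¹ - (n : ℝ) / 2 * y * AA n g (y / √(1 + y ^ 2)) +
    ((n : ℝ) - 2) / 2 * (cc n g (y / √(1 + y ^ 2)) / y)

/-- `J₁(y) = s^n g'(x) - (n/2) A(x) - ((n-2)/2) c(x)/y²` -/
def J1 (n : ℕ) (g : ℝ → ℝ) (y : ℝ) : ℝ :=
  deriv g (y / √(1 + y ^ 2)) * ((√(1 + y ^ 2)) ^ n)⁻¹ - (n : ℝ) / 2 * AA n g (y / √(1 + y ^ 2)) -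
    ((n : ℝ) - 2) / 2 * (cc n g (y / √(1 + y ^ 2)) / y ^ 2)

/-- `J₂(y) = (g''(x) + H(x)) s^(n+3)` -/
def J2 (n : ℕ) (g : ℝ → ℝ) (y : ℝ) : ℝ :=
  (deriv (deriv g) (y / √(1 + y ^ 2)) + HH n g (y / √(1 + y ^ 2))) * ((√(1 + y ^ 2)) ^ (n + 3))⁻¹

end

end Pool.Agent.Helper115_ME.UU
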