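import Mathlib
import Pool.Agent.Helper115_ME.CC.C03
import Pool.Agent.Helper115_ME.UU.Defs
set_option autoImplicit false
namespace Pool.Agent.Helper115_ME.UU

open MeasureTheory Set Filter Topology

noncomputable section

theorem u01_sq {t : ℝ} (ht : |t| < 1) : 0 < 1 - t ^ 2 := by
  have := abs_lt.1 ht
  nlinarith [this.1, this.2]

theorem u01_om {n : ℕ} (hn : 3 ≤ n) {t : ℝ} (ht : 0 < 1 - t ^ 2) :
    om n t = (√(1 - t ^ 2)) ^ (n - 2) / (1 - t ^ 2) := by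
  obtain ⟨m, rfl⟩ : ∃ m, n = m + 2 := ⟨n - 2, by omega⟩
  unfold om
  have e : (√(1 - t ^ 2)) ^ m = (1 - t ^ 2) ^ ((1 / 2 : ℝ) * (m : ℝ)) := by
    rw [Real.sqrt_eq_rpow, ← Real.rpow_natCast ((1 - t ^ 2) ^ (1 / 2 : ℝ)) m, ← Real.rpow_mul ht.le]
  have : (((m + 2 : ℕ) : ℝ) - 4) / 2 = 1 / 2 * (m : ℝ) - 1 := by push_cast; ring
  rw [Nat.add_sub_cancel, e, this, Real.rpow_sub_one ht.ne']

theorem u01_ff {g : ℝ → ℝ} (hg : ContDiff ℝ 2 g) : Continuous (ff g) := by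
  have h1 : Continuous (deriv g) := hg.continuous_deriv (by norm_num)
  have h2 : Continuous g := hg.continuous
  unfold ff
  fun_prop

theorem u01_omc (n : ℕ) : ContinuousOn (om n) (Ioo (-1 : ℝ) 1) := by
  unfold om
  refine ContinuousOn.rpow_const (by fun_prop) (fun t ht => Or.inl ?_)
  exact (u01_sq (abs_lt.2 ht)).ne'

theorem u01_J (n : ℕ) {g : ℝ → ℝ} (hg : ContDiff ℝ 2 g) :
    ContinuousOn (fun r => ff g r * r ^ 2 * om n r) (Ioo (-1 : ℝ) 1) :=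
  (((u01_ff hg).mul (continuous_id.pow 2)).continuousOn).mul (u01_omc n)

theorem u01_scale (n : ℕ) (g : ℝ → ℝ) (τ : ℝ) :
    ∫ r in (0 : ℝ)..τ, ff g r * r ^ 2 * om n r = τ ^ 3 * Lam n g τ := by
  have h := intervalIntegral.mul_integral_comp_mul_left (a := 0) (b := 1)
    (f := fun r => ff g r * r ^ 2 * om n r) τ
  simp only [mul_zero, mul_one] at h
  rw [← h, pow_succ' τ 2, mul_assoc]
  congr 1
  unfold Lam
  rw [← intervalIntegral.integral_const_mul]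
  refine intervalIntegral.integral_congr fun s _ => ?_
  change ff g (τ * s) * (τ * s) ^ 2 * om n (τ * s) = τ ^ 2 * (ff g (τ * s) * s ^ 2 * om n (τ * s))
  ring

theorem u01_uIcc {τ : ℝ} (hτ : |τ| < 1) : uIcc (0 : ℝ) τ ⊆ Ioo (-1 : ℝ) 1 := by
  intro x hx
  have h := abs_lt.1 hτ
  rcases le_total 0 τ with h0 | h0
  · rw [uIcc_of_le h0] at hx
    exact ⟨by linarith [hx.1], by linarith [hx.2, h.2]⟩
  · rw [uIcc_of_ge h0] at hx
    exact ⟨by linarith [hx.1, h.1], by linarith [hx.2]⟩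

theorem u01_ftc (n : ℕ) {g : ℝ → ℝ} (hg : ContDiff ℝ 2 g) {τ : ℝ} (hτ : |τ| < 1) :
    HasDerivAt (fun t => ∫ r in (0 : ℝ)..t, ff g r * r ^ 2 * om n r) (ff g τ * τ ^ 2 * om n τ) τ := by
  have hJ := u01_J n hg
  have hm : τ ∈ Ioo (-1 : ℝ) 1 := abs_lt.1 hτ
  refine intervalIntegral.integral_hasDerivAt_right
    (hJ.mono (u01_uIcc hτ)).intervalIntegrable ?_ (hJ.continuousAt (Ioo_mem_nhds hm.1 hm.2))
  exact hJ.stronglyMeasurableAtFilter isOpen_Ioo τ hm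

theorem u01_theta_deriv {n : ℕ} (hn : 3 ≤ n) {g : ℝ → ℝ} (hg : ContDiff ℝ 2 g) {τ : ℝ}
    (hτ : |τ| < 1) (h0 : τ ≠ 0) :
    HasDerivAt (Tht n g) ((HH n g τ - ((n : ℝ) + 1) * Tht n g τ) / τ) τ := by
  obtain ⟨k, rfl⟩ : ∃ k, n = k + 3 := ⟨n - 3, by omega⟩
  have hs := u01_sq hτ
  have hD : 0 < √(1 - τ ^ 2) := Real.sqrt_pos.2 hs
  have hD2 : √(1 - τ ^ 2) ^ 2 = 1 - τ ^ 2 := Real.sq_sqrt hs.le
  have h1 : HasDerivAt (fun t : ℝ => (t ^ 3)⁻¹) (-(3 * τ ^ 2) / (τ ^ 3) ^ 2) τ := by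
    have := (hasDerivAt_pow 3 τ).fun_inv (pow_ne_zero 3 h0)
    refine HasDerivAt.congr_deriv this ?_
    norm_num
  have h2 := u01_ftc (k + 3) hg hτ
  have h3 : HasDerivAt (fun t : ℝ => √(1 - t ^ 2)) (-τ / √(1 - τ ^ 2)) τ := by
    have h4 : HasDerivAt (fun t : ℝ => 1 - t ^ 2) (-(2 * τ)) τ := by
      simpa using (hasDerivAt_pow 2 τ).const_sub 1
    have h5 := h4.sqrt hs.ne'
    refine HasDerivAt.congr_deriv h5 ?_
    field_simp
  have h4 := (h3.fun_pow (k + 1)).fun_inv (pow_ne_zero _ hD.ne')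
  have h5 := (h1.mul h2).mul h4
  have hev : Tht (k + 3) g =ᶠ[𝓝 τ] fun t => (t ^ 3)⁻¹ *
      (∫ r in (0 : ℝ)..t, ff g r * r ^ 2 * om (k + 3) r) * ((√(1 - t ^ 2)) ^ (k + 1))⁻¹ := by
    filter_upwards [isOpen_ne.mem_nhds h0] with t ht
    rw [u01_scale, ← mul_assoc, inv_mul_cancel₀ (pow_ne_zero 3 ht), one_mul]
    rfl
  have h6 := HasDerivAt.congr_of_eventuallyEq h5 hev
  refine HasDerivAt.congr_deriv h6 ?_
  have hI : ∫ r in (0 : ℝ)..τ, ff g r * r ^ 2 * om (k + 3) r = τ ^ 3 * Lam (k + 3) g τ := u01_scale _ _ _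
  simp only [Pi.mul_apply]
  rw [hI, u01_om (by omega) hs]
  unfold HH Tht
  simp only [show k + 3 - 2 = k + 1 by omega, Nat.add_sub_cancel]
  push_cast
  generalize √(1 - τ ^ 2) = D at hD hD2 ⊢
  rw [← hD2]
  field_simp
  rw [show τ ^ 2 = 1 - D ^ 2 by linarith]
  ring

theorem u01_phi {n : ℕ} (hn : 3 ≤ n) {g : ℝ → ℝ} (hg : ContDiff ℝ 2 g) {a : ℝ} (ha : |a| < 1) (z : ℝ) :
    HasDerivAt (fun z : ℝ => ((√(1 + z ^ 2)) ^ (n + 1))⁻¹ * Tht n g (a / √(1 + z ^ 2)))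
      (-(HH n g (a / √(1 + z ^ 2)) * z * ((√(1 + z ^ 2)) ^ (n + 3))⁻¹)) z := by
  have hρ := Pool.Agent.Helper115_ME.C03.line_C1_rho_deriv z
  have hρ0 := (Pool.Agent.Helper115_ME.C03.line_C1_rho_pos z).ne'
  have h1 := (hρ.fun_pow (n + 1)).fun_inv (pow_ne_zero _ hρ0)
  rcases eq_or_ne a 0 with rfl | ha0
  · have h2 := h1.mul_const (Tht n g 0)
    have hT : Tht n g 0 = ff g 0 / 3 := by
      unfold Tht Lam
      have : ∀ s : ℝ, ff g (0 * s) * s ^ 2 * om n (0 * s) = ff g 0 * s ^ 2 := by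
        intro s
        unfold om
        simp
      simp only [this]
      rw [intervalIntegral.integral_const_mul, integral_pow]
      norm_num
      ring
    have hH : HH n g 0 = ((n : ℝ) + 1) * Tht n g 0 := by
      unfold HH
      rw [hT]
      ring
    simp only [zero_div]
    refine HasDerivAt.congr_deriv h2 ?_
    rw [hH]
    simp only [Nat.add_sub_cancel]
    push_cast
    field_simp
    ring
  · have hτ : |a / √(1 + z ^ 2)| < 1 := by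
      rw [abs_div, abs_of_pos (Pool.Agent.Helper115_ME.C03.line_C1_rho_pos z),
        div_lt_one (Pool.Agent.Helper115_ME.C03.line_C1_rho_pos z)]
      exact ha.trans_le (Pool.Agent.Helper115_ME.C03.line_C1_rho_one z)
    have hτ0 : a / √(1 + z ^ 2) ≠ 0 := div_ne_zero ha0 hρ0
    have h2 := u01_theta_deriv hn hg hτ hτ0
    have h3 : HasDerivAt (fun z : ℝ => a / √(1 + z ^ 2))
        (-(a * (z / √(1 + z ^ 2))) / √(1 + z ^ 2) ^ 2) z := by
      have h := (hasDerivAt_const z a).fun_div hρ hρ0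
      refine HasDerivAt.congr_deriv h ?_
      simp
    have h4 := h1.mul (h2.comp z h3)
    refine HasDerivAt.congr_deriv h4 ?_
    simp only [Function.comp, Nat.add_sub_cancel]
    generalize Tht n g (a / √(1 + z ^ 2)) = T
    generalize HH n g (a / √(1 + z ^ 2)) = H
    push_cast
    field_simp
    ring

theorem u01_bound {n : ℕ} {g : ℝ → ℝ} (hg : ContDiff ℝ 2 g) {a : ℝ} (ha : |a| < 1) :
    ∃ C : ℝ, 0 ≤ C ∧ ∀ τ : ℝ, |τ| ≤ |a| → Tht n g τ ≤ C := by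
  have hsub : Icc (-|a|) |a| ⊆ Ioo (-1 : ℝ) 1 := by
    intro x hx
    exact ⟨by linarith [hx.1], by linarith [hx.2]⟩
  have hc : ContinuousOn (fun t => ff g t * om n t) (Icc (-|a|) |a|) :=
    (u01_ff hg).continuousOn.mul ((u01_omc n).mono hsub)
  obtain ⟨C, hC⟩ := isCompact_Icc.exists_bound_of_continuousOn hc
  have hC0 : 0 ≤ C := (norm_nonneg _).trans (hC 0 (by simp))
  have hsa := u01_sq ha
  have hDa : 0 < √(1 - a ^ 2) := Real.sqrt_pos.2 hsa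
  refine ⟨C * ((√(1 - a ^ 2)) ^ (n - 2))⁻¹, by positivity, fun τ hτ => ?_⟩
  have h := intervalIntegral.norm_integral_le_of_norm_le_const (a := (0 : ℝ)) (b := 1) (C := C)
    (f := fun s => ff g (τ * s) * s ^ 2 * om n (τ * s)) (fun s hs => ?_)
  · have h1 : Lam n g τ ≤ C := by
      have h2 : |Lam n g τ| ≤ C := by simpa [Lam] using h
      exact (le_abs_self _).trans h2
    have h3 : √(1 - a ^ 2) ≤ √(1 - τ ^ 2) := by
      apply Real.sqrt_le_sqrt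
      have : τ ^ 2 ≤ a ^ 2 := sq_le_sq.2 hτ
      linarith
    have h4 : ((√(1 - τ ^ 2)) ^ (n - 2))⁻¹ ≤ ((√(1 - a ^ 2)) ^ (n - 2))⁻¹ :=
      inv_anti₀ (by positivity) (pow_le_pow_left₀ hDa.le h3 _)
    unfold Tht
    calc Lam n g τ * ((√(1 - τ ^ 2)) ^ (n - 2))⁻¹ ≤ C * ((√(1 - τ ^ 2)) ^ (n - 2))⁻¹ :=
          mul_le_mul_of_nonneg_right h1 (by positivity)
      _ ≤ C * ((√(1 - a ^ 2)) ^ (n - 2))⁻¹ := mul_le_mul_of_nonneg_left h4 hC0
  · rw [uIoc_of_le zero_le_one] at hs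
    have h2 : |τ * s| ≤ |a| := by
      rw [abs_mul, abs_of_nonneg hs.1.le]
      calc |τ| * s ≤ |a| * 1 := mul_le_mul hτ hs.2 hs.1.le (abs_nonneg _)
        _ = |a| := mul_one _
    have h3 := hC _ (abs_le.1 h2)
    have h4 : ff g (τ * s) * s ^ 2 * om n (τ * s) = (ff g (τ * s) * om n (τ * s)) * s ^ 2 := by ring
    rw [h4, norm_mul, norm_pow, Real.norm_of_nonneg hs.1.le]
    calc ‖ff g (τ * s) * om n (τ * s)‖ * s ^ 2 ≤ C * 1 :=
          mul_le_mul h3 (pow_le_one₀ hs.1.le hs.2) (pow_nonneg hs.1.le 2) hC0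
      _ = C := mul_one C

theorem line_f {n : ℕ} (hn : 3 ≤ n) (g : ℝ → ℝ) (hg : ContDiff ℝ 2 g)
    (hΛ : ∀ τ ∈ Ioo (-1 : ℝ) 1, 0 ≤ Lam n g τ) (κ : ℝ → ℝ) (hκ : ConvexOn ℝ univ κ) (hκd : ContDiff ℝ 1 κ)
    (hgrow : ∃ A, ∀ z, |κ z| ≤ A * (1 + |z|)) (a : ℝ) (ha : |a| < 1) :
    0 ≤ ∫ z : ℝ, κ z * ((-(Tht n g (a / √(1 + z ^ 2))) + (z / √(1 + z ^ 2)) ^ 2 * HH n g (a / √(1 + z ^ 2))) *
      ((√(1 + z ^ 2)) ^ (n + 1))⁻¹) := by
  obtain ⟨A, hA⟩ := hgrow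
  obtain ⟨C, hC, hΘ⟩ := u01_bound (n := n) hg ha
  have hτa : ∀ z : ℝ, |a / √(1 + z ^ 2)| ≤ |a| := by
    intro z
    rw [abs_div, abs_of_pos (Pool.Agent.Helper115_ME.C03.line_C1_rho_pos z)]
    exact div_le_self (abs_nonneg _) (Pool.Agent.Helper115_ME.C03.line_C1_rho_one z)
  have hτ : ∀ z : ℝ, |a / √(1 + z ^ 2)| < 1 := fun z => (hτa z).trans_lt ha
  set φ : ℝ → ℝ := fun z : ℝ => ((√(1 + z ^ 2)) ^ (n + 1))⁻¹ * Tht n g (a / √(1 + z ^ 2)) with hφdef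
  set φ' : ℝ → ℝ := fun z : ℝ => -(HH n g (a / √(1 + z ^ 2)) * z * ((√(1 + z ^ 2)) ^ (n + 3))⁻¹) with hφ'def
  have hφ : ∀ z, HasDerivAt φ (φ' z) z := fun z => u01_phi hn hg ha z
  have hρc : Continuous fun z : ℝ => √(1 + z ^ 2) := by fun_prop
  have hφc : Continuous φ := continuous_iff_continuousAt.2 fun z => (hφ z).continuousAt
  have hTc : Continuous fun z : ℝ => Tht n g (a / √(1 + z ^ 2)) := by
    have : (fun z : ℝ => Tht n g (a / √(1 + z ^ 2))) = fun z => √(1 + z ^ 2) ^ (n + 1) * φ z := by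
      funext z
      have h0 := (Pool.Agent.Helper115_ME.C03.line_C1_rho_pos z).ne'
      simp only [hφdef]
      rw [mul_inv_cancel_left₀ (pow_ne_zero _ h0)]
    rw [this]
    exact (hρc.pow _).mul hφc
  have hdc : Continuous fun z : ℝ => a / √(1 + z ^ 2) :=
    continuous_const.div hρc fun z => (Pool.Agent.Helper115_ME.C03.line_C1_rho_pos z).ne'
  have hHc : Continuous fun z : ℝ => HH n g (a / √(1 + z ^ 2)) := by
    unfold HH
    refine Continuous.div ?_ ?_ ?_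
    · exact ((u01_ff hg).comp hdc).add (continuous_const.mul hTc)
    · exact continuous_const.sub (hdc.pow 2)
    · intro z
      exact (u01_sq (hτ z)).ne'
  have hφ'c : Continuous φ' := by
    rw [hφ'def]
    exact ((hHc.mul continuous_id).mul ((hρc.pow _).inv₀ fun z =>
      pow_ne_zero _ (Pool.Agent.Helper115_ME.C03.line_C1_rho_pos z).ne')).neg
  have hφ0 : ∀ z, 0 ≤ φ z := fun z => mul_nonneg
    (inv_nonneg.2 (pow_nonneg (Pool.Agent.Helper115_ME.C03.line_C1_rho_pos z).le _))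
    (mul_nonneg (hΛ _ (abs_lt.1 (hτ z))) (inv_nonneg.2 (pow_nonneg (Real.sqrt_nonneg _) _)))
  have hφe : ∀ z, φ (-z) = φ z := fun z => by
    simp only [hφdef, neg_sq]
  have hφC : ∀ z : ℝ, φ z ≤ (√(1 + z ^ 2) ^ (n + 1))⁻¹ * C := fun z =>
    mul_le_mul_of_nonneg_left (hΘ _ (hτa z))
      (inv_nonneg.2 (pow_nonneg (Pool.Agent.Helper115_ME.C03.line_C1_rho_pos z).le _))
  have hI : ∀ z : ℝ, κ z * ((-(Tht n g (a / √(1 + z ^ 2))) +
      (z / √(1 + z ^ 2)) ^ 2 * HH n g (a / √(1 + z ^ 2))) * ((√(1 + z ^ 2)) ^ (n + 1))⁻¹) =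
      -(κ z * (φ z + z * φ' z)) := by
    intro z
    have h0 := (Pool.Agent.Helper115_ME.C03.line_C1_rho_pos z).ne'
    simp only [hφdef, hφ'def]
    generalize Tht n g (a / √(1 + z ^ 2)) = T
    generalize HH n g (a / √(1 + z ^ 2)) = H
    field_simp
    ring
  simp only [hI]
  by_cases hint : Integrable (fun z => κ z * (φ z + z * φ' z)) volume
  · rw [integral_neg, neg_nonneg]
    have h1 := intervalIntegral_tendsto_integral hint (Filter.tendsto_neg_atTop_atBot (G := ℝ))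
      (Filter.tendsto_id (α := ℝ))
    have h2 : Filter.Tendsto (fun R : ℝ => 4 * A * C / R) Filter.atTop (nhds 0) :=
      tendsto_const_nhds.div_atTop Filter.tendsto_id
    refine le_of_tendsto_of_tendsto h1 h2 ?_
    filter_upwards [Filter.eventually_ge_atTop (1 : ℝ)] with R hR
    exact Pool.Agent.Helper115_ME.C03.line_C1_interval (by omega) κ hκ hκd hA φ φ' hφ hφ'c hφ0 hφe hC
      hφC R hR
  · rw [integral_neg, integral_undef hint, neg_zero]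

end

end Pool.Agent.Helper115_ME.UU
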