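import Mathlib
import Pool.Agent.Helper115_ME.UU.Defs
set_option autoImplicit false
namespace Pool.Agent.Helper115_ME.UU

open MeasureTheory Set Filter Topology

noncomputable section

lemma om_eq (m : ℕ) {t : ℝ} (h0 : 0 < 1 - t ^ 2) :
    om (m + 3) t = √(1 - t ^ 2) ^ m / √(1 - t ^ 2) := by
  have hs : 0 < √(1 - t ^ 2) := Real.sqrt_pos.mpr h0
  have h1 : (1 - t ^ 2 : ℝ) = √(1 - t ^ 2) ^ (2 : ℝ) := by
    rw [Real.rpow_two, Real.sq_sqrt h0.le]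
  unfold om
  conv_lhs => rw [h1]
  rw [← Real.rpow_mul hs.le]
  have h2 : (2 : ℝ) * ((((m + 3 : ℕ) : ℝ) - 4) / 2) = (m : ℝ) - 1 := by push_cast; ring
  rw [h2, Real.rpow_sub hs, Real.rpow_natCast, Real.rpow_one]

lemma integrable_om {n : ℕ} (hn : 3 ≤ n) {x : ℝ} (hx : x ∈ Ioo (0 : ℝ) 1) :
    IntegrableOn (fun t => t ^ 2 * om n t) (Icc x 1) := by
  by_cases h4 : 4 ≤ n
  · apply ContinuousOn.integrableOn_Icc
    apply Continuous.continuousOn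
    unfold om
    refine (continuous_pow 2).mul ?_
    refine Continuous.rpow_const (by fun_prop) ?_
    intro t; right
    have : (4 : ℝ) ≤ n := by exact_mod_cast h4
    linarith
  · have h3 : n = 3 := by omega
    subst h3
    have h : IntegrableOn (fun t => 1 / √(1 - t ^ 2)) (Ioc x 1) := by
      apply intervalIntegral.integrableOn_deriv_of_nonneg (g := Real.arcsin)
      · exact Real.continuous_arcsin.continuousOn
      · intro t ht
        exact Real.hasDerivAt_arcsin (by linarith [ht.1, hx.1]) (by linarith [ht.2])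
      · intro t ht
        positivity
    have h' : IntegrableOn (fun t => 1 / √(1 - t ^ 2)) (Icc x 1) := by
      rwa [integrableOn_Icc_iff_integrableOn_Ioc]
    have h'' : IntegrableOn (fun t => t ^ 2 * (1 / √(1 - t ^ 2))) (Icc x 1) := by
      apply IntegrableOn.continuousOn_mul (by fun_prop) h' isCompact_Icc
    refine h''.congr_fun_ae ?_
    rw [Filter.EventuallyEq, ae_restrict_iff' measurableSet_Icc]
    have : ∀ᵐ t : ℝ, t ≠ 1 := by
      simp [ae_iff]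
    filter_upwards [this] with t ht1 ht
    have hlt : t < 1 := lt_of_le_of_ne ht.2 ht1
    have hpos : 0 < 1 - t ^ 2 := by nlinarith [ht.1, hx.1]
    have := om_eq 0 hpos
    simp only [zero_add, pow_zero] at this
    rw [this]

theorem B_lemma {n : ℕ} (hn : 3 ≤ n) {x : ℝ} (hx : x ∈ Ioo (0 : ℝ) 1) :
    x * (√(1 - x ^ 2)) ^ (n - 2) * (2 + ((n : ℝ) - 2) * x ^ 2) / (((n : ℝ) - 2) * (1 + ((n : ℝ) - 1) * x ^ 2)) ≤
      ∫ t in x..1, t ^ 2 * om n t := by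
  obtain ⟨m, rfl⟩ : ∃ m, n = m + 3 := ⟨n - 3, by omega⟩
  have hm : (0 : ℝ) ≤ m := Nat.cast_nonneg m
  set g : ℝ → ℝ := fun t => -(t * (√(1 - t ^ 2)) ^ (m + 1) * (2 + ((m : ℝ) + 1) * t ^ 2) /
    (((m : ℝ) + 1) * (1 + ((m : ℝ) + 2) * t ^ 2))) with hg
  have hden : ∀ t : ℝ, 0 < ((m : ℝ) + 1) * (1 + ((m : ℝ) + 2) * t ^ 2) := fun t => by positivity
  have hcont : ContinuousOn g (Icc x 1) := by
    apply Continuous.continuousOn
    rw [hg]
    refine Continuous.neg (Continuous.div ?_ ?_ (fun t => (hden t).ne'))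
    · exact ((continuous_id.mul ((by fun_prop : Continuous fun t : ℝ => √(1 - t ^ 2)).pow _)).mul (by fun_prop))
    · fun_prop
  let g' : ℝ → ℝ := fun t => -((((1 * (√(1 - t ^ 2)) ^ (m + 1) + t * (((m + 1 : ℕ) : ℝ) * √(1 - t ^ 2) ^ m * (-(2 * t) / (2 * √(1 - t ^ 2))))) *
    (2 + ((m : ℝ) + 1) * t ^ 2) + t * (√(1 - t ^ 2)) ^ (m + 1) * (((m : ℝ) + 1) * (2 * t))) *
    (((m : ℝ) + 1) * (1 + ((m : ℝ) + 2) * t ^ 2)) -
    t * (√(1 - t ^ 2)) ^ (m + 1) * (2 + ((m : ℝ) + 1) * t ^ 2) * (((m : ℝ) + 1) * (((m : ℝ) + 2) * (2 * t)))) /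
    (((m : ℝ) + 1) * (1 + ((m : ℝ) + 2) * t ^ 2)) ^ 2)
  have hderiv : ∀ t ∈ Ioo x 1, HasDerivAt g (g' t) t := by
    intro t ht
    have hpos : 0 < 1 - t ^ 2 := by nlinarith [ht.1, ht.2, hx.1]
    have d1 : HasDerivAt (fun t : ℝ => 1 - t ^ 2) (-(2 * t)) t := by
      have := (hasDerivAt_pow 2 t).const_sub 1
      simpa using this
    have d2 : HasDerivAt (fun t : ℝ => √(1 - t ^ 2)) (-(2 * t) / (2 * √(1 - t ^ 2))) t := d1.sqrt hpos.ne'
    have d3 : HasDerivAt (fun t : ℝ => √(1 - t ^ 2) ^ (m + 1)) (((m + 1 : ℕ) : ℝ) * √(1 - t ^ 2) ^ m * (-(2 * t) / (2 * √(1 - t ^ 2)))) t := by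
      have := d2.fun_pow (m + 1)
      simpa using this
    have d4 : HasDerivAt (fun t : ℝ => t ^ 2) (2 * t) t := by
      have := hasDerivAt_pow 2 t
      simpa using this
    have d5 : HasDerivAt (fun t : ℝ => 2 + ((m : ℝ) + 1) * t ^ 2) (((m : ℝ) + 1) * (2 * t)) t :=
      (d4.const_mul _).const_add _
    have d6 : HasDerivAt (fun t : ℝ => ((m : ℝ) + 1) * (1 + ((m : ℝ) + 2) * t ^ 2)) (((m : ℝ) + 1) * (((m : ℝ) + 2) * (2 * t))) t :=
      ((d4.const_mul _).const_add _).const_mul _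
    exact ((((hasDerivAt_id t).mul d3).mul d5).div d6 (hden t).ne').neg
  have key : g 1 - g x ≤ ∫ t in x..1, t ^ 2 * om (m + 3) t := by
    apply intervalIntegral.sub_le_integral_of_hasDeriv_right_of_le hx.2.le hcont
      (fun t ht => (hderiv t ht).hasDerivWithinAt) (integrable_om hn hx)
    intro t ht
    have hpos : 0 < 1 - t ^ 2 := by nlinarith [ht.1, ht.2, hx.1]
    rw [om_eq m hpos]
    have hs : 0 < √(1 - t ^ 2) := Real.sqrt_pos.mpr hpos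
    have hs2 : √(1 - t ^ 2) ^ 2 = 1 - t ^ 2 := Real.sq_sqrt hpos.le
    simp only [g']
    set s := √(1 - t ^ 2) with hsdef
    have hD := hden t
    have hm1 : (0 : ℝ) < (m : ℝ) + 1 := by positivity
    have hQ : (0 : ℝ) < 1 + ((m : ℝ) + 2) * t ^ 2 := by positivity
    have e : t ^ 2 * (s ^ m / s) - -((((1 * s ^ (m + 1) + t * (((m + 1 : ℕ) : ℝ) * s ^ m * (-(2 * t) / (2 * s)))) *
      (2 + ((m : ℝ) + 1) * t ^ 2) + t * s ^ (m + 1) * (((m : ℝ) + 1) * (2 * t))) *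
      (((m : ℝ) + 1) * (1 + ((m : ℝ) + 2) * t ^ 2)) -
      t * s ^ (m + 1) * (2 + ((m : ℝ) + 1) * t ^ 2) * (((m : ℝ) + 1) * (((m : ℝ) + 2) * (2 * t)))) /
      (((m : ℝ) + 1) * (1 + ((m : ℝ) + 2) * t ^ 2)) ^ 2) =
      (s ^ m / s) * (2 * (s ^ 2) ^ 2 / (((m : ℝ) + 1) * (1 + ((m : ℝ) + 2) * t ^ 2) ^ 2)) := by
      have ht2 : t ^ 2 = 1 - s ^ 2 := by rw [hs2]; ring
      have hQ' : (1 + ((m : ℝ) + 2) * (1 - s ^ 2)) ≠ 0 := by rw [← ht2]; exact hQ.ne'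
      push_cast
      have e1 : t * ((((m : ℝ) + 1)) * s ^ m * (-(2 * t) / (2 * s))) = -(((m : ℝ) + 1) * s ^ m * t ^ 2 / s) := by
        field_simp
      have e2 : t * s ^ (m + 1) * (((m : ℝ) + 1) * (2 * t)) = 2 * ((m : ℝ) + 1) * s ^ (m + 1) * t ^ 2 := by ring
      have e3 : t * s ^ (m + 1) * (2 + ((m : ℝ) + 1) * t ^ 2) * (((m : ℝ) + 1) * (((m : ℝ) + 2) * (2 * t))) =
        2 * s ^ (m + 1) * (2 + ((m : ℝ) + 1) * t ^ 2) * (((m : ℝ) + 1) * ((m : ℝ) + 2)) * t ^ 2 := by ring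
      rw [e1, e2, e3, ht2, pow_succ s m]
      obtain ⟨Q, hQd⟩ : ∃ Q : ℝ, Q = 1 + ((m : ℝ) + 2) * (1 - s ^ 2) := ⟨_, rfl⟩
      rw [← hQd] at hQ' ⊢
      obtain ⟨M, hM⟩ : ∃ M : ℝ, M = (m : ℝ) + 1 := ⟨_, rfl⟩
      have hM' : M ≠ 0 := by rw [hM]; exact hm1.ne'
      have hM2 : (m : ℝ) + 2 = M + 1 := by rw [hM]; ring
      rw [← hM, hM2]
      rw [hM2] at hQd
      field_simp
      rw [hQd]
      ring
    have : 0 ≤ (s ^ m / s) * (2 * (s ^ 2) ^ 2 / (((m : ℝ) + 1) * (1 + ((m : ℝ) + 2) * t ^ 2) ^ 2)) := by positivity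
    linarith [e, this]
  have h1 : g 1 = 0 := by
    simp [hg]
  have h2 : m + 3 - 2 = m + 1 := by omega
  rw [h1, zero_sub] at key
  have e4 : x * (√(1 - x ^ 2)) ^ (m + 3 - 2) * (2 + (((m + 3 : ℕ) : ℝ) - 2) * x ^ 2) /
      ((((m + 3 : ℕ) : ℝ) - 2) * (1 + (((m + 3 : ℕ) : ℝ) - 1) * x ^ 2)) = - g x := by
    simp only [hg, neg_neg, h2]
    push_cast
    congr 1
    · ring
    · ring
  rw [e4]
  exact key

end

end Pool.Agent.Helper115_ME.UU
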