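import Mathlib
import Pool.Agent.Helper115_ME.UU.Defs
set_option autoImplicit false
/-!
TARGET: J₀ ≥ 0 (see the definitions), given B_lemma (hypothesis hB, proved in another job).
Notation: y > 0, x = y/√(1+y²) ∈ (0,1), s = 1/√(1+y²) = √(1-x²), y = x/s, ω = om n, W(t) = g(t) t² ω(t), ∫_0^1 W = 0.
Proof in words.
 (1) A(x) = - x s^(n-2) g(x) + (n-2) ∫_x^1 W: integrate (r g(r) (1-r²)^((n-2)/2))' = (g + r g') (1-r²)^((n-2)/2) - (n-2) r² g ω over [x,1]
     (the function r g(r) (√(1-r²))^(n-2) is continuous on [x,1], vanishes at 1; for n = 3 its derivative is only integrable near 1: use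
     intervalIntegral.integral_eq_sub_of_hasDerivAt_of_le or integral_eq_sub_of_hasDeriv_right_of_le with continuity on [x,1] and derivative on (x,1)).
 (2) With w(x) = ∫_0^x W = -∫_x^1 W: J₀(y) = g(x) (s^(n-1) + (n/2) x² s^(n-3)) + (n(n-2)/2) y w(x) + ((n-2)/(2y)) c(x), here s^(n-3) = s^(n-1)/s².
 (3) c(x) = w(x) + ∫_0^x (-r g'(r)) r² ω ≥ w(x) because g' ≤ 0 on [0,1].
 (4) g is nonincreasing on [0,1] and ∫_0^1 W = 0, so w(x) ≥ 0: if g(x) ≥ 0 then g ≥ 0 on [0,x]; if g(x) < 0 then w(x) = -∫_x^1 W ≥ |g(x)| B(x), B(x) = ∫_x^1 r² ω dr.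
 (5) If g(x) ≥ 0 all terms of (2) are ≥ 0. If g(x) < 0: J₀ ≥ |g(x)| [ -(s^(n-1) + (n/2) x² s^(n-3)) + (n-2) (n y/2 + 1/(2y)) B(x) ] and by hB
     (n-2) (n y/2 + 1/(2y)) B(x) = (n-2) ((n-1) x² + 1)/(2 x s) B(x) [as n y² + 1 = (n x² + s²)/s² = (1+(n-1)x²)/s²] ≥ ½ s^(n-3) (2 + (n-2) x²) = s^(n-1) + (n/2) x² s^(n-3).
-/
namespace Pool.Agent.Helper115_ME.UU

open MeasureTheory Set Filter Topology

noncomputable section

lemma J0n_om_nonneg (n : ℕ) {t : ℝ} (h0 : 0 ≤ t) (h1 : t ≤ 1) : 0 ≤ om n t := by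
  unfold om
  apply Real.rpow_nonneg
  nlinarith

lemma J0n_om_int {n : ℕ} (hn : 3 ≤ n) : IntervalIntegrable (om n) volume 0 1 := by
  have h1 : IntervalIntegrable (fun t : ℝ => t ^ (-(1/2) : ℝ)) volume 0 1 :=
    intervalIntegral.intervalIntegrable_rpow' (by norm_num)
  have h2 : IntervalIntegrable (fun t : ℝ => (1 - t) ^ (-(1/2) : ℝ)) volume 0 1 := by
    have := h1.comp_sub_left 1
    simpa using this.symm
  rw [intervalIntegrable_iff_integrableOn_Ioo_of_le zero_le_one] at h2 ⊢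
  refine Integrable.mono' h2 ?_ ?_
  · apply ContinuousOn.aestronglyMeasurable _ measurableSet_Ioo
    intro t ht
    apply ContinuousAt.continuousWithinAt
    unfold om
    apply ContinuousAt.rpow_const
    · fun_prop
    · left
      have := ht.1; have := ht.2
      nlinarith
  · refine (ae_restrict_iff' measurableSet_Ioo).2 (Filter.Eventually.of_forall fun t ht => ?_)
    rw [Real.norm_of_nonneg (J0n_om_nonneg n ht.1.le ht.2.le)]
    have h3 : (3 : ℝ) ≤ n := by exact_mod_cast hn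
    have ht0 := ht.1
    have ht1 := ht.2
    have h4 : 0 < 1 - t ^ 2 := by nlinarith
    unfold om
    calc (1 - t ^ 2) ^ (((n : ℝ) - 4) / 2) ≤ (1 - t ^ 2) ^ (-(1/2) : ℝ) :=
          Real.rpow_le_rpow_of_exponent_ge h4 (by nlinarith) (by linarith)
      _ ≤ (1 - t) ^ (-(1/2) : ℝ) :=
          Real.rpow_le_rpow_of_nonpos (by linarith) (by nlinarith) (by norm_num)

lemma J0n_om_mul {n : ℕ} (hn : 3 ≤ n) {t : ℝ} (h0 : 0 ≤ t) (h1 : t < 1) :
    (√(1 - t ^ 2)) ^ (n - 2) = om n t * (1 - t ^ 2) := by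
  have h4 : 0 < 1 - t ^ 2 := by nlinarith
  unfold om
  have : om n t = om n t := rfl
  rw [Real.sqrt_eq_rpow, ← Real.rpow_natCast, ← Real.rpow_mul h4.le]
  conv_rhs => rw [← Real.rpow_one (1 - t ^ 2)]
  rw [Real.rpow_one, ← Real.rpow_add_one h4.ne']
  congr 1
  rw [Nat.cast_sub (by omega)]
  push_cast
  ring

lemma J0n_W_int {n : ℕ} (hn : 3 ≤ n) (g : ℝ → ℝ) (hg : Continuous g) {a b : ℝ} (ha : 0 ≤ a) (hab : a ≤ b)
    (hb : b ≤ 1) : IntervalIntegrable (fun t => g t * t ^ 2 * om n t) volume a b := by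
  have h1 : IntervalIntegrable (fun t => g t * t ^ 2 * om n t) volume 0 1 := by
    have := (J0n_om_int hn).continuousOn_mul (f := om n) (g := fun t => g t * t ^ 2)
      (by fun_prop : Continuous fun t => g t * t ^ 2).continuousOn
    simpa using this
  apply h1.mono_set
  rw [uIcc_of_le hab, uIcc_of_le zero_le_one]
  exact Icc_subset_Icc ha hb

lemma J0n_AA {n : ℕ} (hn : 3 ≤ n) (g : ℝ → ℝ) (hg : ContDiff ℝ 2 g) {x : ℝ} (h0 : 0 ≤ x) (h1 : x < 1) :
    AA n g x = - (x * (√(1 - x ^ 2)) ^ (n - 2) * g x) +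
      ((n : ℝ) - 2) * ∫ t in x..1, g t * t ^ 2 * om n t := by
  have hgd : Differentiable ℝ g := hg.differentiable (by norm_num)
  have hdc : Continuous (deriv g) := hg.continuous_deriv (by norm_num)
  have hgc : Continuous g := hg.continuous
  have hsc : Continuous fun r : ℝ => (√(1 - r ^ 2)) ^ (n - 2) := by fun_prop
  have hI1 : IntervalIntegrable (fun r => (g r + r * deriv g r) * (√(1 - r ^ 2)) ^ (n - 2)) volume x 1 :=
    (by fun_prop : Continuous fun r => (g r + r * deriv g r) * (√(1 - r ^ 2)) ^ (n - 2)).intervalIntegrable _ _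
  have hI2 : IntervalIntegrable (fun r => ((n : ℝ) - 2) * (g r * r ^ 2 * om n r)) volume x 1 :=
    (J0n_W_int hn g hgc h0 h1.le le_rfl).const_mul _
  have key := intervalIntegral.integral_eq_sub_of_hasDerivAt_of_le (a := x) (b := 1)
    (f := fun r => r * g r * (√(1 - r ^ 2)) ^ (n - 2))
    (f' := fun r => (g r + r * deriv g r) * (√(1 - r ^ 2)) ^ (n - 2) - ((n : ℝ) - 2) * (g r * r ^ 2 * om n r))
    h1.le (by fun_prop : Continuous fun r => r * g r * (√(1 - r ^ 2)) ^ (n - 2)).continuousOn ?_ (hI1.sub hI2)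
  · rw [intervalIntegral.integral_sub hI1 hI2, intervalIntegral.integral_const_mul] at key
    unfold AA
    have h2 : (√(1 - (1:ℝ) ^ 2)) ^ (n - 2) = 0 := by
      have : (1:ℝ) - 1 ^ 2 = 0 := by norm_num
      rw [this, Real.sqrt_zero, zero_pow (by omega)]
    rw [h2] at key
    linarith
  · intro r hr
    have hr0 : 0 < r := lt_of_le_of_lt h0 hr.1
    have hr1 : r < 1 := hr.2
    have h4 : 0 < 1 - r ^ 2 := by nlinarith
    have hd1 : HasDerivAt (fun r => r * g r) (1 * g r + r * deriv g r) r :=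
      (hasDerivAt_id r).mul (hgd r).hasDerivAt
    have hd2 : HasDerivAt (fun r : ℝ => 1 - r ^ 2) (- (2 * r)) r := by
      have := ((hasDerivAt_id r).pow 2).const_sub 1
      simpa using this
    have hd3 := (hd2.sqrt h4.ne').pow (n - 2)
    have hd4 := hd1.mul hd3
    refine hd4.congr_deriv ?_
    have hs : 0 < √(1 - r ^ 2) := Real.sqrt_pos.2 h4
    have hs2 : √(1 - r ^ 2) ^ 2 = 1 - r ^ 2 := Real.sq_sqrt h4.le
    have e1 : om n r = (√(1 - r ^ 2)) ^ (n - 2 - 1) / √(1 - r ^ 2) := by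
      have h5 := J0n_om_mul hn hr0.le hr1
      have h6 : n - 2 = (n - 2 - 1) + 1 := by omega
      rw [h6, pow_succ] at h5
      rw [eq_div_iff hs.ne']
      have h7 : om n r * √(1 - r ^ 2) * √(1 - r ^ 2) = √(1 - r ^ 2) ^ (n - 2 - 1) * √(1 - r ^ 2) := by
        rw [h5, mul_assoc, ← sq, hs2]
      exact mul_right_cancel₀ hs.ne' h7
    rw [e1]
    have e2 : ((n - 2 : ℕ) : ℝ) = (n : ℝ) - 2 := by
      rw [Nat.cast_sub (by omega)]; norm_num
    simp only [Pi.pow_apply, e2]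
    field_simp
    ring

theorem J0_nonneg {n : ℕ} (hn : 3 ≤ n) (g : ℝ → ℝ) (hg : ContDiff ℝ 2 g)
    (hmono : ∀ t ∈ Icc (0 : ℝ) 1, deriv g t ≤ 0) (hW : ∫ t in (0 : ℝ)..1, g t * t ^ 2 * om n t = 0)
    (hB : ∀ x ∈ Ioo (0 : ℝ) 1, x * (√(1 - x ^ 2)) ^ (n - 2) * (2 + ((n : ℝ) - 2) * x ^ 2) /
      (((n : ℝ) - 2) * (1 + ((n : ℝ) - 1) * x ^ 2)) ≤ ∫ t in x..1, t ^ 2 * om n t)
    {y : ℝ} (hy : 0 < y) : 0 ≤ J0 n g y := by
  have hgd : Differentiable ℝ g := hg.differentiable (by norm_num)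
  have hdc : Continuous (deriv g) := hg.continuous_deriv (by norm_num)
  have hgc : Continuous g := hg.continuous
  have hR : 0 < √(1 + y ^ 2) := Real.sqrt_pos.2 (by positivity)
  have hR2 : √(1 + y ^ 2) ^ 2 = 1 + y ^ 2 := Real.sq_sqrt (by positivity)
  set R := √(1 + y ^ 2) with hRdef
  set x := y / R with hxdef
  set s := 1 / R with hsdef
  have hs : 0 < s := by positivity
  have hx0 : 0 < x := by positivity
  have hxs : x ^ 2 + s ^ 2 = 1 := by
    rw [hxdef, hsdef, div_pow, div_pow, ← add_div, hR2]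
    have : (1 + y ^ 2 : ℝ) ≠ 0 := by positivity
    field_simp
    ring
  have hx1 : x < 1 := by nlinarith [sq_pos_of_pos hs]
  have hys : y = x / s := by
    rw [hxdef, hsdef]; field_simp
  have hsq : √(1 - x ^ 2) = s := by
    rw [show 1 - x ^ 2 = s ^ 2 by linarith, Real.sqrt_sq hs.le]
  have hn3 : (3 : ℝ) ≤ n := by exact_mod_cast hn
  -- monotonicity
  have hanti : AntitoneOn g (Icc 0 1) := by
    apply antitoneOn_of_deriv_nonpos (convex_Icc 0 1) hgc.continuousOn hgd.differentiableOn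
    intro t ht
    exact hmono t (interior_subset ht)
  have hWi : ∀ a b : ℝ, 0 ≤ a → a ≤ b → b ≤ 1 → IntervalIntegrable (fun t => g t * t ^ 2 * om n t) volume a b :=
    fun a b ha hab hb => J0n_W_int hn g hgc ha hab hb
  set w := ∫ t in (0:ℝ)..x, g t * t ^ 2 * om n t with hwdef
  have hw1 : ∫ t in x..1, g t * t ^ 2 * om n t = -w := by
    have := intervalIntegral.integral_add_adjacent_intervals (hWi 0 x le_rfl hx0.le hx1.le)
      (hWi x 1 hx0.le hx1.le le_rfl)
    rw [hW] at this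
    linarith
  -- (3)
  have hcw : w ≤ cc n g x := by
    unfold cc
    rw [hwdef]
    apply intervalIntegral.integral_mono_on hx0.le (hWi 0 x le_rfl hx0.le hx1.le)
    · have := J0n_W_int hn (ff g) (by unfold ff; fun_prop) le_rfl hx0.le hx1.le
      exact this
    · intro t ht
      have ht1 : t ≤ 1 := ht.2.trans hx1.le
      have h1 := J0n_om_nonneg n ht.1 ht1
      have h2 : g t ≤ ff g t := by
        unfold ff
        have := mul_nonneg ht.1 (neg_nonneg.2 (hmono t ⟨ht.1, ht1⟩))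
        linarith
      exact mul_le_mul_of_nonneg_right (mul_le_mul_of_nonneg_right h2 (sq_nonneg t)) h1
  -- B
  set B := ∫ t in x..1, t ^ 2 * om n t with hBdef
  have hB1 := hB x ⟨hx0, hx1⟩
  rw [hsq] at hB1
  have hgx_w : -(g x) * B ≤ w := by
    have h1 : ∫ t in x..1, g t * t ^ 2 * om n t ≤ ∫ t in x..1, g x * (t ^ 2 * om n t) := by
      apply intervalIntegral.integral_mono_on hx1.le (hWi x 1 hx0.le hx1.le le_rfl)
      · have := (J0n_W_int hn (fun _ => g x) continuous_const hx0.le hx1.le le_rfl)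
        simpa [mul_assoc] using this
      · intro t ht
        have ht0 : 0 ≤ t := hx0.le.trans ht.1
        have h1 := J0n_om_nonneg n ht0 ht.2
        have h2 : g t ≤ g x := hanti ⟨hx0.le, hx1.le⟩ ⟨ht0, ht.2⟩ ht.1
        rw [mul_assoc]
        exact mul_le_mul_of_nonneg_right h2 (mul_nonneg (sq_nonneg t) h1)
    rw [intervalIntegral.integral_const_mul, hw1, ← hBdef] at h1
    linarith
  have hw0 : 0 ≤ g x → 0 ≤ w := by
    intro hgx
    rw [hwdef]
    apply intervalIntegral.integral_nonneg hx0.le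
    intro t ht
    have ht1 : t ≤ 1 := ht.2.trans hx1.le
    have h1 := J0n_om_nonneg n ht.1 ht1
    have h2 : g x ≤ g t := hanti ⟨ht.1, ht1⟩ ⟨hx0.le, hx1.le⟩ ht.2
    exact mul_nonneg (mul_nonneg (hgx.trans h2) (sq_nonneg t)) h1
  -- J0
  obtain ⟨m, rfl⟩ : ∃ m, n = m + 3 := ⟨n - 3, by omega⟩
  have hJ : J0 (m + 3) g y = g x * (s ^ (m + 2) + ((m + 3 : ℕ) : ℝ) / 2 * x ^ 2 * s ^ m) +
      ((m + 3 : ℕ) : ℝ) * (((m + 3 : ℕ) : ℝ) - 2) / 2 * y * w + (((m + 3 : ℕ) : ℝ) - 2) / 2 * (cc (m + 3) g x / y) := by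
    have e1 : ((√(1 + y ^ 2)) ^ (m + 3 - 1))⁻¹ = s ^ (m + 2) := by
      rw [hsdef, one_div, inv_pow, show m + 3 - 1 = m + 2 from rfl]
    unfold J0
    rw [e1, ← hRdef, ← hxdef, J0n_AA hn g hg hx0.le hx1, hw1, hsq]
    have e2 : m + 3 - 2 = m + 1 := by omega
    rw [e2, pow_succ s m]
    have e3 : y * s = x := by rw [hys]; field_simp
    rw [← e3]
    ring
  rw [hJ]
  have hN : (0:ℝ) < ((m + 3 : ℕ) : ℝ) - 2 := by linarith
  set N : ℝ := ((m + 3 : ℕ) : ℝ) with hNdef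
  have hcy : (N - 2) / 2 * (w / y) ≤ (N - 2) / 2 * (cc (m + 3) g x / y) := by
    apply mul_le_mul_of_nonneg_left _ (by positivity)
    exact div_le_div_of_nonneg_right hcw hy.le
  have hP : 0 ≤ s ^ (m + 2) + N / 2 * x ^ 2 * s ^ m := by
    have : 0 ≤ N := by linarith
    positivity
  rcases le_or_gt 0 (g x) with hgx | hgx
  · have h1 := hw0 hgx
    have h2 : 0 ≤ N * (N - 2) / 2 * y * w := by
      have : 0 ≤ N := by linarith
      positivity
    have h3 : 0 ≤ (N - 2) / 2 * (w / y) := by positivity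
    have h4 := mul_nonneg hgx hP
    linarith
  · have hcoef : N * (N - 2) / 2 * y + (N - 2) / 2 * (1 / y) = (N - 2) * (1 + (N - 1) * x ^ 2) / (2 * x * s) := by
      rw [hys]
      have : s ^ 2 = 1 - x ^ 2 := by linarith
      field_simp
      rw [this]
      ring
    have hcoef0 : 0 < (N - 2) * (1 + (N - 1) * x ^ 2) / (2 * x * s) := by
      have : 0 < N - 1 := by linarith
      positivity
    have h5 : s ^ (m + 2) + N / 2 * x ^ 2 * s ^ m ≤ (N - 2) * (1 + (N - 1) * x ^ 2) / (2 * x * s) * B := by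
      have h6 := mul_le_mul_of_nonneg_left hB1 hcoef0.le
      refine le_trans (le_of_eq ?_) h6
      have hN1 : 0 < N - 1 := by linarith
      have h7 : 1 + (N - 1) * x ^ 2 ≠ 0 := by positivity
      have e2 : m + 3 - 2 = m + 1 := by omega
      rw [e2, pow_add s m 2, show s ^ 2 = 1 - x ^ 2 by linarith, pow_succ s m]
      field_simp
      ring
    have h8 : (N - 2) * (1 + (N - 1) * x ^ 2) / (2 * x * s) * (-(g x) * B) ≤
        (N - 2) * (1 + (N - 1) * x ^ 2) / (2 * x * s) * w := mul_le_mul_of_nonneg_left hgx_w hcoef0.le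
    have h9 : -(g x) * (s ^ (m + 2) + N / 2 * x ^ 2 * s ^ m) ≤
        -(g x) * ((N - 2) * (1 + (N - 1) * x ^ 2) / (2 * x * s) * B) :=
      mul_le_mul_of_nonneg_left h5 (by linarith)
    have h10 : N * (N - 2) / 2 * y * w + (N - 2) / 2 * (w / y) =
        (N - 2) * (1 + (N - 1) * x ^ 2) / (2 * x * s) * w := by
      rw [← hcoef]; ring
    nlinarith

end

end Pool.Agent.Helper115_ME.UU
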