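import Mathlib
import Pool.Agent.Helper115_ME.UU.Defs
set_option autoImplicit false
/-!
TARGET: the derivatives of J₀ and J₁ on (0,∞). Notation: x = y/√(1+y²), s = 1/√(1+y²) = √(1-x²); dx/dy = s³, ds/dy = -x s² (note y s = x).
Proof in words. FTC: c'(x) = f(x) x² ω(x) with ω(x) = om n x = s^(n-4) (real power) for 0 < x < 1, A'(x) = -(g(x) + x g'(x)) s^(n-2).
 J₀' = g' s³ s^(n-1) - (n-1) x s^n g - (n/2) A + (n/2) y (g + x g') s^(n-2) s³ + ((n-2)/2) (f x² s^(n-4) s³/y - c/y²)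
     = s^n g' - (n/2) A - ((n-2)/2) c/y²   using y s = x, f = g - x g', 1 - x² = s².
 J₁' = -n x s^(n+1) g' + s^(n+3) g'' + (n/2) s^(n+1) (g + x g') - ((n-2)/2) (f s^(n+1) - 2 c/y³) = s^(n+3) g'' + s^(n+1) f + (n-2) c/y³,
 and τ³ Λ(τ) = c(τ) (substitution, intervalIntegral.mul_integral_comp_mul_left) gives H(x) s^(n+3) = s^(n+1) f + (n-2) s^(n+1) Λ(x) s^(-(n-2)) = s^(n+1) f + (n-2) c/y³: J₁' = J₂.
(Numerically checked.) It is convenient to write everything with r = √(1+y²) > 0, x = y/r, s = r⁻¹, r² = 1 + y², and om n (y/r) = (r²)^(-(n-4)/2) = r⁴ (r^n)⁻¹.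
For the differentiability of A at x ∈ (0,1): the integrand is continuous on ℝ. For c: the integrand is continuous on [0,1) (integrable on [0,x], x < 1).
-/
namespace Pool.Agent.Helper115_ME.UU

open MeasureTheory Set Filter Topology

noncomputable section

theorem jd_r2 (y : ℝ) : (√(1 + y ^ 2)) ^ 2 = 1 + y ^ 2 := Real.sq_sqrt (by positivity)

theorem jd_rpos (y : ℝ) : 0 < √(1 + y ^ 2) := Real.sqrt_pos.2 (by positivity)

theorem jd_r (y : ℝ) : HasDerivAt (fun y : ℝ => √(1 + y ^ 2)) (y / √(1 + y ^ 2)) y := by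
  have h1 : HasDerivAt (fun y : ℝ => 1 + y ^ 2) (2 * y) y := by
    simpa using ((hasDerivAt_id y).pow 2).const_add 1
  have h2 := h1.sqrt (by positivity)
  convert h2 using 1
  rw [mul_div_mul_left _ _ (by norm_num)]

theorem jd_x (y : ℝ) : HasDerivAt (fun y : ℝ => y / √(1 + y ^ 2)) ((√(1 + y ^ 2)) ^ 3)⁻¹ y := by
  have h := (hasDerivAt_id y).div (jd_r y) (jd_rpos y).ne'
  have h1 := jd_r2 y
  have h2 := jd_rpos y
  have e : (1 * √(1 + y ^ 2) - id y * (y / √(1 + y ^ 2))) / √(1 + y ^ 2) ^ 2 =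
      ((√(1 + y ^ 2)) ^ 3)⁻¹ := by
    set R := √(1 + y ^ 2)
    simp only [id]
    field_simp
    linarith
  rw [e] at h
  exact h

theorem jd_x1 {y : ℝ} (hy : 0 < y) : 0 < y / √(1 + y ^ 2) ∧ y / √(1 + y ^ 2) < 1 := by
  have h1 := jd_r2 y
  have h2 := jd_rpos y
  refine ⟨div_pos hy h2, ?_⟩
  rw [div_lt_one h2]
  nlinarith

theorem jd_one_sub (y : ℝ) : 1 - (y / √(1 + y ^ 2)) ^ 2 = ((√(1 + y ^ 2)) ^ 2)⁻¹ := by
  have h1 := jd_r2 y
  have h2 := jd_rpos y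
  set R := √(1 + y ^ 2)
  field_simp
  linarith

theorem jd_sqrt (y : ℝ) : √(1 - (y / √(1 + y ^ 2)) ^ 2) = (√(1 + y ^ 2))⁻¹ := by
  rw [jd_one_sub, Real.sqrt_inv, Real.sqrt_sq (jd_rpos y).le]

theorem jd_om (n : ℕ) (y : ℝ) :
    om n (y / √(1 + y ^ 2)) = (√(1 + y ^ 2)) ^ 4 * ((√(1 + y ^ 2)) ^ n)⁻¹ := by
  have h2 := jd_rpos y
  rw [om, jd_one_sub]
  set R := √(1 + y ^ 2)
  rw [Real.inv_rpow (by positivity), ← Real.rpow_natCast R 2, ← Real.rpow_mul h2.le]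
  have e : ((2 : ℕ) : ℝ) * (((n : ℝ) - 4) / 2) = (n : ℝ) - (4 : ℕ) := by push_cast; ring
  rw [e, Real.rpow_sub h2, Real.rpow_natCast, Real.rpow_natCast]
  rw [inv_div, div_eq_mul_inv]

theorem jd_A (n : ℕ) (g : ℝ → ℝ) (hg : ContDiff ℝ 2 g) (x : ℝ) :
    HasDerivAt (AA n g) (-((g x + x * deriv g x) * (√(1 - x ^ 2)) ^ (n - 2))) x := by
  have hc : Continuous fun r : ℝ => (g r + r * deriv g r) * (√(1 - r ^ 2)) ^ (n - 2) := by
    have h1 := hg.continuous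
    have h2 := hg.continuous_deriv (by norm_num)
    fun_prop
  have h := intervalIntegral.integral_hasDerivAt_left (a := x) (b := 1)
    (hc.intervalIntegrable x 1) (hc.stronglyMeasurableAtFilter _ _) hc.continuousAt
  exact h

theorem jd_c (n : ℕ) (g : ℝ → ℝ) (hg : ContDiff ℝ 2 g) {x : ℝ} (h0 : 0 < x) (h1 : x < 1) :
    HasDerivAt (cc n g) (ff g x * x ^ 2 * om n x) x := by
  have hc : ContinuousOn (fun r : ℝ => ff g r * r ^ 2 * om n r) (Ioo (-1) 1) := by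
    have k1 := hg.continuous
    have k2 := hg.continuous_deriv (by norm_num)
    have k3 : ContinuousOn (om n) (Ioo (-1) 1) := by
      unfold om
      apply ContinuousOn.rpow_const (by fun_prop)
      intro t ht
      left
      rw [mem_Ioo] at ht
      nlinarith
    have k4 : Continuous (fun r : ℝ => ff g r * r ^ 2) := by
      unfold ff
      fun_prop
    exact k4.continuousOn.mul k3
  have hx : x ∈ Ioo (-1 : ℝ) 1 := ⟨by linarith, h1⟩
  have hi : IntervalIntegrable (fun r : ℝ => ff g r * r ^ 2 * om n r) volume 0 x := by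
    apply ContinuousOn.intervalIntegrable
    apply hc.mono
    rw [uIcc_of_le h0.le]
    intro t ht
    exact ⟨by linarith [ht.1], by linarith [ht.2]⟩
  exact intervalIntegral.integral_hasDerivAt_right hi
    (hc.stronglyMeasurableAtFilter isOpen_Ioo x hx) (hc.continuousAt (isOpen_Ioo.mem_nhds hx))

theorem jd_Lam (n : ℕ) (g : ℝ → ℝ) {x : ℝ} (h0 : 0 < x) : Lam n g x = cc n g x / x ^ 3 := by
  have h := intervalIntegral.integral_comp_mul_left (a := 0) (b := 1)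
    (fun r => ff g r * r ^ 2 * om n r) h0.ne'
  rw [mul_zero, mul_one, smul_eq_mul] at h
  have h2 : ∫ s in (0 : ℝ)..1, ff g (x * s) * (x * s) ^ 2 * om n (x * s) = x ^ 2 * Lam n g x := by
    rw [Lam, ← intervalIntegral.integral_const_mul]
    congr 1
    ext s
    ring
  rw [h2] at h
  have h3 : x ^ 2 * Lam n g x = x⁻¹ * cc n g x := h
  rw [eq_div_iff (by positivity)]
  have h4 : x ^ 3 * Lam n g x = cc n g x := by
    calc x ^ 3 * Lam n g x = x * (x ^ 2 * Lam n g x) := by ring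
      _ = x * (x⁻¹ * cc n g x) := by rw [h3]
      _ = cc n g x := by rw [← mul_assoc, mul_inv_cancel₀ h0.ne', one_mul]
  rw [← h4]
  ring

theorem jd_p (m : ℕ) (y : ℝ) : HasDerivAt (fun y : ℝ => ((√(1 + y ^ 2)) ^ (m + 1))⁻¹)
    (-(((m : ℝ) + 1) * y) * ((√(1 + y ^ 2)) ^ (m + 3))⁻¹) y := by
  have hR := jd_rpos y
  have h : HasDerivAt (fun y : ℝ => ((√(1 + y ^ 2)) ^ (m + 1))⁻¹) _ y :=
    ((jd_r y).pow (m + 1)).inv (pow_pos hR _).ne'
  refine h.congr_deriv ?_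
  simp only [Pi.pow_apply, Nat.add_sub_cancel]
  push_cast
  set R := √(1 + y ^ 2)
  simp only [pow_add]
  have hP : R ^ m ≠ 0 := pow_ne_zero _ hR.ne'
  generalize R ^ m = P at *
  field_simp

theorem hasDerivAt_J0 {n : ℕ} (hn : 3 ≤ n) (g : ℝ → ℝ) (hg : ContDiff ℝ 2 g) {y : ℝ} (hy : 0 < y) :
    HasDerivAt (J0 n g) (J1 n g y) y := by
  obtain ⟨k, rfl⟩ : ∃ k, n = k + 3 := ⟨n - 3, by omega⟩
  have hR := jd_rpos y
  have hR2 := jd_r2 y
  have hx := jd_x y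
  have hx1 := jd_x1 hy
  have hg1 : HasDerivAt g (deriv g (y / √(1 + y ^ 2))) (y / √(1 + y ^ 2)) :=
    (hg.differentiable (by norm_num) _).hasDerivAt
  have hgx : HasDerivAt (fun y : ℝ => g (y / √(1 + y ^ 2))) _ y :=
    HasDerivAt.comp (h₂ := g) y hg1 hx
  have hAx : HasDerivAt (fun y : ℝ => AA (k + 3) g (y / √(1 + y ^ 2))) _ y :=
    HasDerivAt.comp (h₂ := AA (k + 3) g) y (jd_A (k + 3) g hg (y / √(1 + y ^ 2))) hx
  have hcx : HasDerivAt (fun y : ℝ => cc (k + 3) g (y / √(1 + y ^ 2))) _ y :=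
    HasDerivAt.comp (h₂ := cc (k + 3) g) y (jd_c (k + 3) g hg hx1.1 hx1.2) hx
  have t1 : HasDerivAt (fun y : ℝ => g (y / √(1 + y ^ 2)) * ((√(1 + y ^ 2)) ^ (k + 2))⁻¹) _ y :=
    hgx.mul (jd_p (k + 1) y)
  have t2 : HasDerivAt (fun y : ℝ => ((k + 3 : ℕ) : ℝ) / 2 * y * AA (k + 3) g (y / √(1 + y ^ 2))) _ y :=
    ((hasDerivAt_id' y).const_mul (((k + 3 : ℕ) : ℝ) / 2)).mul hAx
  have t3 : HasDerivAt (fun y : ℝ => (((k + 3 : ℕ) : ℝ) - 2) / 2 *
      (cc (k + 3) g (y / √(1 + y ^ 2)) / y)) _ y :=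
    (hcx.div (hasDerivAt_id' y) hy.ne').const_mul ((((k + 3 : ℕ) : ℝ) - 2) / 2)
  have t : HasDerivAt (J0 (k + 3) g) _ y := (t1.sub t2).add t3
  refine t.congr_deriv ?_
  rw [J1, jd_sqrt, jd_om]
  simp only [ff, show k + 3 - 2 = k + 1 from rfl, inv_pow]
  push_cast
  set R := √(1 + y ^ 2)
  generalize g (y / R) = G
  generalize deriv g (y / R) = G'
  generalize AA (k + 3) g (y / R) = A
  generalize cc (k + 3) g (y / R) = c
  simp only [pow_add]
  have hP : R ^ k ≠ 0 := pow_ne_zero _ hR.ne'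
  clear t t1 t2 t3 hgx hAx hcx hg1 hx
  generalize R ^ k = P at *
  generalize (k : ℝ) = K
  field_simp
  linear_combination (-2 * y ^ 2 * G') * hR2

theorem hasDerivAt_J1 {n : ℕ} (hn : 3 ≤ n) (g : ℝ → ℝ) (hg : ContDiff ℝ 2 g) {y : ℝ} (hy : 0 < y) :
    HasDerivAt (J1 n g) (J2 n g y) y := by
  obtain ⟨k, rfl⟩ : ∃ k, n = k + 3 := ⟨n - 3, by omega⟩
  have hR := jd_rpos y
  have hR2 := jd_r2 y
  have hx := jd_x y
  have hx1 := jd_x1 hy
  have hg2 : ContDiff ℝ 1 (deriv g) := by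
    have h2 : ContDiff ℝ (1 + 1) g := by
      rw [one_add_one_eq_two]
      exact hg
    exact (contDiff_succ_iff_deriv.1 h2).2.2
  have hg1 : HasDerivAt (deriv g) (deriv (deriv g) (y / √(1 + y ^ 2))) (y / √(1 + y ^ 2)) :=
    (hg2.differentiable (by norm_num) _).hasDerivAt
  have hgx : HasDerivAt (fun y : ℝ => deriv g (y / √(1 + y ^ 2))) _ y :=
    HasDerivAt.comp (h₂ := deriv g) y hg1 hx
  have hAx : HasDerivAt (fun y : ℝ => AA (k + 3) g (y / √(1 + y ^ 2))) _ y :=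
    HasDerivAt.comp (h₂ := AA (k + 3) g) y (jd_A (k + 3) g hg (y / √(1 + y ^ 2))) hx
  have hcx : HasDerivAt (fun y : ℝ => cc (k + 3) g (y / √(1 + y ^ 2))) _ y :=
    HasDerivAt.comp (h₂ := cc (k + 3) g) y (jd_c (k + 3) g hg hx1.1 hx1.2) hx
  have t1 : HasDerivAt (fun y : ℝ => deriv g (y / √(1 + y ^ 2)) * ((√(1 + y ^ 2)) ^ (k + 3))⁻¹) _ y :=
    hgx.mul (jd_p (k + 2) y)
  have t2 : HasDerivAt (fun y : ℝ => ((k + 3 : ℕ) : ℝ) / 2 * AA (k + 3) g (y / √(1 + y ^ 2))) _ y :=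
    hAx.const_mul (((k + 3 : ℕ) : ℝ) / 2)
  have hy2 : HasDerivAt (fun y : ℝ => y ^ 2) (2 * y) y := by simpa using hasDerivAt_pow 2 y
  have t3 : HasDerivAt (fun y : ℝ => (((k + 3 : ℕ) : ℝ) - 2) / 2 *
      (cc (k + 3) g (y / √(1 + y ^ 2)) / y ^ 2)) _ y :=
    (hcx.div hy2 (pow_pos hy 2).ne').const_mul ((((k + 3 : ℕ) : ℝ) - 2) / 2)
  have t : HasDerivAt (J1 (k + 3) g) _ y := (t1.sub t2).sub t3
  refine t.congr_deriv ?_
  rw [J2, HH, Tht, jd_Lam _ _ hx1.1, jd_sqrt, jd_om, jd_one_sub]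
  simp only [ff, show k + 3 - 2 = k + 1 from rfl, inv_pow]
  push_cast
  set R := √(1 + y ^ 2)
  generalize g (y / R) = G
  generalize deriv (deriv g) (y / R) = G''
  generalize deriv g (y / R) = G'
  generalize AA (k + 3) g (y / R) = A
  generalize cc (k + 3) g (y / R) = c
  simp only [pow_add]
  have hP : R ^ k ≠ 0 := pow_ne_zero _ hR.ne'
  clear t t1 t2 t3 hgx hAx hcx hg1 hx
  generalize R ^ k = P at *
  generalize (k : ℝ) = K
  field_simp
  ring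

end

end Pool.Agent.Helper115_ME.UU
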