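import Mathlib
import Pool.Agent.Helper115_ME.UU.Defs
set_option autoImplicit false
/-!
TARGET: limits of J₀, J₁ at ∞ and 0+. Notation: x = y/√(1+y²), s = 1/√(1+y²), ω = om n.
Proof in words. On [0,1]: |g|, |g'|, |f| ≤ M. As y → ∞: x → 1, s → 0, 1 - x ≤ s² (1 - x² = s²).
 |A(x)| ≤ 2M ∫_x^1 (1-r²)^((n-2)/2) dr ≤ 2M s^(n-2) (1-x) ≤ 2M s^n, so y |A(x)| → 0 (n ≥ 3, y s = x ≤ 1, so y |A| ≤ 2M s^(n-1)).
 |c(x)| ≤ M ∫_0^1 r² ω(r) dr =: C (ω integrable on [0,1], n ≥ 3), so c/y → 0 and y · c/y² → 0; also |c(x)| ≤ C' x³ (for x ≤ 1/2 because ω ≤ 2 there).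
 Hence J₀ → 0, and y J₁ = y s^n g' - (n/2) y A - ((n-2)/2) c/y → 0 (y s^n ≤ s^(n-1)).
 As y → 0+: x → 0, s → 1, c/y → 0, c/y² → 0, A(x) → A(0) and A(0) = ∫_0^1 (g + r g') (1-r²)^((n-2)/2) dr = (n-2) ∫_0^1 g r² ω dr = 0 (integrate
 (r g(r) (1-r²)^((n-2)/2))' = (g + r g') (1-r²)^((n-2)/2) - (n-2) r² g ω over [0,1]; continuity on [0,1], derivative on (0,1)), g'(0) = 0 by evenness:
 J₁ → 0 and J₀ → g(0).
-/
namespace Pool.Agent.Helper115_ME.UU

open MeasureTheory Set Filter Topology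

noncomputable section

lemma jf_S {y : ℝ} : 0 < √(1 + y ^ 2) ∧ 1 ≤ √(1 + y ^ 2) ∧ (√(1 + y ^ 2)) ^ 2 = 1 + y ^ 2 := by
  have h1 : (1 : ℝ) ≤ 1 + y ^ 2 := by nlinarith [sq_nonneg y]
  have h2 : 1 ≤ √(1 + y ^ 2) := Real.one_le_sqrt.2 h1
  exact ⟨by linarith, h2, Real.sq_sqrt (by linarith)⟩

lemma jf_X {y : ℝ} (hy : 0 ≤ y) :
    0 ≤ y / √(1 + y ^ 2) ∧ y / √(1 + y ^ 2) ≤ 1 ∧
    1 - (y / √(1 + y ^ 2)) ^ 2 = ((√(1 + y ^ 2))⁻¹) ^ 2 ∧ y / √(1 + y ^ 2) ≤ y := by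
  obtain ⟨h1, h2, h3⟩ := jf_S (y := y)
  refine ⟨div_nonneg hy h1.le, ?_, ?_, ?_⟩
  · rw [div_le_one h1]
    exact Real.le_sqrt_of_sq_le (by linarith)
  · rw [div_pow, inv_pow, h3]
    have : (1 + y ^ 2) ≠ 0 := by positivity
    field_simp
    ring
  · exact div_le_self hy h2

lemma jf_bounds (g : ℝ → ℝ) (hg : ContDiff ℝ 2 g) :
    ∃ M : ℝ, 0 ≤ M ∧ ∀ t ∈ Icc (0 : ℝ) 1, |g t| ≤ M ∧ |deriv g t| ≤ M := by
  have c1 : Continuous g := hg.continuous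
  have c2 : Continuous (deriv g) := hg.continuous_deriv (by norm_num)
  obtain ⟨M1, h1⟩ := (isCompact_Icc (a := (0 : ℝ)) (b := 1)).exists_bound_of_continuousOn
    c1.continuousOn
  obtain ⟨M2, h2⟩ := (isCompact_Icc (a := (0 : ℝ)) (b := 1)).exists_bound_of_continuousOn
    c2.continuousOn
  refine ⟨max M1 M2, ?_, fun t ht => ⟨(h1 t ht).trans (le_max_left _ _),
    (h2 t ht).trans (le_max_right _ _)⟩⟩
  exact le_trans (norm_nonneg _) ((h1 0 (by simp)).trans (le_max_left _ _))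

lemma jf_A_bound {n : ℕ} (hn : 3 ≤ n) (g : ℝ → ℝ) {M : ℝ} (hM : 0 ≤ M)
    (hb : ∀ t ∈ Icc (0 : ℝ) 1, |g t| ≤ M ∧ |deriv g t| ≤ M) {y : ℝ} (hy : 0 ≤ y) :
    |AA n g (y / √(1 + y ^ 2))| ≤ 2 * M * ((√(1 + y ^ 2))⁻¹) ^ n := by
  obtain ⟨hx0, hx1, hx2, _⟩ := jf_X hy
  obtain ⟨hS0, hS1, hS2⟩ := jf_S (y := y)
  set x := y / √(1 + y ^ 2) with hx
  set s := (√(1 + y ^ 2))⁻¹ with hs
  have hs0 : 0 ≤ s := by positivity
  have hsq : √(1 - x ^ 2) = s := by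
    rw [hx2, Real.sqrt_sq hs0]
  have key : ∀ r ∈ Set.uIoc x 1, ‖(g r + r * deriv g r) * (√(1 - r ^ 2)) ^ (n - 2)‖ ≤
      2 * M * s ^ (n - 2) := by
    intro r hr
    rw [uIoc_of_le hx1] at hr
    have hr0 : 0 ≤ r := hx0.trans hr.1.le
    obtain ⟨b1, b2⟩ := hb r ⟨hr0, hr.2⟩
    rw [norm_mul, norm_pow, Real.norm_eq_abs, Real.norm_eq_abs, abs_of_nonneg (Real.sqrt_nonneg _)]
    have e1 : |g r + r * deriv g r| ≤ 2 * M := by
      calc |g r + r * deriv g r| ≤ |g r| + |r * deriv g r| := abs_add_le _ _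
        _ ≤ M + 1 * M := by
          apply add_le_add b1
          rw [abs_mul, abs_of_nonneg hr0]
          exact mul_le_mul hr.2 b2 (abs_nonneg _) zero_le_one
        _ = 2 * M := by ring
    have e2 : √(1 - r ^ 2) ≤ s := by
      rw [← hsq]
      apply Real.sqrt_le_sqrt
      nlinarith [hr.1]
    exact mul_le_mul e1 (pow_le_pow_left₀ (Real.sqrt_nonneg _) e2 _) (by positivity) (by positivity)
  have h1 := intervalIntegral.norm_integral_le_of_norm_le_const key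
  have h2 : |1 - x| ≤ s ^ 2 := by
    rw [abs_of_nonneg (by linarith), ← hx2]
    nlinarith
  have hn2 : n = (n - 2) + 2 := by omega
  calc |AA n g x| = ‖∫ r in x..1, (g r + r * deriv g r) * (√(1 - r ^ 2)) ^ (n - 2)‖ := rfl
    _ ≤ 2 * M * s ^ (n - 2) * |1 - x| := h1
    _ ≤ 2 * M * s ^ (n - 2) * s ^ 2 := mul_le_mul_of_nonneg_left h2 (by positivity)
    _ = 2 * M * s ^ n := by
      rw [mul_assoc, ← pow_add]
      congr 2
      omega

lemma jf_expo {n : ℕ} (hn : 3 ≤ n) : -(1 / 2 : ℝ) ≤ ((n : ℝ) - 4) / 2 := by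
  have : (3 : ℝ) ≤ n := by exact_mod_cast hn
  linarith

lemma jf_om_int {n : ℕ} (hn : 3 ≤ n) : IntervalIntegrable (om n) volume 0 1 := by
  have ha := jf_expo hn
  set a : ℝ := ((n : ℝ) - 4) / 2 with hadef
  have h1 : IntervalIntegrable (fun t : ℝ => t ^ a) volume 1 0 :=
    (intervalIntegral.intervalIntegrable_rpow' (by linarith))
  have h2 : IntervalIntegrable (fun t : ℝ => (1 - t) ^ a) volume 0 1 := by
    have := h1.comp_sub_left 1
    simpa using this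
  have h3 : ContinuousOn (fun t : ℝ => (1 + t) ^ a) (Set.uIcc 0 1) := by
    apply ContinuousOn.rpow_const (by fun_prop)
    intro t ht
    rw [uIcc_of_le zero_le_one] at ht
    left
    have := ht.1
    positivity
  have h4 := h2.mul_continuousOn h3
  refine h4.congr ?_
  intro t ht
  rw [uIoc_of_le zero_le_one] at ht
  show (1 - t) ^ a * (1 + t) ^ a = (1 - t ^ 2) ^ (((n : ℝ) - 4) / 2)
  rw [← Real.mul_rpow (by linarith [ht.2]) (by linarith [ht.1])]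
  congr 1
  ring

lemma jf_om_nonneg {n : ℕ} {t : ℝ} (h0 : 0 ≤ t) (h1 : t ≤ 1) : 0 ≤ om n t := by
  unfold om
  apply Real.rpow_nonneg
  nlinarith

lemma jf_ff_bound (g : ℝ → ℝ) {M : ℝ}
    (hb : ∀ t ∈ Icc (0 : ℝ) 1, |g t| ≤ M ∧ |deriv g t| ≤ M) {r : ℝ} (h0 : 0 ≤ r) (h1 : r ≤ 1) :
    |ff g r| ≤ 2 * M := by
  obtain ⟨b1, b2⟩ := hb r ⟨h0, h1⟩
  unfold ff
  calc |g r - r * deriv g r| ≤ |g r| + |r * deriv g r| := abs_sub _ _
    _ ≤ M + 1 * M := by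
      apply add_le_add b1
      rw [abs_mul, abs_of_nonneg h0]
      exact mul_le_mul h1 b2 (abs_nonneg _) zero_le_one
    _ = 2 * M := by ring

lemma jf_c_bound {n : ℕ} (hn : 3 ≤ n) (g : ℝ → ℝ) {M : ℝ} (hM : 0 ≤ M)
    (hb : ∀ t ∈ Icc (0 : ℝ) 1, |g t| ≤ M ∧ |deriv g t| ≤ M) :
    ∃ C : ℝ, 0 ≤ C ∧ ∀ x ∈ Icc (0 : ℝ) 1, |cc n g x| ≤ C := by
  have hint := jf_om_int hn
  refine ⟨∫ r in (0 : ℝ)..1, 2 * M * om n r, ?_, ?_⟩
  · apply intervalIntegral.integral_nonneg zero_le_one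
    intro r hr
    exact mul_nonneg (by positivity) (jf_om_nonneg hr.1 hr.2)
  · intro x hx
    have hint1 : IntervalIntegrable (fun r => 2 * M * om n r) volume 0 1 := hint.const_mul _
    have hintx : IntervalIntegrable (fun r => 2 * M * om n r) volume 0 x := by
      apply hint1.mono_set
      rw [uIcc_of_le hx.1, uIcc_of_le zero_le_one]
      exact Icc_subset_Icc_right hx.2
    have h1 : ‖∫ r in (0 : ℝ)..x, ff g r * r ^ 2 * om n r‖ ≤ ∫ r in (0 : ℝ)..x, 2 * M * om n r := by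
      apply intervalIntegral.norm_integral_le_of_norm_le hx.1 _ hintx
      refine Filter.Eventually.of_forall fun r hr => ?_
      have hr0 : 0 ≤ r := hr.1.le
      have hr1 : r ≤ 1 := hr.2.trans hx.2
      have ho := jf_om_nonneg (n := n) hr0 hr1
      rw [norm_mul, norm_mul, Real.norm_eq_abs, Real.norm_eq_abs, Real.norm_eq_abs,
        abs_of_nonneg ho, abs_of_nonneg (sq_nonneg r)]
      have h2 := jf_ff_bound g hb hr0 hr1
      have h3 : |ff g r| * r ^ 2 ≤ 2 * M * 1 :=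
        mul_le_mul h2 (by nlinarith) (sq_nonneg r) (by positivity)
      rw [mul_one] at h3
      exact mul_le_mul_of_nonneg_right h3 ho
    refine h1.trans ?_
    apply intervalIntegral.integral_mono_interval le_rfl hx.1 hx.2 _ hint1
    refine (ae_restrict_iff' measurableSet_Ioc).2 (Filter.Eventually.of_forall fun r hr => ?_)
    exact mul_nonneg (by positivity) (jf_om_nonneg hr.1.le hr.2)

lemma jf_c_small {n : ℕ} (hn : 3 ≤ n) (g : ℝ → ℝ) {M : ℝ} (hM : 0 ≤ M)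
    (hb : ∀ t ∈ Icc (0 : ℝ) 1, |g t| ≤ M ∧ |deriv g t| ≤ M) {x : ℝ} (hx0 : 0 ≤ x)
    (hx1 : x ≤ 1 / 2) : |cc n g x| ≤ 4 * M * x ^ 3 := by
  have ha := jf_expo hn
  have key : ∀ r ∈ Set.uIoc 0 x, ‖ff g r * r ^ 2 * om n r‖ ≤ 2 * M * x ^ 2 * 2 := by
    intro r hr
    rw [uIoc_of_le hx0] at hr
    have hr0 : 0 ≤ r := hr.1.le
    have hr1 : r ≤ 1 := by linarith [hr.2]
    have ho := jf_om_nonneg (n := n) hr0 hr1
    rw [norm_mul, norm_mul, Real.norm_eq_abs, Real.norm_eq_abs, Real.norm_eq_abs,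
      abs_of_nonneg ho, abs_of_nonneg (sq_nonneg r)]
    have h2 := jf_ff_bound g hb hr0 hr1
    have h3 : |ff g r| * r ^ 2 ≤ 2 * M * x ^ 2 := by
      apply mul_le_mul h2 _ (sq_nonneg r) (by positivity)
      exact pow_le_pow_left₀ hr0 hr.2 2
    have h4 : om n r ≤ 2 := by
      unfold om
      have hu0 : (1 / 4 : ℝ) ≤ 1 - r ^ 2 := by nlinarith [hr.2]
      have hu1 : 1 - r ^ 2 ≤ 1 := by nlinarith [sq_nonneg r]
      have e1 : (1 - r ^ 2) ^ (((n : ℝ) - 4) / 2) ≤ (1 - r ^ 2) ^ (-(1 / 2 : ℝ)) :=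
        Real.rpow_le_rpow_of_exponent_ge (by linarith) hu1 ha
      have e2 : (1 - r ^ 2) ^ (-(1 / 2 : ℝ)) ≤ 2 := by
        rw [Real.rpow_neg (by linarith), ← Real.sqrt_eq_rpow]
        have e3 : (1 / 2 : ℝ) ≤ √(1 - r ^ 2) := Real.le_sqrt_of_sq_le (by linarith)
        calc (√(1 - r ^ 2))⁻¹ ≤ (1 / 2 : ℝ)⁻¹ := inv_anti₀ (by norm_num) e3
          _ = 2 := by norm_num
      exact e1.trans e2
    exact mul_le_mul h3 h4 ho (by positivity)
  have h1 := intervalIntegral.norm_integral_le_of_norm_le_const key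
  rw [sub_zero, abs_of_nonneg hx0] at h1
  calc |cc n g x| = ‖∫ r in (0 : ℝ)..x, ff g r * r ^ 2 * om n r‖ := rfl
    _ ≤ 2 * M * x ^ 2 * 2 * x := h1
    _ = 4 * M * x ^ 3 := by ring

lemma jf_s_tendsto : Tendsto (fun y : ℝ => (√(1 + y ^ 2))⁻¹) atTop (𝓝 0) := by
  have h1 : ∀ᶠ y : ℝ in atTop, ‖(√(1 + y ^ 2))⁻¹‖ ≤ y⁻¹ := by
    filter_upwards [eventually_gt_atTop (0 : ℝ)] with y hy
    obtain ⟨hS0, _, _⟩ := jf_S (y := y)
    rw [Real.norm_eq_abs, abs_of_pos (inv_pos.2 hS0)]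
    apply inv_anti₀ hy
    exact Real.le_sqrt_of_sq_le (by linarith)
  exact squeeze_zero_norm' h1 tendsto_inv_atTop_zero

lemma jf_pow_le {y : ℝ} {k : ℕ} (hk : 1 ≤ k) :
    ((√(1 + y ^ 2))⁻¹) ^ k ≤ (√(1 + y ^ 2))⁻¹ := by
  obtain ⟨hS0, hS1, _⟩ := jf_S (y := y)
  have h0 : 0 ≤ (√(1 + y ^ 2))⁻¹ := (inv_pos.2 hS0).le
  have h1 : (√(1 + y ^ 2))⁻¹ ≤ 1 := inv_le_one_of_one_le₀ hS1
  calc ((√(1 + y ^ 2))⁻¹) ^ k ≤ ((√(1 + y ^ 2))⁻¹) ^ 1 := pow_le_pow_of_le_one h0 h1 hk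
    _ = _ := pow_one _

lemma jf_yA {n : ℕ} (hn : 3 ≤ n) {y : ℝ} (hy : 0 ≤ y) :
    y * ((√(1 + y ^ 2))⁻¹) ^ n ≤ (√(1 + y ^ 2))⁻¹ := by
  obtain ⟨hS0, hS1, _⟩ := jf_S (y := y)
  obtain ⟨_, hx1, _, _⟩ := jf_X hy
  have h0 : 0 ≤ (√(1 + y ^ 2))⁻¹ := (inv_pos.2 hS0).le
  obtain ⟨m, rfl⟩ : ∃ m, n = m + 1 := ⟨n - 1, by omega⟩
  rw [pow_succ]
  have h1 : y * (√(1 + y ^ 2))⁻¹ ≤ 1 := by rw [← div_eq_mul_inv]; exact hx1
  have h2 := jf_pow_le (y := y) (k := m) (by omega)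
  calc y * (((√(1 + y ^ 2))⁻¹) ^ m * (√(1 + y ^ 2))⁻¹)
      = (y * (√(1 + y ^ 2))⁻¹) * ((√(1 + y ^ 2))⁻¹) ^ m := by ring
    _ ≤ 1 * (√(1 + y ^ 2))⁻¹ := mul_le_mul h1 h2 (by positivity) zero_le_one
    _ = _ := one_mul _

theorem tendsto_J0 {n : ℕ} (hn : 3 ≤ n) (g : ℝ → ℝ) (hg : ContDiff ℝ 2 g) :
    Tendsto (J0 n g) atTop (𝓝 0) := by
  obtain ⟨M, hM, hb⟩ := jf_bounds g hg
  obtain ⟨C, hC, hc⟩ := jf_c_bound hn g hM hb
  have hn' : (3 : ℝ) ≤ n := by exact_mod_cast hn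
  have hbound : ∀ᶠ y : ℝ in atTop, ‖J0 n g y‖ ≤
      (M + (n : ℝ) * M) * (√(1 + y ^ 2))⁻¹ + ((n : ℝ) - 2) / 2 * C * y⁻¹ := by
    filter_upwards [eventually_gt_atTop (0 : ℝ)] with y hy
    obtain ⟨hS0, hS1, _⟩ := jf_S (y := y)
    obtain ⟨hx0, hx1, _, _⟩ := jf_X hy.le
    have hA := jf_A_bound hn g hM hb hy.le
    have hc' := hc _ ⟨hx0, hx1⟩
    obtain ⟨b1, _⟩ := hb _ ⟨hx0, hx1⟩
    have hp := jf_pow_le (y := y) (k := n - 1) (by omega)
    have hyA := jf_yA hn hy.le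
    unfold J0
    rw [← inv_pow]
    set x := y / √(1 + y ^ 2)
    set s := (√(1 + y ^ 2))⁻¹ with hs
    have hs0 : 0 ≤ s := by positivity
    have t1 : |g x * s ^ (n - 1)| ≤ M * s := by
      rw [abs_mul, abs_of_nonneg (by positivity : 0 ≤ s ^ (n - 1))]
      exact mul_le_mul b1 hp (by positivity) hM
    have t2 : |(n : ℝ) / 2 * y * AA n g x| ≤ (n : ℝ) * M * s := by
      rw [abs_mul, abs_of_nonneg (by positivity : 0 ≤ (n : ℝ) / 2 * y)]
      calc (n : ℝ) / 2 * y * |AA n g x| ≤ (n : ℝ) / 2 * y * (2 * M * s ^ n) :=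
            mul_le_mul_of_nonneg_left hA (by positivity)
        _ = (n : ℝ) * M * (y * s ^ n) := by ring
        _ ≤ (n : ℝ) * M * s := mul_le_mul_of_nonneg_left hyA (by positivity)
    have t3 : |((n : ℝ) - 2) / 2 * (cc n g x / y)| ≤ ((n : ℝ) - 2) / 2 * C * y⁻¹ := by
      have hn2 : 0 ≤ ((n : ℝ) - 2) / 2 := by linarith
      rw [abs_mul, abs_of_nonneg hn2, abs_div, abs_of_pos hy]
      calc ((n : ℝ) - 2) / 2 * (|cc n g x| / y) ≤ ((n : ℝ) - 2) / 2 * (C / y) :=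
            mul_le_mul_of_nonneg_left (div_le_div_of_nonneg_right hc' hy.le) hn2
        _ = _ := by rw [div_eq_mul_inv C y]; ring
    rw [Real.norm_eq_abs]
    calc |g x * s ^ (n - 1) - (n : ℝ) / 2 * y * AA n g x + ((n : ℝ) - 2) / 2 * (cc n g x / y)|
        ≤ |g x * s ^ (n - 1) - (n : ℝ) / 2 * y * AA n g x| +
            |((n : ℝ) - 2) / 2 * (cc n g x / y)| := abs_add_le _ _
      _ ≤ (|g x * s ^ (n - 1)| + |(n : ℝ) / 2 * y * AA n g x|) +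
            |((n : ℝ) - 2) / 2 * (cc n g x / y)| := by
          apply add_le_add_left
          exact abs_sub _ _
      _ ≤ _ := by nlinarith
  refine squeeze_zero_norm' hbound ?_
  have h1 := (jf_s_tendsto.const_mul (M + (n : ℝ) * M)).add
    ((tendsto_inv_atTop_zero (𝕜 := ℝ)).const_mul (((n : ℝ) - 2) / 2 * C))
  simpa using h1

theorem tendsto_mul_J1 {n : ℕ} (hn : 3 ≤ n) (g : ℝ → ℝ) (hg : ContDiff ℝ 2 g) :
    Tendsto (fun y => y * J1 n g y) atTop (𝓝 0) := by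
  obtain ⟨M, hM, hb⟩ := jf_bounds g hg
  obtain ⟨C, hC, hc⟩ := jf_c_bound hn g hM hb
  have hn' : (3 : ℝ) ≤ n := by exact_mod_cast hn
  have hbound : ∀ᶠ y : ℝ in atTop, ‖y * J1 n g y‖ ≤
      (M + (n : ℝ) * M) * (√(1 + y ^ 2))⁻¹ + ((n : ℝ) - 2) / 2 * C * y⁻¹ := by
    filter_upwards [eventually_gt_atTop (0 : ℝ)] with y hy
    obtain ⟨hS0, hS1, _⟩ := jf_S (y := y)
    obtain ⟨hx0, hx1, _, _⟩ := jf_X hy.le
    have hA := jf_A_bound hn g hM hb hy.le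
    have hc' := hc _ ⟨hx0, hx1⟩
    obtain ⟨_, b2⟩ := hb _ ⟨hx0, hx1⟩
    have hyA := jf_yA hn hy.le
    unfold J1
    rw [← inv_pow]
    set x := y / √(1 + y ^ 2)
    set s := (√(1 + y ^ 2))⁻¹ with hs
    have hs0 : 0 ≤ s := by positivity
    have e : y * (deriv g x * s ^ n - (n : ℝ) / 2 * AA n g x -
        ((n : ℝ) - 2) / 2 * (cc n g x / y ^ 2)) =
        deriv g x * (y * s ^ n) - (n : ℝ) / 2 * y * AA n g x -
          ((n : ℝ) - 2) / 2 * (cc n g x / y) := by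
      field_simp
    have t1 : |deriv g x * (y * s ^ n)| ≤ M * s := by
      rw [abs_mul, abs_of_nonneg (by positivity : 0 ≤ y * s ^ n)]
      exact mul_le_mul b2 hyA (by positivity) hM
    have t2 : |(n : ℝ) / 2 * y * AA n g x| ≤ (n : ℝ) * M * s := by
      rw [abs_mul, abs_of_nonneg (by positivity : 0 ≤ (n : ℝ) / 2 * y)]
      calc (n : ℝ) / 2 * y * |AA n g x| ≤ (n : ℝ) / 2 * y * (2 * M * s ^ n) :=
            mul_le_mul_of_nonneg_left hA (by positivity)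
        _ = (n : ℝ) * M * (y * s ^ n) := by ring
        _ ≤ (n : ℝ) * M * s := mul_le_mul_of_nonneg_left hyA (by positivity)
    have t3 : |((n : ℝ) - 2) / 2 * (cc n g x / y)| ≤ ((n : ℝ) - 2) / 2 * C * y⁻¹ := by
      have hn2 : 0 ≤ ((n : ℝ) - 2) / 2 := by linarith
      rw [abs_mul, abs_of_nonneg hn2, abs_div, abs_of_pos hy]
      calc ((n : ℝ) - 2) / 2 * (|cc n g x| / y) ≤ ((n : ℝ) - 2) / 2 * (C / y) :=
            mul_le_mul_of_nonneg_left (div_le_div_of_nonneg_right hc' hy.le) hn2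
        _ = _ := by rw [div_eq_mul_inv C y]; ring
    rw [Real.norm_eq_abs, e]
    calc |deriv g x * (y * s ^ n) - (n : ℝ) / 2 * y * AA n g x -
          ((n : ℝ) - 2) / 2 * (cc n g x / y)|
        ≤ |deriv g x * (y * s ^ n) - (n : ℝ) / 2 * y * AA n g x| +
            |((n : ℝ) - 2) / 2 * (cc n g x / y)| := abs_sub _ _
      _ ≤ (|deriv g x * (y * s ^ n)| + |(n : ℝ) / 2 * y * AA n g x|) +
            |((n : ℝ) - 2) / 2 * (cc n g x / y)| := by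
          apply add_le_add_left
          exact abs_sub _ _
      _ ≤ _ := by nlinarith
  refine squeeze_zero_norm' hbound ?_
  have h1 := (jf_s_tendsto.const_mul (M + (n : ℝ) * M)).add
    ((tendsto_inv_atTop_zero (𝕜 := ℝ)).const_mul (((n : ℝ) - 2) / 2 * C))
  simpa using h1

lemma jf_S_cont : Continuous fun y : ℝ => √(1 + y ^ 2) := by fun_prop

lemma jf_X_cont : Continuous fun y : ℝ => y / √(1 + y ^ 2) := by
  apply Continuous.div continuous_id jf_S_cont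
  intro y
  exact (jf_S (y := y)).1.ne'

lemma jf_first (h : ℝ → ℝ) (hh : Continuous h) (k : ℕ) :
    Tendsto (fun y : ℝ => h (y / √(1 + y ^ 2)) * ((√(1 + y ^ 2)) ^ k)⁻¹) (𝓝[>] 0) (𝓝 (h 0)) := by
  have hc : Continuous fun y : ℝ => h (y / √(1 + y ^ 2)) * ((√(1 + y ^ 2)) ^ k)⁻¹ := by
    apply (hh.comp jf_X_cont).mul
    apply Continuous.inv₀ (jf_S_cont.pow k)
    intro y
    exact (pow_pos (jf_S (y := y)).1 k).ne'
  have h1 := hc.tendsto 0
  simp only [ne_eq, OfNat.ofNat_ne_zero, not_false_eq_true, zero_pow, add_zero, Real.sqrt_one,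
    div_one, one_pow, inv_one, mul_one] at h1
  exact h1.mono_left nhdsWithin_le_nhds

lemma jf_c_div {n : ℕ} (hn : 3 ≤ n) (g : ℝ → ℝ) {M : ℝ} (hM : 0 ≤ M)
    (hb : ∀ t ∈ Icc (0 : ℝ) 1, |g t| ≤ M ∧ |deriv g t| ≤ M) {y : ℝ} (hy : 0 < y)
    (hy2 : y ≤ 1 / 2) :
    |cc n g (y / √(1 + y ^ 2)) / y ^ 2| ≤ 4 * M * y := by
  obtain ⟨hx0, hx1, _, hxy⟩ := jf_X hy.le
  have h1 := jf_c_small hn g hM hb hx0 (hxy.trans hy2)
  have h2 : (y / √(1 + y ^ 2)) ^ 3 ≤ y ^ 3 := pow_le_pow_left₀ hx0 hxy 3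
  rw [abs_div, abs_of_pos (by positivity : 0 < y ^ 2), div_le_iff₀ (by positivity)]
  calc |cc n g (y / √(1 + y ^ 2))| ≤ 4 * M * (y / √(1 + y ^ 2)) ^ 3 := h1
    _ ≤ 4 * M * y ^ 3 := mul_le_mul_of_nonneg_left h2 (by positivity)
    _ = 4 * M * y * y ^ 2 := by ring

lemma jf_id_tendsto (K : ℝ) : Tendsto (fun y : ℝ => K * y) (𝓝[>] 0) (𝓝 0) := by
  have h1 : Tendsto (fun y : ℝ => K * y) (𝓝 0) (𝓝 (K * 0)) :=
    (continuous_const.mul continuous_id).tendsto 0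
  rw [mul_zero] at h1
  exact h1.mono_left nhdsWithin_le_nhds

lemma jf_ev : ∀ᶠ y : ℝ in 𝓝[>] (0 : ℝ), 0 < y ∧ y ≤ 1 / 2 := by
  have h1 : ∀ᶠ y : ℝ in 𝓝[>] (0 : ℝ), y < 1 / 2 :=
    (eventually_lt_nhds (by norm_num)).filter_mono nhdsWithin_le_nhds
  filter_upwards [h1, self_mem_nhdsWithin] with y hy hy0
  exact ⟨hy0, hy.le⟩

theorem tendsto_J0_zero {n : ℕ} (hn : 3 ≤ n) (g : ℝ → ℝ) (hg : ContDiff ℝ 2 g) :
    Tendsto (J0 n g) (𝓝[>] 0) (𝓝 (g 0)) := by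
  obtain ⟨M, hM, hb⟩ := jf_bounds g hg
  have hn' : (3 : ℝ) ≤ n := by exact_mod_cast hn
  have h1 := jf_first g hg.continuous (n - 1)
  have h2 : Tendsto (fun y : ℝ => (n : ℝ) / 2 * y * AA n g (y / √(1 + y ^ 2))) (𝓝[>] 0) (𝓝 0) := by
    have hbd : ∀ᶠ y : ℝ in 𝓝[>] (0 : ℝ), ‖(n : ℝ) / 2 * y * AA n g (y / √(1 + y ^ 2))‖ ≤
        ((n : ℝ) * M) * y := by
      filter_upwards [jf_ev] with y hy
      have hA := jf_A_bound hn g hM hb hy.1.le
      obtain ⟨hS0, hS1, _⟩ := jf_S (y := y)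
      have hp := jf_pow_le (y := y) (k := n) (by omega)
      have hs1 : (√(1 + y ^ 2))⁻¹ ≤ 1 := inv_le_one_of_one_le₀ hS1
      have hA' : |AA n g (y / √(1 + y ^ 2))| ≤ 2 * M :=
        hA.trans (by nlinarith)
      have hy0 := hy.1
      rw [Real.norm_eq_abs, abs_mul, abs_of_nonneg (by positivity : 0 ≤ (n : ℝ) / 2 * y)]
      calc (n : ℝ) / 2 * y * |AA n g (y / √(1 + y ^ 2))| ≤ (n : ℝ) / 2 * y * (2 * M) :=
            mul_le_mul_of_nonneg_left hA' (by positivity)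
        _ = (n : ℝ) * M * y := by ring
    exact squeeze_zero_norm' hbd (jf_id_tendsto _)
  have h3 : Tendsto (fun y : ℝ => ((n : ℝ) - 2) / 2 * (cc n g (y / √(1 + y ^ 2)) / y))
      (𝓝[>] 0) (𝓝 0) := by
    have hbd : ∀ᶠ y : ℝ in 𝓝[>] (0 : ℝ),
        ‖((n : ℝ) - 2) / 2 * (cc n g (y / √(1 + y ^ 2)) / y)‖ ≤
        (((n : ℝ) - 2) / 2 * (4 * M)) * y := by
      filter_upwards [jf_ev] with y hy
      have hy0 := hy.1
      have h := jf_c_div hn g hM hb hy.1 hy.2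
      have hn2 : 0 ≤ ((n : ℝ) - 2) / 2 := by linarith
      have e : cc n g (y / √(1 + y ^ 2)) / y = y * (cc n g (y / √(1 + y ^ 2)) / y ^ 2) := by
        field_simp
      rw [Real.norm_eq_abs, abs_mul, abs_of_nonneg hn2, e, abs_mul, abs_of_pos hy0, mul_assoc]
      apply mul_le_mul_of_nonneg_left _ hn2
      calc y * |cc n g (y / √(1 + y ^ 2)) / y ^ 2| ≤ 1 * (4 * M * y) := by
            apply mul_le_mul (by linarith [hy.2]) h (abs_nonneg _) zero_le_one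
        _ = 4 * M * y := one_mul _
    exact squeeze_zero_norm' hbd (jf_id_tendsto _)
  have h4 := (h1.sub h2).add h3
  rw [sub_zero, add_zero] at h4
  exact h4

lemma jf_pow_eq {n : ℕ} (hn : 3 ≤ n) {u : ℝ} (hu : 0 ≤ u) :
    (√u) ^ (n - 2) = u ^ (((n : ℝ) - 2) / 2) := by
  rw [Real.sqrt_eq_rpow, ← Real.rpow_mul_natCast hu, Nat.cast_sub (by omega)]
  congr 1
  push_cast
  ring

lemma jf_A0 {n : ℕ} (hn : 3 ≤ n) (g : ℝ → ℝ) (hg : ContDiff ℝ 2 g)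
    (hW : ∫ t in (0 : ℝ)..1, g t * t ^ 2 * om n t = 0) : AA n g 0 = 0 := by
  have hn' : (3 : ℝ) ≤ n := by exact_mod_cast hn
  set p : ℝ := ((n : ℝ) - 2) / 2 with hp
  have hp0 : 0 < p := by rw [hp]; linarith
  have c1 : Continuous g := hg.continuous
  have c2 : Continuous (deriv g) := hg.continuous_deriv (by norm_num)
  have hcontG : ContinuousOn (fun r : ℝ => r * g r * (1 - r ^ 2) ^ p) (Icc 0 1) := by
    apply ContinuousOn.mul (by fun_prop)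
    apply ContinuousOn.rpow_const (by fun_prop)
    intro r _
    exact Or.inr hp0.le
  have hderiv : ∀ r ∈ Ioo (0 : ℝ) 1, HasDerivAt (fun r : ℝ => r * g r * (1 - r ^ 2) ^ p)
      ((g r + r * deriv g r) * (√(1 - r ^ 2)) ^ (n - 2) -
        ((n : ℝ) - 2) * (g r * r ^ 2 * om n r)) r := by
    intro r hr
    have hu : 0 < 1 - r ^ 2 := by nlinarith [hr.1, hr.2]
    have hg' : HasDerivAt g (deriv g r) r :=
      (hg.differentiable (by norm_num)).differentiableAt.hasDerivAt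
    have d1 : HasDerivAt (fun r : ℝ => r * g r) (1 * g r + r * deriv g r) r :=
      (hasDerivAt_id r).mul hg'
    have d2 : HasDerivAt (fun r : ℝ => 1 - r ^ 2) (-(2 * r)) r := by
      have := ((hasDerivAt_id r).pow 2).const_sub 1
      simpa using this
    have d3 : HasDerivAt (fun r : ℝ => (1 - r ^ 2) ^ p) (-(2 * r) * p * (1 - r ^ 2) ^ (p - 1)) r :=
      d2.rpow_const (Or.inl hu.ne')
    have d4 := d1.mul d3
    refine d4.congr_deriv ?_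
    rw [jf_pow_eq hn hu.le, ← hp]
    have e1 : om n r = (1 - r ^ 2) ^ (p - 1) := by
      unfold om
      congr 1
      rw [hp]
      ring
    rw [e1]
    rw [hp]
    ring
  have i1 : IntervalIntegrable (fun r : ℝ => (g r + r * deriv g r) * (√(1 - r ^ 2)) ^ (n - 2))
      volume 0 1 := by
    apply Continuous.intervalIntegrable
    fun_prop
  have i2 : IntervalIntegrable (fun r : ℝ => g r * r ^ 2 * om n r) volume 0 1 := by
    apply (jf_om_int hn).continuousOn_mul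
    fun_prop
  have hint := i1.sub (i2.const_mul ((n : ℝ) - 2))
  have hFTC := intervalIntegral.integral_eq_sub_of_hasDerivAt_of_le zero_le_one hcontG hderiv hint
  rw [intervalIntegral.integral_sub i1 (i2.const_mul _), intervalIntegral.integral_const_mul, hW]
    at hFTC
  have hz : (0 : ℝ) ^ p = 0 := Real.zero_rpow hp0.ne'
  simp only [one_pow, sub_self, hz, mul_zero, zero_mul, sub_zero] at hFTC
  exact hFTC

lemma jf_A_near {n : ℕ} (g : ℝ → ℝ) (hg : ContDiff ℝ 2 g) {M : ℝ} (hM : 0 ≤ M)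
    (hb : ∀ t ∈ Icc (0 : ℝ) 1, |g t| ≤ M ∧ |deriv g t| ≤ M) {x : ℝ} (hx0 : 0 ≤ x) (hx1 : x ≤ 1) :
    |AA n g x - AA n g 0| ≤ 2 * M * x := by
  have c1 : Continuous g := hg.continuous
  have c2 : Continuous (deriv g) := hg.continuous_deriv (by norm_num)
  have hc : Continuous (fun r : ℝ => (g r + r * deriv g r) * (√(1 - r ^ 2)) ^ (n - 2)) := by
    fun_prop
  have hadd := intervalIntegral.integral_add_adjacent_intervals
    (hc.intervalIntegrable (μ := volume) 0 x) (hc.intervalIntegrable (μ := volume) x 1)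
  have e : AA n g x - AA n g 0 =
      -∫ r in (0 : ℝ)..x, (g r + r * deriv g r) * (√(1 - r ^ 2)) ^ (n - 2) := by
    unfold AA
    linarith
  rw [e, abs_neg]
  have key : ∀ r ∈ Set.uIoc 0 x, ‖(g r + r * deriv g r) * (√(1 - r ^ 2)) ^ (n - 2)‖ ≤ 2 * M := by
    intro r hr
    rw [uIoc_of_le hx0] at hr
    have hr0 : 0 ≤ r := hr.1.le
    have hr1 : r ≤ 1 := hr.2.trans hx1
    obtain ⟨b1, b2⟩ := hb r ⟨hr0, hr1⟩
    rw [norm_mul, norm_pow, Real.norm_eq_abs, Real.norm_eq_abs, abs_of_nonneg (Real.sqrt_nonneg _)]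
    have e1 : |g r + r * deriv g r| ≤ 2 * M := by
      calc |g r + r * deriv g r| ≤ |g r| + |r * deriv g r| := abs_add_le _ _
        _ ≤ M + 1 * M := by
          apply add_le_add b1
          rw [abs_mul, abs_of_nonneg hr0]
          exact mul_le_mul hr1 b2 (abs_nonneg _) zero_le_one
        _ = 2 * M := by ring
    have e2 : √(1 - r ^ 2) ≤ 1 := by
      rw [Real.sqrt_le_left zero_le_one]
      nlinarith [sq_nonneg r]
    calc |g r + r * deriv g r| * √(1 - r ^ 2) ^ (n - 2) ≤ 2 * M * 1 := by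
          apply mul_le_mul e1 (pow_le_one₀ (Real.sqrt_nonneg _) e2) (by positivity) (by positivity)
      _ = 2 * M := mul_one _
  have h1 := intervalIntegral.norm_integral_le_of_norm_le_const key
  rw [sub_zero, abs_of_nonneg hx0] at h1
  exact h1

theorem tendsto_J1_zero {n : ℕ} (hn : 3 ≤ n) (g : ℝ → ℝ) (hg : ContDiff ℝ 2 g) (heven : ∀ t, g (-t) = g t)
    (hW : ∫ t in (0 : ℝ)..1, g t * t ^ 2 * om n t = 0) :
    Tendsto (J1 n g) (𝓝[>] 0) (𝓝 0) := by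
  obtain ⟨M, hM, hb⟩ := jf_bounds g hg
  have hn' : (3 : ℝ) ≤ n := by exact_mod_cast hn
  have c2 : Continuous (deriv g) := hg.continuous_deriv (by norm_num)
  have hd0 : deriv g 0 = 0 := by
    have h1 : (fun t => g (-t)) = g := funext heven
    have h2 : deriv (fun t => g (-t)) 0 = -deriv g (-0) := deriv_comp_neg g 0
    rw [h1, neg_zero] at h2
    linarith
  have hA0 := jf_A0 hn g hg hW
  have h1 := jf_first (deriv g) c2 n
  rw [hd0] at h1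
  have h2 : Tendsto (fun y : ℝ => (n : ℝ) / 2 * AA n g (y / √(1 + y ^ 2))) (𝓝[>] 0) (𝓝 0) := by
    have hbd : ∀ᶠ y : ℝ in 𝓝[>] (0 : ℝ), ‖(n : ℝ) / 2 * AA n g (y / √(1 + y ^ 2))‖ ≤
        ((n : ℝ) * M) * y := by
      filter_upwards [jf_ev] with y hy
      obtain ⟨hx0, hx1, _, hxy⟩ := jf_X hy.1.le
      have hA := jf_A_near (n := n) g hg hM hb hx0 hx1
      rw [hA0, sub_zero] at hA
      have hA' : |AA n g (y / √(1 + y ^ 2))| ≤ 2 * M * y :=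
        hA.trans (mul_le_mul_of_nonneg_left hxy (by positivity))
      rw [Real.norm_eq_abs, abs_mul, abs_of_nonneg (by positivity : 0 ≤ (n : ℝ) / 2)]
      calc (n : ℝ) / 2 * |AA n g (y / √(1 + y ^ 2))| ≤ (n : ℝ) / 2 * (2 * M * y) :=
            mul_le_mul_of_nonneg_left hA' (by positivity)
        _ = (n : ℝ) * M * y := by ring
    exact squeeze_zero_norm' hbd (jf_id_tendsto _)
  have h3 : Tendsto (fun y : ℝ => ((n : ℝ) - 2) / 2 * (cc n g (y / √(1 + y ^ 2)) / y ^ 2))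
      (𝓝[>] 0) (𝓝 0) := by
    have hbd : ∀ᶠ y : ℝ in 𝓝[>] (0 : ℝ),
        ‖((n : ℝ) - 2) / 2 * (cc n g (y / √(1 + y ^ 2)) / y ^ 2)‖ ≤
        (((n : ℝ) - 2) / 2 * (4 * M)) * y := by
      filter_upwards [jf_ev] with y hy
      have h := jf_c_div hn g hM hb hy.1 hy.2
      have hn2 : 0 ≤ ((n : ℝ) - 2) / 2 := by linarith
      rw [Real.norm_eq_abs, abs_mul, abs_of_nonneg hn2, mul_assoc]
      exact mul_le_mul_of_nonneg_left h hn2
    exact squeeze_zero_norm' hbd (jf_id_tendsto _)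
  have h4 := (h1.sub h2).sub h3
  rw [sub_zero, sub_zero] at h4
  exact h4

end

end Pool.Agent.Helper115_ME.UU
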