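import Mathlib
set_option autoImplicit false
/-!
TARGET: integration by parts twice against a convex function.
-/
namespace Pool.Agent.Helper115_ME.UU

open MeasureTheory Set Filter Topology

theorem ibp_line (κ : ℝ → ℝ) (hκ : ConvexOn ℝ univ κ) (hκd : ContDiff ℝ 2 κ)
    (hgrow : ∃ A, ∀ z, |κ z| ≤ A * (1 + |z|)) (E J0 J1 J2 : ℝ → ℝ) (hE : ∀ z, E (-z) = E z)
    (hEJ : ∀ z, 0 < z → E z = J2 z) (h0 : ∀ y, 0 < y → HasDerivAt J0 (J1 y) y)
    (h1 : ∀ y, 0 < y → HasDerivAt J1 (J2 y) y) (hpos : ∀ y, 0 < y → 0 ≤ J0 y)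
    (l0 : Tendsto J0 atTop (𝓝 0)) (l1 : Tendsto (fun y => y * J1 y) atTop (𝓝 0))
    (l2 : Tendsto J1 (𝓝[>] 0) (𝓝 0)) (l3 : ∃ L, Tendsto J0 (𝓝[>] 0) (𝓝 L)) :
    0 ≤ ∫ z : ℝ, κ z * E z := by
  by_cases hint : Integrable (fun z => κ z * E z)
  swap
  · rw [integral_undef hint]
  obtain ⟨A, hA⟩ := hgrow
  obtain ⟨L, hL⟩ := l3
  set k : ℝ → ℝ := fun z => κ z + κ (-z) with hk
  have hkd : ContDiff ℝ 2 k := hκd.add (hκd.comp contDiff_neg)
  have hkconv : ConvexOn ℝ univ k := by
    refine ⟨convex_univ, ?_⟩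
    intro x _ y _ a b ha hb hab
    have e1 := hκ.2 (mem_univ x) (mem_univ y) ha hb hab
    have e2 := hκ.2 (mem_univ (-x)) (mem_univ (-y)) ha hb hab
    simp only [hk, smul_eq_mul] at *
    have e3 : -(a * x + b * y) = a * -x + b * -y := by ring
    rw [e3]
    linarith
  have hkdiff : Differentiable ℝ k := hkd.differentiable (by norm_num)
  have hk1 : ContDiff ℝ 1 (deriv k) := by
    have : ContDiff ℝ (1 + 1) k := by norm_num; exact hkd
    exact (contDiff_succ_iff_deriv.mp this).2.2
  have hk1diff : Differentiable ℝ (deriv k) := hk1.differentiable (by norm_num)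
  have hk1cont : Continuous (deriv k) := hk1.continuous
  have hkcont : Continuous k := hkd.continuous
  have hmono : Monotone (deriv k) := by
    have := hkconv.monotoneOn_deriv (fun x _ => hkdiff x)
    intro a b hab
    exact this (mem_univ a) (mem_univ b) hab
  have hk2 : ∀ y, 0 ≤ deriv (deriv k) y := by
    intro y
    have := hmono.monotoneOn univ |>.derivWithin_nonneg (x := y)
    rwa [derivWithin_univ] at this
  have heven : ∀ z, k (-z) = k z := by
    intro z
    simp only [hk, neg_neg]
    ring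
  have hk10 : deriv k 0 = 0 := by
    have hd : HasDerivAt k (deriv k 0) 0 := (hkdiff 0).hasDerivAt
    have hd2 : HasDerivAt (fun z => k (-z)) (-(deriv k 0)) 0 := by
      have hd' : HasDerivAt k (deriv k 0) (-(0:ℝ)) := by rw [neg_zero]; exact hd
      have := hd'.comp (0:ℝ) (hasDerivAt_neg (0:ℝ))
      simpa [Function.comp_def] using this
    have he : (fun z => k (-z)) = k := funext heven
    rw [he] at hd2
    have := hd.unique hd2
    linarith
  have hkg : ∀ z, 0 ≤ z → |k z| ≤ 2 * A * (1 + z) := by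
    intro z hz
    have e1 := hA z
    have e2 := hA (-z)
    rw [abs_neg] at e2
    rw [abs_of_nonneg hz] at e1 e2
    calc |k z| ≤ |κ z| + |κ (-z)| := abs_add_le _ _
      _ ≤ _ := by linarith
  have hk1nn : ∀ z, 0 ≤ z → 0 ≤ deriv k z := by
    intro z hz
    rw [← hk10]
    exact hmono hz
  have hk1b : ∀ z, 0 ≤ z → deriv k z ≤ 6 * A := by
    intro z hz
    have hlt : z < 2 * z + 1 := by linarith
    have h := hkconv.deriv_le_slope (mem_univ z) (mem_univ (2 * z + 1)) hlt (hkdiff z)
    rw [slope_def_field] at h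
    have e1 := abs_le.mp (hkg z hz)
    have e2 := abs_le.mp (hkg (2 * z + 1) (by linarith))
    refine h.trans ?_
    rw [div_le_iff₀ (by linarith)]
    nlinarith
  have hEk : ∫ z : ℝ, κ z * E z = ∫ z in Ioi (0:ℝ), k z * J2 z := by
    rw [← intervalIntegral.integral_Iic_add_Ioi (b := (0:ℝ)) hint.integrableOn hint.integrableOn]
    have := integral_comp_neg_Ioi (0:ℝ) (fun z => κ z * E z)
    rw [neg_zero] at this
    rw [← this, ← integral_add]
    · refine setIntegral_congr_fun measurableSet_Ioi ?_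
      intro z hz
      simp only [hE, hk, hEJ z hz]
      ring
    · exact (hint.comp_neg).integrableOn
    · exact hint.integrableOn
  have hkint : IntegrableOn (fun z => k z * J2 z) (Ioi 0) := by
    have : IntegrableOn (fun z => κ (-z) * E (-z) + κ z * E z) (Ioi 0) := (hint.comp_neg).integrableOn.add hint.integrableOn
    refine this.congr_fun ?_ measurableSet_Ioi
    intro z hz
    simp only [hE, hk, hEJ z hz]
    ring
  rw [hEk]
  set P : ℝ → ℝ := fun y => k y * J1 y - deriv k y * J0 y with hP
  have hPd : ∀ y, 0 < y → HasDerivAt P (k y * J2 y - deriv (deriv k) y * J0 y) y := by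
    intro y hy
    have e1 := ((hkdiff y).hasDerivAt.mul (h1 y hy)).sub ((hk1diff y).hasDerivAt.mul (h0 y hy))
    refine e1.congr_deriv ?_
    ring
  have hstep : ∀ e R, 0 < e → e ≤ R → P R - P e ≤ ∫ z in e..R, k z * J2 z := by
    intro e R he hR
    apply intervalIntegral.sub_le_integral_of_hasDeriv_right_of_le hR (g' := fun y => k y * J2 y - deriv (deriv k) y * J0 y)
    · intro y hy
      exact (hPd y (he.trans_le hy.1)).continuousAt.continuousWithinAt
    · intro y hy
      exact (hPd y (he.trans hy.1)).hasDerivWithinAt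
    · refine hkint.mono_set ?_
      intro y hy
      exact he.trans_le hy.1
    · intro y hy
      have := mul_nonneg (hk2 y) (hpos y (he.trans hy.1))
      linarith
  have hPinf : Tendsto P atTop (𝓝 0) := by
    have a1 : Tendsto (fun y => k y * J1 y) atTop (𝓝 0) := by
      have b1 : Tendsto (fun y => |4 * A| * |y * J1 y|) atTop (𝓝 0) := by
        have := (l1.abs).const_mul |4 * A|
        simpa using this
      refine squeeze_zero_norm' ?_ b1
      filter_upwards [eventually_ge_atTop (1:ℝ)] with y hy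
      rw [Real.norm_eq_abs, abs_mul, abs_mul y, ← mul_assoc]
      refine mul_le_mul_of_nonneg_right ?_ (abs_nonneg _)
      have hA0 : 0 ≤ A := by
        have := (abs_nonneg _).trans (hA 0)
        simpa using this
      rw [abs_of_nonneg (by linarith : 0 ≤ 4 * A), abs_of_nonneg (by linarith : 0 ≤ y)]
      refine (hkg y (by linarith)).trans ?_
      nlinarith
    have a2 : Tendsto (fun y => deriv k y * J0 y) atTop (𝓝 0) := by
      have b1 : Tendsto (fun y => (6 * A) * |J0 y|) atTop (𝓝 0) := by
        have := (l0.abs).const_mul (6 * A)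
        simpa using this
      refine squeeze_zero_norm' ?_ b1
      filter_upwards [eventually_ge_atTop (1:ℝ)] with y hy
      rw [Real.norm_eq_abs, abs_mul]
      refine mul_le_mul_of_nonneg_right ?_ (abs_nonneg _)
      rw [abs_of_nonneg (hk1nn y (by linarith))]
      exact hk1b y (by linarith)
    have := a1.sub a2
    simpa using this
  have hP0 : Tendsto P (𝓝[>] 0) (𝓝 0) := by
    have c1 : Tendsto k (𝓝[>] 0) (𝓝 (k 0)) := hkcont.continuousAt.continuousWithinAt
    have c2 : Tendsto (deriv k) (𝓝[>] 0) (𝓝 (deriv k 0)) := hk1cont.continuousAt.continuousWithinAt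
    have := (c1.mul l2).sub (c2.mul hL)
    simpa [hk10] using this
  have hstep2 : ∀ e, 0 < e → - P e ≤ ∫ z in Ioi e, k z * J2 z := by
    intro e he
    have t1 : Tendsto (fun R => ∫ z in e..R, k z * J2 z) atTop (𝓝 (∫ z in Ioi e, k z * J2 z)) :=
      intervalIntegral_tendsto_integral_Ioi e (hkint.mono_set (Ioi_subset_Ioi he.le)) tendsto_id
    have t2 : Tendsto (fun R => P R - P e) atTop (𝓝 (0 - P e)) := hPinf.sub_const _
    have := le_of_tendsto_of_tendsto t2 t1 (by
      filter_upwards [eventually_ge_atTop e] with R hR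
      exact hstep e R he hR)
    linarith
  have t3 : Tendsto (fun e => ∫ z in Ioi e, k z * J2 z) (𝓝[>] (0:ℝ)) (𝓝 (∫ z in Ioi (0:ℝ), k z * J2 z)) := by
    have hc : AECover (volume.restrict (Ioi (0:ℝ))) (𝓝[>] (0:ℝ)) (fun i : ℝ => Ioi i) :=
      aecover_Ioi_of_Ioi (tendsto_id.mono_left nhdsWithin_le_nhds)
    have := hc.integral_tendsto_of_countably_generated hkint
    refine this.congr' ?_
    filter_upwards [self_mem_nhdsWithin] with e he
    rw [Measure.restrict_restrict measurableSet_Ioi]
    congr 2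
    exact inter_eq_self_of_subset_left (Ioi_subset_Ioi (le_of_lt he))
  have t4 : Tendsto (fun e => - P e) (𝓝[>] (0:ℝ)) (𝓝 0) := by
    have := hP0.neg
    simpa using this
  refine le_of_tendsto_of_tendsto t4 t3 ?_
  filter_upwards [self_mem_nhdsWithin] with e he
  exact hstep2 e he

end Pool.Agent.Helper115_ME.UU
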