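import Mathlib
import Pool.Agent.Helper115_ME.CC.C02
import Pool.Agent.Helper115_ME.Base
set_option autoImplicit false
/-!
Two facts on the surface measure of the unit sphere, seen through one coordinate.
-/
namespace Pool.Agent.Helper115_ME.UU

open MeasureTheory Metric Set

open Pool.Agent.Helper115_ME.C02 (TT TT_meas lam lam_pos lam_sq lam_meas Phi Phi_meas cc cc_ne_top
  nuu sphere_meas)

private lemma exists_perp {m : ℕ} {u : E (m + 2)} (hu : ‖u‖ = 1) :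
    ∃ w : E (m + 2), Orthonormal ℝ ![w, u] := by
  have hu0 : u ≠ 0 := by
    intro h
    rw [h, norm_zero] at hu
    norm_num at hu
  have hf : Fact (Module.finrank ℝ (E (m + 2)) = (m + 1) + 1) := ⟨finrank_euclideanSpace_fin⟩
  have h1 : Module.finrank ℝ (ℝ ∙ u)ᗮ = m + 1 := Submodule.finrank_orthogonal_span_singleton hu0
  have h2 : 0 < Module.finrank ℝ (ℝ ∙ u)ᗮ := by omega
  have h3 : Nontrivial (ℝ ∙ u)ᗮ := Module.finrank_pos_iff.mp h2
  obtain ⟨z, hz⟩ := exists_ne (0 : (ℝ ∙ u)ᗮ)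
  have hz0 : (z : E (m + 2)) ≠ 0 := by
    intro h
    exact hz (Subtype.ext h)
  have hperp : (inner ℝ u (z : E (m + 2)) : ℝ) = 0 :=
    Submodule.mem_orthogonal_singleton_iff_inner_right.mp z.2
  refine ⟨(‖(z : E (m + 2))‖)⁻¹ • (z : E (m + 2)), ?_⟩
  have hn : ‖(‖(z : E (m + 2))‖)⁻¹ • (z : E (m + 2))‖ = 1 := by
    rw [norm_smul, norm_inv, norm_norm, inv_mul_cancel₀ (norm_ne_zero_iff.mpr hz0)]
  have hi : (inner ℝ ((‖(z : E (m + 2))‖)⁻¹ • (z : E (m + 2))) u : ℝ) = 0 := by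
    rw [real_inner_comm, inner_smul_right, hperp, mul_zero]
  constructor
  · intro i
    fin_cases i
    · exact hn
    · exact hu
  · intro i j hij
    fin_cases i <;> fin_cases j
    · exact absurd rfl hij
    · exact hi
    · show (inner ℝ u _ : ℝ) = 0
      rw [real_inner_comm]
      exact hi
    · exact absurd rfl hij

private lemma sec_null (a : ℝ) {N : Set ℝ} (hN : volume N = 0) :
    volume {b : ℝ | b / √(1 + a ^ 2 + b ^ 2) ∈ N} = 0 := by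
  have hA : 0 < 1 + a ^ 2 := by positivity
  set φ : ℝ → ℝ := fun t => t * √(1 + a ^ 2) / √(1 - t ^ 2) with hφ
  have hd : DifferentiableOn ℝ φ (N ∩ Ioo (-1) 1) := by
    intro t ht
    have h1 : 0 < 1 - t ^ 2 := by nlinarith [ht.2.1, ht.2.2]
    apply DifferentiableAt.differentiableWithinAt
    apply DifferentiableAt.div
    · fun_prop
    · apply DifferentiableAt.sqrt
      · fun_prop
      · exact h1.ne'
    · exact (Real.sqrt_pos.mpr h1).ne'
  have h0 : volume (N ∩ Ioo (-1 : ℝ) 1) = 0 := measure_mono_null inter_subset_left hN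
  have h1 := addHaar_image_eq_zero_of_differentiableOn_of_addHaar_eq_zero volume hd h0
  refine measure_mono_null ?_ h1
  intro b hb
  have hl : 0 < 1 + a ^ 2 + b ^ 2 := by positivity
  have hlp : 0 < √(1 + a ^ 2 + b ^ 2) := Real.sqrt_pos.mpr hl
  have hsq : √(1 + a ^ 2 + b ^ 2) ^ 2 = 1 + a ^ 2 + b ^ 2 := Real.sq_sqrt hl.le
  have habs : |b| < √(1 + a ^ 2 + b ^ 2) := by
    apply Real.lt_sqrt_of_sq_lt
    rw [sq_abs]
    linarith
  have hb2 := abs_lt.mp habs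
  refine ⟨b / √(1 + a ^ 2 + b ^ 2), ⟨hb, ?_, ?_⟩, ?_⟩
  · rw [lt_div_iff₀ hlp]; linarith [hb2.1]
  · rw [div_lt_iff₀ hlp]; linarith [hb2.2]
  · show b / √(1 + a ^ 2 + b ^ 2) * √(1 + a ^ 2) / √(1 - (b / √(1 + a ^ 2 + b ^ 2)) ^ 2) = b
    have h2 : 1 - (b / √(1 + a ^ 2 + b ^ 2)) ^ 2 = (1 + a ^ 2) / √(1 + a ^ 2 + b ^ 2) ^ 2 := by
      rw [div_pow, hsq]
      field_simp
      ring
    rw [h2, Real.sqrt_div hA.le, Real.sqrt_sq hlp.le]
    have h3 : √(1 + a ^ 2) ≠ 0 := (Real.sqrt_pos.mpr hA).ne'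
    field_simp

theorem null_inner {n : ℕ} (hn : 3 ≤ n) {u : E n} (hu : ‖u‖ = 1) {N : Set ℝ} (hN : volume N = 0) :
    ((volume : Measure (E n)).toSphere) {v : Sph n | (inner ℝ u (v : E n) : ℝ) ∈ N} = 0 := by
  obtain ⟨m, rfl⟩ : ∃ m, n = m + 2 := ⟨n - 2, by omega⟩
  obtain ⟨w, hw⟩ := exists_perp hu
  obtain ⟨N', hNN', hN'm, hN'0⟩ := exists_measurable_superset_of_null hN
  set B : Set (ℝ × ℝ) := {q | q.2 ∈ N'} with hB
  have hBm : MeasurableSet B := measurable_snd hN'm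
  have h1 := sphere_meas m (by omega) w u hw hBm
  have h2 : nuu m B = 0 := by
    unfold nuu
    rw [lintegral_indicator (Phi_meas hBm)]
    apply setLIntegral_measure_zero
    rw [Measure.volume_eq_prod, Measure.measure_prod_null (Phi_meas hBm)]
    refine Filter.Eventually.of_forall fun a => ?_
    exact sec_null a hN'0
  rw [h2, mul_zero] at h1
  exact measure_mono_null (fun v hv => hNN' hv) h1

private lemma key_bound (a b : ℝ) {m : ℕ} (hm : 1 ≤ m) :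
    (lam (a, b) ^ (m + 2))⁻¹ * ((√(1 - (b / lam (a, b)) ^ 2)) ^ m)⁻¹ ≤
      (1 + ‖a‖ ^ 2) ^ (-(3 / 2 : ℝ) / 2) * (1 + ‖b‖ ^ 2) ^ (-(3 / 2 : ℝ) / 2) := by
  set l := lam (a, b) with hl
  have hlp : 0 < l := lam_pos (a, b)
  have hsq : l ^ 2 = 1 + a ^ 2 + b ^ 2 := lam_sq (a, b)
  have hA : 0 < 1 + a ^ 2 := by positivity
  have hB : 0 < 1 + b ^ 2 := by positivity
  rw [Real.norm_eq_abs, Real.norm_eq_abs, sq_abs, sq_abs]
  have h2 : 1 - (b / l) ^ 2 = (1 + a ^ 2) / l ^ 2 := by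
    rw [div_pow, eq_div_iff (by positivity), sub_mul, div_mul_cancel₀ _ (by positivity), hsq]
    ring
  have hsA : 0 < √(1 + a ^ 2) := Real.sqrt_pos.mpr hA
  have hsA1 : 1 ≤ √(1 + a ^ 2) := by
    rw [Real.one_le_sqrt]; nlinarith [sq_nonneg a]
  rw [h2, Real.sqrt_div hA.le, Real.sqrt_sq hlp.le]
  have h3 : (l ^ (m + 2))⁻¹ * ((√(1 + a ^ 2) / l) ^ m)⁻¹ = (l ^ 2 * √(1 + a ^ 2) ^ m)⁻¹ := by
    rw [div_pow, pow_add]
    field_simp
  rw [h3]
  have h4 : √(1 + a ^ 2) ≤ √(1 + a ^ 2) ^ m := by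
    calc √(1 + a ^ 2) = √(1 + a ^ 2) ^ 1 := (pow_one _).symm
      _ ≤ √(1 + a ^ 2) ^ m := pow_le_pow_right₀ hsA1 hm
  have h5 : (l ^ 2 * √(1 + a ^ 2) ^ m)⁻¹ ≤ (l ^ 2 * √(1 + a ^ 2))⁻¹ := by
    apply inv_anti₀ (by positivity)
    gcongr
  refine h5.trans ?_
  have e1 : (-(3 / 2 : ℝ) / 2) = -(3 / 4 : ℝ) := by norm_num
  rw [e1, Real.rpow_neg hA.le, Real.rpow_neg hB.le, ← mul_inv]
  apply inv_anti₀ (by positivity)
  have h6 : l ^ 2 = (l ^ 2) ^ (1 / 4 : ℝ) * (l ^ 2) ^ (3 / 4 : ℝ) := by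
    rw [← Real.rpow_add (by positivity)]
    norm_num
  have h7 : (1 + a ^ 2) ^ (3 / 4 : ℝ) = (1 + a ^ 2) ^ (1 / 4 : ℝ) * √(1 + a ^ 2) := by
    rw [Real.sqrt_eq_rpow, ← Real.rpow_add hA]
    norm_num
  have h8 : (1 + a ^ 2) ^ (1 / 4 : ℝ) ≤ (l ^ 2) ^ (1 / 4 : ℝ) := by
    apply Real.rpow_le_rpow hA.le _ (by norm_num)
    nlinarith [sq_nonneg b]
  have h9 : (1 + b ^ 2) ^ (3 / 4 : ℝ) ≤ (l ^ 2) ^ (3 / 4 : ℝ) := by
    apply Real.rpow_le_rpow hB.le _ (by norm_num)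
    nlinarith [sq_nonneg a]
  calc (1 + a ^ 2) ^ (3 / 4 : ℝ) * (1 + b ^ 2) ^ (3 / 4 : ℝ)
      = (1 + a ^ 2) ^ (1 / 4 : ℝ) * (1 + b ^ 2) ^ (3 / 4 : ℝ) * √(1 + a ^ 2) := by rw [h7]; ring
    _ ≤ (l ^ 2) ^ (1 / 4 : ℝ) * (l ^ 2) ^ (3 / 4 : ℝ) * √(1 + a ^ 2) := by gcongr
    _ = l ^ 2 * √(1 + a ^ 2) := by rw [← h6]

theorem integrable_pole {n : ℕ} (hn : 3 ≤ n) {u : E n} (hu : ‖u‖ = 1) :
    Integrable (fun v : Sph n => ((√(1 - (inner ℝ u (v : E n) : ℝ) ^ 2)) ^ (n - 2))⁻¹)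
      ((volume : Measure (E n)).toSphere) := by
  obtain ⟨m, rfl⟩ : ∃ m, n = m + 2 := ⟨n - 2, by omega⟩
  have hm : 1 ≤ m := by omega
  obtain ⟨w, hw⟩ := exists_perp hu
  have hct : (((m + 2 : ℕ) : ENNReal) * cc m) ≠ ⊤ :=
    ENNReal.mul_ne_top (ENNReal.natCast_ne_top _) (cc_ne_top m)
  let ν : Measure (ℝ × ℝ) :=
    ((volume : Measure (ℝ × ℝ)).withDensity
      (fun p => ENNReal.ofReal ((lam p ^ (m + 2))⁻¹))).map Phi
  have hden : Measurable fun p : ℝ × ℝ => ENNReal.ofReal ((lam p ^ (m + 2))⁻¹) :=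
    (lam_meas.pow_const _).inv.ennreal_ofReal
  have hν : (volume : Measure (E (m + 2))).toSphere.map (TT w u) =
      (((m + 2 : ℕ) : ENNReal) * cc m) • ν := by
    ext B hB
    rw [Measure.map_apply (TT_meas w u) hB, sphere_meas m hm w u hw hB, Measure.smul_apply,
      smul_eq_mul, Measure.map_apply Phi_meas hB, withDensity_apply _ (Phi_meas hB),
      ← lintegral_indicator (Phi_meas hB)]
    rfl
  set g : ℝ × ℝ → ℝ := fun q => ((√(1 - q.2 ^ 2)) ^ m)⁻¹ with hg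
  have hgm : Measurable g := by
    have : Measurable fun q : ℝ × ℝ => 1 - q.2 ^ 2 := by fun_prop
    exact (this.sqrt.pow_const m).inv
  have h1 : Integrable g ν := by
    rw [integrable_map_measure hgm.aestronglyMeasurable Phi_meas.aemeasurable,
      integrable_withDensity_iff_integrable_smul' hden
        (Filter.Eventually.of_forall fun p => ENNReal.ofReal_lt_top)]
    have h2 : Integrable (fun a : ℝ => (1 + ‖a‖ ^ 2) ^ (-(3 / 2 : ℝ) / 2)) volume :=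
      integrable_rpow_neg_one_add_norm_sq (by simp; norm_num)
    have h3 := h2.mul_prod h2
    rw [← Measure.volume_eq_prod] at h3
    refine h3.mono' ?_ ?_
    · exact (hden.ennreal_toReal.mul (hgm.comp Phi_meas)).aestronglyMeasurable
    · refine Filter.Eventually.of_forall fun p => ?_
      have hnn : 0 ≤ (lam p ^ (m + 2))⁻¹ := inv_nonneg.2 (pow_nonneg (lam_pos p).le _)
      have hgn : 0 ≤ g (Phi p) := by
        show 0 ≤ ((√(1 - (Phi p).2 ^ 2)) ^ m)⁻¹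
        positivity
      show ‖(ENNReal.ofReal ((lam p ^ (m + 2))⁻¹)).toReal • g (Phi p)‖ ≤ _
      rw [ENNReal.toReal_ofReal hnn, smul_eq_mul, Real.norm_of_nonneg (mul_nonneg hnn hgn)]
      exact key_bound p.1 p.2 hm
  have h2 : Integrable g ((volume : Measure (E (m + 2))).toSphere.map (TT w u)) := by
    rw [hν]
    exact h1.smul_measure hct
  have h3 := (integrable_map_measure hgm.aestronglyMeasurable
    (TT_meas w u).aemeasurable).mp h2
  exact h3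

end Pool.Agent.Helper115_ME.UU
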