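import Mathlib
set_option autoImplicit false
/-!
TARGET: smoothing of bounded antitone functions.
Proof in words. Let φ_j be the normalised bump functions (ContDiffBump (0:ℝ) with rIn = 1/(2(j+1)), rOut = 1/(j+1), `ContDiffBump.normed`) and G_j(x) = ∫ φ_j(s) γ(x - s) ds = (φ_j ⋆ γ)(x)
(γ antitone, so measurable, bounded, locally integrable). G_j is C^∞ (HasCompactSupport.contDiff_convolution_left or similar), antitone because φ_j ≥ 0 and s ↦ γ(x-s) is pointwise antitone in x,
|G_j| ≤ C because ∫ φ_j = 1, and G_j(x) → γ(x) at continuity points of γ because φ_j is supported in [-1/(j+1), 1/(j+1)]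
(e.g. ContDiffBump.convolution_tendsto_right, or directly: |G_j(x) - γ(x)| ≤ sup_{|s| ≤ 1/(j+1)} |γ(x-s) - γ(x)|).
-/
namespace Pool.Agent.Helper115_ME.UU

open MeasureTheory Set Filter Topology
open scoped ContDiff

/-- the bump functions -/
noncomputable def bmp (j : ℕ) : ContDiffBump (0 : ℝ) where
  rIn := 1 / (2 * ((j : ℝ) + 1))
  rOut := 1 / ((j : ℝ) + 1)
  rIn_pos := by positivity
  rIn_lt_rOut := by
    have : (0:ℝ) < (j : ℝ) + 1 := by positivity
    rw [one_div_lt_one_div (by positivity) this]
    linarith

theorem exists_smooth_antitone (γ : ℝ → ℝ) (hγ : Antitone γ) (C : ℝ) (hC : ∀ x, |γ x| ≤ C) :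
    ∃ G : ℕ → ℝ → ℝ, (∀ j, ContDiff ℝ ∞ (G j)) ∧ (∀ j, Antitone (G j)) ∧ (∀ j x, |G j x| ≤ C) ∧
      ∀ x, ContinuousAt γ x → Tendsto (fun j => G j x) atTop (𝓝 (γ x)) := by
  have hm : Measurable γ := hγ.measurable
  have hint : ∀ (j : ℕ) (x : ℝ), Integrable (fun t => (bmp j).normed volume t * γ (x - t)) := by
    intro j x
    refine Integrable.mul_bdd (c := C) (bmp j).integrable_normed
      (hm.comp (measurable_const.sub measurable_id)).aestronglyMeasurable
      (Eventually.of_forall fun t => ?_)
    simpa [Real.norm_eq_abs] using hC (x - t)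
  refine ⟨fun j => MeasureTheory.convolution ((bmp j).normed volume) γ (ContinuousLinearMap.lsmul ℝ ℝ) volume,
    fun j => ?_, fun j => ?_, fun j x => ?_, fun x hx => ?_⟩
  · have hloc : LocallyIntegrable γ volume := by
      refine (hγ.locallyIntegrable)
    exact HasCompactSupport.contDiff_convolution_left (n := (⊤ : ℕ∞)) _ (bmp j).hasCompactSupport_normed
      (bmp j).contDiff_normed hloc
  · intro x y hxy
    simp only [MeasureTheory.convolution, ContinuousLinearMap.lsmul_apply, smul_eq_mul]
    refine integral_mono (hint j y) (hint j x) fun t => ?_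
    exact mul_le_mul_of_nonneg_left (hγ (by linarith)) ((bmp j).nonneg_normed t)
  · simp only [MeasureTheory.convolution, ContinuousLinearMap.lsmul_apply, smul_eq_mul]
    have h1 := norm_integral_le_of_norm_le (f := fun t => (bmp j).normed volume t * γ (x - t))
      (((bmp j).integrable_normed (μ := volume)).mul_const C) (Eventually.of_forall fun t => by
        rw [norm_mul, Real.norm_eq_abs, Real.norm_eq_abs, abs_of_nonneg ((bmp j).nonneg_normed t)]
        exact mul_le_mul_of_nonneg_left (hC _) ((bmp j).nonneg_normed t))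
    rw [integral_mul_const, (bmp j).integral_normed, one_mul, Real.norm_eq_abs] at h1
    exact h1
  · refine ContDiffBump.convolution_tendsto_right (φ := bmp) (g := fun _ => γ) (k := fun _ => x) ?_
      (Eventually.of_forall fun _ => hm.aestronglyMeasurable) ?_ tendsto_const_nhds
    · exact tendsto_one_div_add_atTop_nhds_zero_nat
    · exact hx.tendsto.comp tendsto_snd

end Pool.Agent.Helper115_ME.UU
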