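import Mathlib
import Pool.Agent.Helper115_ME.UU.Defs
set_option autoImplicit false
/-!
TARGET: facts on Λ(τ) = ∫_0^1 f(τ s) s² om(τ s) ds, f = g - t g'.
Proof in words. (bounded) |f| ≤ M on [-1,1]; for |τ| < 1, n ≥ 4: om ≤ 1, |Λ| ≤ M. n = 3: om(τ s) = (1-τ²s²)^(-1/2) ≤ (1-s²)^(-1/2), integrable on (0,1): |Λ| ≤ M ∫_0^1 (1-s²)^(-1/2) ds = M π/2.
(uniformly: om n t ≤ (1-t²)^(-1/2) for |t| < 1 and n ≥ 3.)
(continuous) on (-1,1): (τ,s) ↦ f(τ s) s² om(τ s) is continuous on (-1,1) × [0,1] (intervalIntegral.continuousOn... / continuous_parametric with a dominated bound on |τ| ≤ r < 1).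
(nonneg) f is even (g even, so g' odd), so Λ is even: take τ ∈ [0,1). τ = 0: Λ(0) = f(0)/3 = g(0)/3 ≥ 0, since g(0) ≥ g on [0,1] and ∫_0^1 g t² om = 0 force g(0) ≥ 0. τ > 0: τ³ Λ(τ) = ∫_0^τ f(r) r² om(r) dr
(substitution) ≥ ∫_0^τ g(r) r² om(r) dr (as -r g'(r) ≥ 0) ≥ 0: if g(τ) ≥ 0 then g ≥ 0 on [0,τ]; if g(τ) < 0 then ∫_0^τ = -∫_τ^1 g r² om ≥ 0 as g ≤ g(τ) < 0 on [τ,1]. (om is integrable on [0,1], n ≥ 3.)
-/
namespace Pool.Agent.Helper115_ME.UU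

open MeasureTheory Set Filter Topology

noncomputable section

theorem Lam_ff_cont (g : ℝ → ℝ) (hg : ContDiff ℝ 2 g) : Continuous (ff g) := by
  unfold ff
  exact hg.continuous.sub (continuous_id.mul (hg.continuous_deriv (by norm_num)))

theorem Lam_om_meas (n : ℕ) : Measurable (om n) := by
  unfold om
  fun_prop

theorem Lam_om_nonneg (n : ℕ) {t : ℝ} (ht : |t| ≤ 1) : 0 ≤ om n t := by
  unfold om
  apply Real.rpow_nonneg
  nlinarith [sq_abs t, abs_nonneg t]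

theorem Lam_om_bound {n : ℕ} (hn : 3 ≤ n) {τ s : ℝ} (hτ : |τ| ≤ 1) (hs0 : 0 ≤ s) (hs1 : s < 1) :
    |om n (τ * s)| ≤ (1 - s) ^ (-(1 / 2) : ℝ) := by
  have hn' : (3 : ℝ) ≤ n := by exact_mod_cast hn
  have h1 : τ ^ 2 ≤ 1 := by
    rw [← sq_abs]; nlinarith [abs_nonneg τ]
  have h2 : (τ * s) ^ 2 ≤ s ^ 2 := by
    rw [mul_pow]; nlinarith [sq_nonneg s]
  have h3 : s ^ 2 ≤ s := by nlinarith
  have h4 : 1 - s ≤ 1 - (τ * s) ^ 2 := by linarith
  have h5 : 0 < 1 - s := by linarith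
  have h6 : 0 < 1 - (τ * s) ^ 2 := by linarith
  have h7 : 1 - (τ * s) ^ 2 ≤ 1 := by nlinarith [sq_nonneg (τ * s)]
  unfold om
  rw [abs_of_nonneg (Real.rpow_nonneg h6.le _)]
  calc (1 - (τ * s) ^ 2) ^ (((n : ℝ) - 4) / 2) ≤ (1 - (τ * s) ^ 2) ^ (-(1 / 2) : ℝ) :=
        Real.rpow_le_rpow_of_exponent_ge h6 h7 (by linarith)
    _ ≤ (1 - s) ^ (-(1 / 2) : ℝ) := Real.rpow_le_rpow_of_nonpos h5 h4 (by norm_num)

theorem Lam_bd_int (M : ℝ) :
    IntervalIntegrable (fun s : ℝ => M * (1 - s) ^ (-(1 / 2) : ℝ)) volume 0 1 := by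
  have h1 : IntervalIntegrable (fun s : ℝ => s ^ (-(1 / 2) : ℝ)) volume 0 1 :=
    intervalIntegral.intervalIntegrable_rpow' (by norm_num)
  have h2 := (h1.comp_sub_left 1).symm
  simp only [sub_zero, sub_self] at h2
  exact h2.const_mul M

theorem Lam_cont_bdd {φ : ℝ → ℝ} (hφ : Continuous φ) : ∃ M : ℝ, 0 ≤ M ∧ ∀ t, |t| ≤ 1 → |φ t| ≤ M := by
  obtain ⟨M, hM⟩ := (isCompact_Icc (a := (-1 : ℝ)) (b := 1)).exists_bound_of_continuousOn
    hφ.continuousOn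
  exact ⟨max M 0, le_max_right _ _, fun t ht => (hM t (abs_le.mp ht)).trans (le_max_left _ _)⟩

theorem Lam_pt {n : ℕ} (hn : 3 ≤ n) {φ : ℝ → ℝ} {M : ℝ} (hM0 : 0 ≤ M)
    (hM : ∀ t, |t| ≤ 1 → |φ t| ≤ M) {τ s : ℝ} (hτ : |τ| ≤ 1) (hs0 : 0 ≤ s) (hs1 : s < 1) :
    ‖φ (τ * s) * s ^ 2 * om n (τ * s)‖ ≤ M * (1 - s) ^ (-(1 / 2) : ℝ) := by
  have h1 : |τ * s| ≤ 1 := by
    rw [abs_mul, abs_of_nonneg hs0]
    nlinarith [abs_nonneg τ]
  have h2 : |s ^ 2| ≤ 1 := by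
    rw [abs_of_nonneg (sq_nonneg s)]; nlinarith
  rw [Real.norm_eq_abs, abs_mul, abs_mul]
  calc |φ (τ * s)| * |s ^ 2| * |om n (τ * s)| ≤ M * 1 * (1 - s) ^ (-(1 / 2) : ℝ) := by
        gcongr
        · exact hM _ h1
        · exact Lam_om_bound hn hτ hs0 hs1
    _ = _ := by ring

theorem Lam_meas {φ : ℝ → ℝ} (hφ : Continuous φ) (n : ℕ) (τ : ℝ) :
    Measurable (fun s => φ (τ * s) * s ^ 2 * om n (τ * s)) := by
  have h1 : Measurable (fun s : ℝ => φ (τ * s)) := hφ.measurable.comp (measurable_id.const_mul τ)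
  have h2 : Measurable (fun s : ℝ => om n (τ * s)) := (Lam_om_meas n).comp (measurable_id.const_mul τ)
  exact (h1.mul (measurable_id.pow_const 2)).mul h2

theorem Lam_ae (P : ℝ → Prop) (h : ∀ s, 0 ≤ s → s < 1 → P s) :
    ∀ᵐ s : ℝ, s ∈ Ioc (0 : ℝ) 1 → P s := by
  have h1 : ∀ᵐ s : ℝ, s ≠ 1 := Measure.ae_ne volume 1
  filter_upwards [h1] with s hs hs2
  exact h s hs2.1.le (lt_of_le_of_ne hs2.2 hs)

theorem Lam_int {n : ℕ} (hn : 3 ≤ n) {φ : ℝ → ℝ} (hφ : Continuous φ) {τ : ℝ} (hτ : |τ| ≤ 1) :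
    IntervalIntegrable (fun s => φ (τ * s) * s ^ 2 * om n (τ * s)) volume 0 1 := by
  obtain ⟨M, hM0, hM⟩ := Lam_cont_bdd hφ
  refine (Lam_bd_int M).mono_fun' (Lam_meas hφ n τ).aestronglyMeasurable ?_
  rw [uIoc_of_le zero_le_one]
  show ∀ᵐ s ∂(volume.restrict (Ioc 0 1)), _
  rw [ae_restrict_iff' measurableSet_Ioc]
  exact Lam_ae _ fun s hs0 hs1 => Lam_pt hn hM0 hM hτ hs0 hs1

theorem Lam_bounded {n : ℕ} (hn : 3 ≤ n) (g : ℝ → ℝ) (hg : ContDiff ℝ 2 g) :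
    ∃ C : ℝ, ∀ τ ∈ Ioo (-1 : ℝ) 1, |Lam n g τ| ≤ C := by
  obtain ⟨M, hM0, hM⟩ := Lam_cont_bdd (Lam_ff_cont g hg)
  refine ⟨∫ s in (0 : ℝ)..1, M * (1 - s) ^ (-(1 / 2) : ℝ), ?_⟩
  intro τ hτ
  have hτ' : |τ| ≤ 1 := abs_le.mpr ⟨hτ.1.le, hτ.2.le⟩
  unfold Lam
  rw [← Real.norm_eq_abs]
  exact intervalIntegral.norm_integral_le_of_norm_le zero_le_one
    (Lam_ae _ fun s hs0 hs1 => Lam_pt hn hM0 hM hτ' hs0 hs1) (Lam_bd_int M)

theorem Lam_continuousOn {n : ℕ} (hn : 3 ≤ n) (g : ℝ → ℝ) (hg : ContDiff ℝ 2 g) :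
    ContinuousOn (Lam n g) (Ioo (-1) 1) := by
  obtain ⟨M, hM0, hM⟩ := Lam_cont_bdd (Lam_ff_cont g hg)
  intro τ₀ hτ₀
  apply ContinuousAt.continuousWithinAt
  unfold Lam
  have hnb : ∀ᶠ τ in 𝓝 τ₀, τ ∈ Ioo (-1 : ℝ) 1 := isOpen_Ioo.mem_nhds hτ₀
  refine intervalIntegral.continuousAt_of_dominated_interval
    (bound := fun s => M * (1 - s) ^ (-(1 / 2) : ℝ)) ?_ ?_ (Lam_bd_int M) ?_
  · exact Eventually.of_forall fun τ => (Lam_meas (Lam_ff_cont g hg) n τ).aestronglyMeasurable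
  · filter_upwards [hnb] with τ hτ
    rw [uIoc_of_le zero_le_one]
    exact Lam_ae _ fun s hs0 hs1 => Lam_pt hn hM0 hM (abs_le.mpr ⟨hτ.1.le, hτ.2.le⟩) hs0 hs1
  · rw [uIoc_of_le zero_le_one]
    refine Lam_ae _ fun s hs0 hs1 => ?_
    have h1 : ContinuousAt (fun τ : ℝ => om n (τ * s)) τ₀ := by
      unfold om
      refine ContinuousAt.rpow_const (by fun_prop) (Or.inl ?_)
      have h2 : (τ₀ * s) ^ 2 < 1 := by
        rw [sq_lt_one_iff_abs_lt_one, abs_mul, abs_of_nonneg hs0]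
        have h3 : |τ₀| < 1 := abs_lt.mpr hτ₀
        nlinarith [abs_nonneg τ₀]
      linarith
    have h2 : ContinuousAt (fun τ : ℝ => ff g (τ * s)) τ₀ :=
      ((Lam_ff_cont g hg).comp (continuous_id.mul continuous_const)).continuousAt
    exact (h2.mul continuousAt_const).mul h1

theorem Lam_nonneg {n : ℕ} (hn : 3 ≤ n) (g : ℝ → ℝ) (hg : ContDiff ℝ 2 g) (heven : ∀ t, g (-t) = g t)
    (hmono : ∀ t ∈ Icc (0 : ℝ) 1, deriv g t ≤ 0) (hW : ∫ t in (0 : ℝ)..1, g t * t ^ 2 * om n t = 0) :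
    ∀ τ ∈ Ioo (-1 : ℝ) 1, 0 ≤ Lam n g τ := by
  have hcont := Lam_continuousOn hn g hg
  have hanti : AntitoneOn g (Icc 0 1) := by
    refine antitoneOn_of_deriv_nonpos (convex_Icc 0 1) hg.continuous.continuousOn
      (hg.differentiable (by norm_num)).differentiableOn ?_
    intro t ht
    exact hmono t (interior_subset ht)
  have hdeven : ∀ t, deriv g (-t) = - deriv g t := by
    intro t
    have h1 : deriv (fun x => g (-x)) t = -deriv g (-t) := deriv_comp_neg g t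
    have h2 : (fun x => g (-x)) = g := funext heven
    rw [h2] at h1
    rw [h1, neg_neg]
  have hfe : ∀ t, ff g (-t) = ff g t := by
    intro t
    unfold ff
    rw [heven, hdeven]; ring
  have hoe : ∀ t, om n (-t) = om n t := by
    intro t; unfold om; rw [neg_sq]
  have hLe : ∀ τ, Lam n g (-τ) = Lam n g τ := by
    intro τ
    unfold Lam
    apply intervalIntegral.integral_congr
    intro s _
    show ff g (-τ * s) * s ^ 2 * om n (-τ * s) = ff g (τ * s) * s ^ 2 * om n (τ * s)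
    rw [neg_mul, hfe, hoe]
  have hWint : IntervalIntegrable (fun t => g t * t ^ 2 * om n t) volume 0 1 := by
    have := Lam_int hn hg.continuous (τ := 1) (by simp)
    simpa using this
  have hGint : IntervalIntegrable (fun t => ff g t * t ^ 2 * om n t) volume 0 1 := by
    have := Lam_int hn (Lam_ff_cont g hg) (τ := 1) (by simp)
    simpa using this
  have hpos : ∀ τ ∈ Ioo (0 : ℝ) 1, 0 ≤ Lam n g τ := by
    intro τ hτ
    have hsub1 : uIcc (0 : ℝ) τ ⊆ uIcc (0 : ℝ) 1 := by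
      rw [uIcc_of_le hτ.1.le, uIcc_of_le zero_le_one]
      exact Icc_subset_Icc le_rfl hτ.2.le
    have hsub2 : uIcc τ 1 ⊆ uIcc (0 : ℝ) 1 := by
      rw [uIcc_of_le hτ.2.le, uIcc_of_le zero_le_one]
      exact Icc_subset_Icc hτ.1.le le_rfl
    have hW1 := hWint.mono_set hsub1
    have hW2 := hWint.mono_set hsub2
    have hG1 := hGint.mono_set hsub1
    have homnn : ∀ r ∈ Icc (0 : ℝ) 1, 0 ≤ om n r := fun r hr =>
      Lam_om_nonneg n (abs_le.mpr ⟨by linarith [hr.1], hr.2⟩)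
    have h1 : τ ^ 3 * Lam n g τ = ∫ r in (0 : ℝ)..τ, ff g r * r ^ 2 * om n r := by
      have h2 := intervalIntegral.integral_comp_mul_left (fun r => ff g r * r ^ 2 * om n r)
        (ne_of_gt hτ.1) (a := 0) (b := 1)
      rw [mul_zero, mul_one, smul_eq_mul] at h2
      have h3 : ∫ x in (0 : ℝ)..1, ff g (τ * x) * (τ * x) ^ 2 * om n (τ * x) = τ ^ 2 * Lam n g τ := by
        unfold Lam
        rw [← intervalIntegral.integral_const_mul]
        apply intervalIntegral.integral_congr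
        intro x _
        show ff g (τ * x) * (τ * x) ^ 2 * om n (τ * x) = τ ^ 2 * (ff g (τ * x) * x ^ 2 * om n (τ * x))
        ring
      rw [h3] at h2
      have h4 : τ ^ 3 * Lam n g τ = τ * (τ ^ 2 * Lam n g τ) := by ring
      rw [h4, h2, ← mul_assoc, mul_inv_cancel₀ (ne_of_gt hτ.1), one_mul]
    have h2 : ∫ r in (0 : ℝ)..τ, g r * r ^ 2 * om n r ≤ ∫ r in (0 : ℝ)..τ, ff g r * r ^ 2 * om n r := by
      refine intervalIntegral.integral_mono_on hτ.1.le hW1 hG1 fun r hr => ?_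
      have hr' : r ∈ Icc (0 : ℝ) 1 := ⟨hr.1, hr.2.trans hτ.2.le⟩
      have h3 : g r ≤ ff g r := by
        unfold ff
        nlinarith [hmono r hr', hr.1]
      have h4 := homnn r hr'
      gcongr
    have h3 : 0 ≤ ∫ r in (0 : ℝ)..τ, g r * r ^ 2 * om n r := by
      by_cases hgτ : 0 ≤ g τ
      · refine intervalIntegral.integral_nonneg hτ.1.le fun r hr => ?_
        have hr' : r ∈ Icc (0 : ℝ) 1 := ⟨hr.1, hr.2.trans hτ.2.le⟩
        have h4 := hanti hr' ⟨hτ.1.le, hτ.2.le⟩ hr.2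
        exact mul_nonneg (mul_nonneg (hgτ.trans h4) (sq_nonneg r)) (homnn r hr')
      · push Not at hgτ
        have h4 := intervalIntegral.integral_add_adjacent_intervals hW1 hW2
        rw [hW] at h4
        have h5 : 0 ≤ ∫ r in τ..1, -(g r * r ^ 2 * om n r) := by
          refine intervalIntegral.integral_nonneg hτ.2.le fun r hr => ?_
          have hr' : r ∈ Icc (0 : ℝ) 1 := ⟨hτ.1.le.trans hr.1, hr.2⟩
          have h6 := hanti ⟨hτ.1.le, hτ.2.le⟩ hr' hr.1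
          have h7 : 0 ≤ -(g r) := by linarith
          have h8 := mul_nonneg (mul_nonneg h7 (sq_nonneg r)) (homnn r hr')
          linarith
        rw [intervalIntegral.integral_neg] at h5
        linarith
    have h4 : 0 ≤ τ ^ 3 * Lam n g τ := by rw [h1]; linarith
    have h5 : 0 < τ ^ 3 := pow_pos hτ.1 3
    exact nonneg_of_mul_nonneg_right h4 h5
  intro τ hτ
  rcases lt_trichotomy τ 0 with h | h | h
  · rw [← hLe]
    exact hpos (-τ) ⟨by linarith, by linarith [hτ.1]⟩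
  · subst h
    have h1 : Tendsto (Lam n g) (𝓝[>] 0) (𝓝 (Lam n g 0)) :=
      ((hcont 0 ⟨by norm_num, by norm_num⟩).continuousAt
        (isOpen_Ioo.mem_nhds ⟨by norm_num, by norm_num⟩)).tendsto.mono_left nhdsWithin_le_nhds
    refine ge_of_tendsto h1 ?_
    filter_upwards [Ioo_mem_nhdsGT (show (0 : ℝ) < 1 by norm_num)] with t ht
    exact hpos t ht
  · exact hpos τ ⟨h, hτ.2⟩

end

end Pool.Agent.Helper115_ME.UU
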