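import Mathlib
import Pool.Agent.Helper115_ME.CC.C02
import Pool.Agent.Helper115_ME.Base
set_option autoImplicit false

namespace Pool.Agent.Helper115_ME.UU

open MeasureTheory Metric Set Filter Topology

theorem two_coord {n : ℕ} (hn : 3 ≤ n) : ∃ c : ℝ, 0 < c ∧ ∀ u w : E n, Orthonormal ℝ ![u, w] →
    ∀ F : ℝ → ℝ → ℝ, Measurable (Function.uncurry F) → (∃ C, ∀ a b, |F a b| ≤ C) →
    ∫ v : Sph n, F (inner ℝ u (v : E n)) (inner ℝ w (v : E n)) ∂((volume : Measure (E n)).toSphere) =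
      c * ∫ p : ℝ × ℝ, F (p.1 / √(1 + p.1 ^ 2 + p.2 ^ 2)) (p.2 / √(1 + p.1 ^ 2 + p.2 ^ 2)) *
        ((√(1 + p.1 ^ 2 + p.2 ^ 2)) ^ n)⁻¹ := by
  exact Pool.Agent.Helper115_ME.C02.two_coord hn

open Classical in
/-- `g` on `[-1, 1]`, zero elsewhere -/
noncomputable def gg (g : ℝ → ℝ) : ℝ → ℝ := fun t =>
  if t = 1 then g 1 else if t = -1 then g (-1) else (Ioo (-1 : ℝ) 1).indicator g t

theorem gg_eq (g : ℝ → ℝ) {t : ℝ} (ht : t ∈ Icc (-1 : ℝ) 1) : gg g t = g t := by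
  unfold gg
  split_ifs with h1 h2
  · rw [h1]
  · rw [h2]
  · exact indicator_of_mem (show t ∈ Ioo (-1 : ℝ) 1 from
      ⟨lt_of_le_of_ne ht.1 (Ne.symm h2), lt_of_le_of_ne ht.2 h1⟩) g

theorem gg_eq_zero (g : ℝ → ℝ) {t : ℝ} (ht : t ∉ Icc (-1 : ℝ) 1) : gg g t = 0 := by
  unfold gg
  split_ifs with h1 h2
  · exact absurd (by rw [h1]; constructor <;> norm_num) ht
  · exact absurd (by rw [h2]; constructor <;> norm_num) ht
  · exact indicator_of_notMem (fun h => ht ⟨h.1.le, h.2.le⟩) g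

theorem measurable_gg {g : ℝ → ℝ} (hgm : Measurable g) : Measurable (gg g) := by
  unfold gg
  refine Measurable.ite (measurableSet_eq) measurable_const
    (Measurable.ite (measurableSet_eq) measurable_const ?_)
  exact hgm.indicator measurableSet_Ioo

theorem gg_bdd {g : ℝ → ℝ} {C : ℝ} (hC0 : 0 ≤ C) (hC : ∀ t ∈ Icc (-1 : ℝ) 1, |g t| ≤ C) (t : ℝ) :
    |gg g t| ≤ C := by
  by_cases ht : t ∈ Icc (-1 : ℝ) 1
  · rw [gg_eq g ht]
    exact hC t ht
  · rw [gg_eq_zero g ht, abs_zero]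
    exact hC0

/-- the radius -/
noncomputable def rho (z : ℝ) (p : ℝ × ℝ) : ℝ := √(1 + p.1 ^ 2 + (z * p.2) ^ 2)

theorem rho_pos (z : ℝ) (p : ℝ × ℝ) : 0 < rho z p := Real.sqrt_pos.2 (by positivity)

theorem rho_sq (z : ℝ) (p : ℝ × ℝ) : rho z p ^ 2 = 1 + p.1 ^ 2 + (z * p.2) ^ 2 :=
  Real.sq_sqrt (by positivity)

theorem measurable_rho (z : ℝ) : Measurable (rho z) := by
  unfold rho
  fun_prop

/-- the integrand -/
noncomputable def KK (n : ℕ) (g : ℝ → ℝ) (z : ℝ) (p : ℝ × ℝ) : ℝ :=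
  max (|p.1| - |p.2|) 0 * gg g (p.1 / rho z p) * ((rho z p) ^ (n + 1))⁻¹

theorem measurable_KK (n : ℕ) {g : ℝ → ℝ} (hgm : Measurable g) (z : ℝ) :
    Measurable (KK n g z) := by
  have h1 := measurable_gg hgm
  have h2 := measurable_rho z
  unfold KK
  exact ((((measurable_fst.abs.sub measurable_snd.abs).max measurable_const).mul
    (h1.comp (measurable_fst.div h2)))).mul ((h2.pow_const _).inv)

theorem scaling {z : ℝ} (hz : 0 < z) (H : ℝ × ℝ → ℝ) :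
    ∫ p : ℝ × ℝ, H (p.1, z * p.2) = z⁻¹ * ∫ p : ℝ × ℝ, H p := by
  have h1 : MeasurableEmbedding (Prod.map (id : ℝ → ℝ) (fun s : ℝ => z * s)) :=
    MeasurableEmbedding.id.prodMap (measurableEmbedding_mulLeft₀ hz.ne')
  have h2 : Measure.map (Prod.map (id : ℝ → ℝ) (fun s : ℝ => z * s)) (volume : Measure (ℝ × ℝ)) =
      ENNReal.ofReal |z⁻¹| • (volume : Measure (ℝ × ℝ)) := by
    rw [Measure.volume_eq_prod, ← Measure.map_prod_map _ _ measurable_id (measurable_const_mul z),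
      Measure.map_id, Real.map_volume_mul_left hz.ne', Measure.prod_smul_right]
  have h3 := h1.integral_map (μ := (volume : Measure (ℝ × ℝ))) H
  rw [h2, integral_smul_measure] at h3
  rw [ENNReal.toReal_ofReal (abs_nonneg _), abs_of_pos (inv_pos.2 hz), smul_eq_mul] at h3
  rw [h3]
  rfl

theorem KK_nonneg {n : ℕ} (hn : 3 ≤ n) (g : ℝ → ℝ) (hgb : ∃ C, ∀ t ∈ Icc (-1 : ℝ) 1, |g t| ≤ C)
    (hgm : Measurable g) (u w : E n) (huw : Orthonormal ℝ ![u, w]) {z : ℝ}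
    (hz : 0 < z)
    (hpos : 0 ≤ ∫ v : Sph n, max (z * |inner ℝ u (v : E n)| - |inner ℝ w (v : E n)|) 0 *
      g (inner ℝ u (v : E n)) ∂((volume : Measure (E n)).toSphere)) :
    0 ≤ ∫ p, KK n g z p := by
  obtain ⟨C, hC⟩ := hgb
  have hC0 : 0 ≤ C := (abs_nonneg _).trans (hC 0 (by constructor <;> norm_num))
  obtain ⟨c, hc, h2c⟩ := two_coord hn
  have hu : ‖u‖ = 1 := huw.1 0
  have hmF : Measurable (Function.uncurry fun a b : ℝ => max (z * |a| - |b|) 0 * gg g a) := by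
    have h1 := measurable_gg hgm
    exact ((((measurable_fst.abs).const_mul z).sub measurable_snd.abs).max measurable_const).mul
      (h1.comp measurable_fst)
  have h1 := h2c u w huw (fun a b => max (z * |a| - |b|) 0 * gg g a) hmF (by
    refine ⟨z * C, fun a b => ?_⟩
    by_cases ha : a ∈ Icc (-1 : ℝ) 1
    · rw [abs_mul, abs_of_nonneg (le_max_right _ _)]
      refine mul_le_mul ?_ (gg_bdd hC0 hC a) (abs_nonneg _) hz.le
      have h3 : |a| ≤ 1 := abs_le.2 ha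
      refine max_le ?_ hz.le
      nlinarith [abs_nonneg b]
    · rw [gg_eq_zero g ha, mul_zero, abs_zero]
      positivity)
  have h2 : ∫ v : Sph n, max (z * |inner ℝ u (v : E n)| - |inner ℝ w (v : E n)|) 0 *
      gg g (inner ℝ u (v : E n)) ∂((volume : Measure (E n)).toSphere) =
      ∫ v : Sph n, max (z * |inner ℝ u (v : E n)| - |inner ℝ w (v : E n)|) 0 *
      g (inner ℝ u (v : E n)) ∂((volume : Measure (E n)).toSphere) := by
    refine integral_congr_ae (Eventually.of_forall fun v => ?_)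
    dsimp only
    rw [gg_eq]
    have h3 : |inner ℝ u (v : E n)| ≤ 1 := by
      refine (abs_real_inner_le_norm _ _).trans ?_
      rw [hu, norm_eq_of_mem_sphere, one_mul]
    exact abs_le.1 h3
  rw [h2] at h1
  rw [h1] at hpos
  have h3 := nonneg_of_mul_nonneg_right hpos hc
  have h4 := scaling hz (fun p : ℝ × ℝ => max (z * |p.1 / √(1 + p.1 ^ 2 + p.2 ^ 2)| -
    |p.2 / √(1 + p.1 ^ 2 + p.2 ^ 2)|) 0 * gg g (p.1 / √(1 + p.1 ^ 2 + p.2 ^ 2)) *
        ((√(1 + p.1 ^ 2 + p.2 ^ 2)) ^ n)⁻¹)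
  have h5 : ∀ p : ℝ × ℝ, max (z * |p.1 / √(1 + p.1 ^ 2 + (z * p.2) ^ 2)| -
    |z * p.2 / √(1 + p.1 ^ 2 + (z * p.2) ^ 2)|) 0 * gg g (p.1 / √(1 + p.1 ^ 2 + (z * p.2) ^ 2)) *
        ((√(1 + p.1 ^ 2 + (z * p.2) ^ 2)) ^ n)⁻¹ = z * KK n g z p := by
    intro p
    have h6 := rho_pos z p
    change max (z * |p.1 / rho z p| - |z * p.2 / rho z p|) 0 * gg g (p.1 / rho z p) *
      ((rho z p) ^ n)⁻¹ = z * KK n g z p
    rw [KK, abs_div, abs_div, abs_mul, abs_of_pos hz, abs_of_pos h6]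
    have h7 : max (z * (|p.1| / rho z p) - z * |p.2| / rho z p) 0 =
        z / rho z p * max (|p.1| - |p.2|) 0 := by
      rw [mul_max_of_nonneg _ _ (by positivity), mul_zero]
      congr 1
      field_simp
    rw [h7, pow_succ]
    field_simp
  simp only [h5] at h4
  rw [integral_const_mul] at h4
  have h8 : 0 ≤ z * ∫ p, KK n g z p := by
    rw [h4]
    exact mul_nonneg (inv_pos.2 hz).le h3
  exact nonneg_of_mul_nonneg_right h8 hz

theorem rho_ge (z : ℝ) (p : ℝ × ℝ) : √(1 + p.1 ^ 2) ≤ rho z p :=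
  Real.sqrt_le_sqrt (by nlinarith [sq_nonneg (z * p.2)])

/-- the dominating function -/
noncomputable def bnd (n : ℕ) (p : ℝ × ℝ) : ℝ :=
  max (|p.1| - |p.2|) 0 * ((√(1 + p.1 ^ 2)) ^ (n + 1))⁻¹

theorem integrable_bnd {n : ℕ} (hn : 3 ≤ n) : Integrable (bnd n) := by
  have h1 : Integrable (fun x : ℝ => ((1 : ℝ) + ‖x‖ ^ 2) ^ (-((n : ℝ) / 2) / 2)) := by
    refine integrable_rpow_neg_one_add_norm_sq ?_
    rw [Module.finrank_self]
    have : (3 : ℝ) ≤ n := by exact_mod_cast hn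
    push_cast
    linarith
  have h2 := h1.mul_prod h1
  rw [← Measure.volume_eq_prod] at h2
  refine h2.mono' ?_ (Eventually.of_forall fun p => ?_)
  · refine Measurable.aestronglyMeasurable ?_
    unfold bnd
    fun_prop
  · have h3 : 0 < 1 + p.1 ^ 2 := by positivity
    have h4 : 0 < 1 + p.2 ^ 2 := by positivity
    rw [bnd, Real.norm_of_nonneg (by positivity)]
    rcases le_or_gt |p.1| |p.2| with h | h
    · rw [max_eq_right (by linarith), zero_mul]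
      positivity
    · have h5 : max (|p.1| - |p.2|) 0 ≤ √(1 + p.1 ^ 2) := by
        refine max_le ?_ (Real.sqrt_nonneg _)
        have : |p.1| ≤ √(1 + p.1 ^ 2) := by
          rw [← Real.sqrt_sq_eq_abs]
          exact Real.sqrt_le_sqrt (by linarith)
        linarith [abs_nonneg p.2]
      have h6 : √(1 + p.1 ^ 2) * ((√(1 + p.1 ^ 2)) ^ (n + 1))⁻¹ = (1 + p.1 ^ 2) ^ (-((n : ℝ) / 2)) := by
        have h7 : 0 < √(1 + p.1 ^ 2) := Real.sqrt_pos.2 h3
        rw [pow_succ (√(1 + p.1 ^ 2)) n]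
        have h8 : (√(1 + p.1 ^ 2)) ^ n = (1 + p.1 ^ 2) ^ ((n : ℝ) / 2) := by
          rw [Real.sqrt_eq_rpow, ← Real.rpow_natCast, ← Real.rpow_mul h3.le]
          congr 1
          ring
        rw [Real.rpow_neg h3.le, ← h8]
        field_simp
      have h9 : (1 + p.1 ^ 2) ^ (-((n : ℝ) / 2)) = (1 + p.1 ^ 2) ^ (-((n : ℝ) / 2) / 2) *
          (1 + p.1 ^ 2) ^ (-((n : ℝ) / 2) / 2) := by
        rw [← Real.rpow_add h3]
        congr 1
        ring
      have h10 : (1 + p.1 ^ 2) ^ (-((n : ℝ) / 2) / 2) ≤ (1 + p.2 ^ 2) ^ (-((n : ℝ) / 2) / 2) := by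
        refine Real.rpow_le_rpow_of_nonpos h4 ?_ ?_
        · have := sq_lt_sq.2 h
          linarith
        · have : (0 : ℝ) ≤ n := Nat.cast_nonneg n
          linarith
      calc max (|p.1| - |p.2|) 0 * ((√(1 + p.1 ^ 2)) ^ (n + 1))⁻¹
          ≤ √(1 + p.1 ^ 2) * ((√(1 + p.1 ^ 2)) ^ (n + 1))⁻¹ :=
            mul_le_mul_of_nonneg_right h5 (by positivity)
        _ = (1 + p.1 ^ 2) ^ (-((n : ℝ) / 2) / 2) * (1 + p.1 ^ 2) ^ (-((n : ℝ) / 2) / 2) := by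
            rw [h6, h9]
        _ ≤ (1 + p.1 ^ 2) ^ (-((n : ℝ) / 2) / 2) * (1 + p.2 ^ 2) ^ (-((n : ℝ) / 2) / 2) :=
            mul_le_mul_of_nonneg_left h10 (by positivity)
        _ = _ := by simp only [Real.norm_eq_abs, sq_abs]

theorem KK_bound (n : ℕ) {g : ℝ → ℝ} {C : ℝ} (hC0 : 0 ≤ C)
    (hC : ∀ t ∈ Icc (-1 : ℝ) 1, |g t| ≤ C) (z : ℝ) (p : ℝ × ℝ) :
    ‖KK n g z p‖ ≤ C * bnd n p := by
  have h1 := rho_pos z p
  have h2 : 0 < √(1 + p.1 ^ 2) := Real.sqrt_pos.2 (by positivity)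
  rw [KK, bnd, norm_mul, norm_mul, Real.norm_of_nonneg (le_max_right _ _),
    Real.norm_of_nonneg (by positivity : 0 ≤ ((rho z p) ^ (n + 1))⁻¹), Real.norm_eq_abs]
  have h3 := gg_bdd hC0 hC (p.1 / rho z p)
  have h4 : ((rho z p) ^ (n + 1))⁻¹ ≤ ((√(1 + p.1 ^ 2)) ^ (n + 1))⁻¹ :=
    inv_anti₀ (by positivity) (pow_le_pow_left₀ h2.le (rho_ge z p) _)
  have h5 : 0 ≤ max (|p.1| - |p.2|) 0 := le_max_right _ _
  calc max (|p.1| - |p.2|) 0 * |gg g (p.1 / rho z p)| * ((rho z p) ^ (n + 1))⁻¹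
      ≤ max (|p.1| - |p.2|) 0 * C * ((√(1 + p.1 ^ 2)) ^ (n + 1))⁻¹ :=
        mul_le_mul (mul_le_mul_of_nonneg_left h3 h5) h4 (by positivity) (by positivity)
    _ = _ := by ring

theorem mem_Ioo_div (z : ℝ) (p : ℝ × ℝ) : p.1 / rho z p ∈ Ioo (-1 : ℝ) 1 := by
  have h1 := rho_pos z p
  have h2 : |p.1| < rho z p := by
    rw [← Real.sqrt_sq_eq_abs]
    exact Real.sqrt_lt_sqrt (by positivity) (by nlinarith [sq_nonneg (z * p.2)])
  refine abs_lt.1 ?_
  rw [abs_div, abs_of_pos h1, div_lt_one h1]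
  exact h2

theorem KK_tendsto (n : ℕ) {g : ℝ → ℝ} (p : ℝ × ℝ) (hgc : ContinuousAt g (p.1 / rho 0 p)) :
    Tendsto (fun z => KK n g z p) (𝓝 0) (𝓝 (KK n g 0 p)) := by
  have h0 : Continuous fun z => rho z p := by
    unfold rho
    fun_prop
  have h1 : ContinuousAt (fun z => p.1 / rho z p) 0 :=
    continuousAt_const.div h0.continuousAt (rho_pos 0 p).ne'
  have h2 : ContinuousAt (gg g) (p.1 / rho 0 p) := by
    refine hgc.congr ?_
    filter_upwards [Ioo_mem_nhds (mem_Ioo_div 0 p).1 (mem_Ioo_div 0 p).2] with t ht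
    exact (gg_eq g ⟨ht.1.le, ht.2.le⟩).symm
  have h4 : ContinuousAt (fun z => gg g (p.1 / rho z p)) 0 :=
    ContinuousAt.comp (f := fun z => p.1 / rho z p) h2 h1
  have h5 : ContinuousAt (fun z => ((rho z p) ^ (n + 1))⁻¹) 0 :=
    (h0.pow (n + 1)).continuousAt.inv₀ (pow_pos (rho_pos 0 p) _).ne'
  exact (continuousAt_const.mul h4).mul h5

theorem hasDeriv_f (t : ℝ) : HasDerivAt (fun t : ℝ => t / √(1 + t ^ 2))
    (((√(1 + t ^ 2)) ^ 3)⁻¹) t := by
  have h0 : (0 : ℝ) < 1 + t ^ 2 := by positivity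
  have h1 : 0 < √(1 + t ^ 2) := Real.sqrt_pos.2 h0
  have h2 : HasDerivAt (fun t : ℝ => 1 + t ^ 2) (2 * t) t := by
    simpa using (hasDerivAt_pow 2 t).const_add 1
  have h3 : HasDerivAt (fun t : ℝ => √(1 + t ^ 2)) (2 * t / (2 * √(1 + t ^ 2))) t :=
    h2.sqrt h0.ne'
  have h4 : HasDerivAt (fun t : ℝ => t / √(1 + t ^ 2)) _ t :=
    (hasDerivAt_id' t).fun_div h3 h1.ne'
  have h5 : √(1 + t ^ 2) ^ 2 = 1 + t ^ 2 := Real.sq_sqrt h0.le
  refine h4.congr_deriv ?_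
  field_simp
  rw [h5]
  ring

theorem rho_zero (p : ℝ × ℝ) : rho 0 p = √(1 + p.1 ^ 2) := by
  rw [rho]
  congr 1
  ring

/-- almost every point of the line is mapped to a point of continuity -/
theorem ae_cont {g : ℝ → ℝ} (hgc : ∀ᵐ t : ℝ, t ∈ Ioo (-1 : ℝ) 1 → ContinuousAt g t) :
    ∀ᵐ t : ℝ, ContinuousAt g (t / √(1 + t ^ 2)) := by
  rw [ae_iff] at hgc ⊢
  obtain ⟨D, hD⟩ : ∃ D : Set ℝ, D = {t | ¬ (t ∈ Ioo (-1 : ℝ) 1 → ContinuousAt g t)} := ⟨_, rfl⟩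
  rw [← hD] at hgc
  have hmem : ∀ t, t ∈ D ↔ t ∈ Ioo (-1 : ℝ) 1 ∧ ¬ ContinuousAt g t := by
    intro t
    rw [hD]
    change (¬ (t ∈ Ioo (-1 : ℝ) 1 → ContinuousAt g t)) ↔ _
    exact Classical.not_imp
  have hdiff : DifferentiableOn ℝ (fun τ : ℝ => τ / √(1 - τ ^ 2)) D := by
    intro τ hτ
    have h1 := ((hmem τ).1 hτ).1
    have h2 : 0 < 1 - τ ^ 2 := by nlinarith [h1.1, h1.2]
    have h3 : DifferentiableAt ℝ (fun τ : ℝ => √(1 - τ ^ 2)) τ := by
      apply DifferentiableAt.sqrt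
      · fun_prop
      · exact h2.ne'
    exact ((differentiableAt_id).div h3 (Real.sqrt_pos.2 h2).ne').differentiableWithinAt
  have h0 := addHaar_image_eq_zero_of_differentiableOn_of_addHaar_eq_zero (volume : Measure ℝ) hdiff hgc
  refine measure_mono_null ?_ h0
  intro t ht
  have ht' : ¬ ContinuousAt g (t / √(1 + t ^ 2)) := ht
  refine ⟨t / √(1 + t ^ 2), ?_, ?_⟩
  · rw [hmem]
    refine ⟨?_, ht'⟩
    have := mem_Ioo_div 0 (t, 0)
    rwa [rho_zero] at this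
  · dsimp only
    have h1 : 0 < 1 + t ^ 2 := by positivity
    have h2 : 0 < √(1 + t ^ 2) := Real.sqrt_pos.2 h1
    have h3 : 1 - (t / √(1 + t ^ 2)) ^ 2 = (√(1 + t ^ 2))⁻¹ ^ 2 := by
      rw [div_pow, inv_pow, Real.sq_sqrt h1.le]
      field_simp
      ring
    rw [h3, Real.sqrt_sq (inv_nonneg.2 h2.le)]
    field_simp

theorem KK_zero_nonneg {n : ℕ} (hn : 3 ≤ n) (g : ℝ → ℝ)
    (hgb : ∃ C, ∀ t ∈ Icc (-1 : ℝ) 1, |g t| ≤ C)
    (hgm : Measurable g) (hgc : ∀ᵐ t : ℝ, t ∈ Ioo (-1 : ℝ) 1 → ContinuousAt g t)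
    (h : ∀ z : ℝ, 0 < z → 0 ≤ ∫ p, KK n g z p) :
    0 ≤ ∫ p, KK n g 0 p := by
  obtain ⟨C, hC⟩ := hgb
  have hC0 : 0 ≤ C := (abs_nonneg _).trans (hC 0 (by constructor <;> norm_num))
  have h1 : Tendsto (fun k : ℕ => ∫ p, KK n g (1 / ((k : ℝ) + 1)) p) atTop
      (𝓝 (∫ p, KK n g 0 p)) := by
    refine tendsto_integral_of_dominated_convergence (fun p => C * bnd n p)
      (fun k => (measurable_KK n hgm _).aestronglyMeasurable) ((integrable_bnd hn).const_mul C)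
      (fun k => Eventually.of_forall fun p => KK_bound n hC0 hC _ p) ?_
    have hae : ∀ᵐ p : ℝ × ℝ, ContinuousAt g (p.1 / √(1 + p.1 ^ 2)) := by
      rw [Measure.volume_eq_prod]
      exact Measure.quasiMeasurePreserving_fst.ae (ae_cont hgc)
    filter_upwards [hae] with p hp
    rw [← rho_zero p] at hp
    exact (KK_tendsto n p hp).comp tendsto_one_div_add_atTop_nhds_zero_nat
  exact ge_of_tendsto' h1 fun k => h _ (by positivity)

theorem integral_hat (a : ℝ) (ha : 0 ≤ a) : ∫ s : ℝ, max (a - |s|) 0 = a ^ 2 := by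
  rw [integral_comp_abs (f := fun s => max (a - s) 0)]
  have h1 : ∫ x in Ioi (0 : ℝ), max (a - x) 0 = ∫ x in Ioc (0 : ℝ) a, (a - x) := by
    rw [← integral_indicator measurableSet_Ioi, ← integral_indicator measurableSet_Ioc]
    congr 1
    funext x
    by_cases h0 : 0 < x
    · by_cases h2 : x ≤ a
      · rw [indicator_of_mem (show x ∈ Ioi (0 : ℝ) from h0),
          indicator_of_mem (show x ∈ Ioc (0 : ℝ) a from ⟨h0, h2⟩), max_eq_left (by linarith)]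
      · rw [indicator_of_mem (show x ∈ Ioi (0 : ℝ) from h0),
          indicator_of_notMem (fun h : x ∈ Ioc (0 : ℝ) a => h2 h.2),
          max_eq_right (by linarith)]
    · rw [indicator_of_notMem (fun h : x ∈ Ioi (0 : ℝ) => h0 h),
        indicator_of_notMem (fun h : x ∈ Ioc (0 : ℝ) a => h0 h.1)]
  rw [h1, ← intervalIntegral.integral_of_le ha]
  rw [intervalIntegral.integral_sub (by simp) (by simp)]
  simp
  ring

theorem KK_zero_integral {n : ℕ} (hn : 3 ≤ n) (g : ℝ → ℝ)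
    (hgb : ∃ C, ∀ t ∈ Icc (-1 : ℝ) 1, |g t| ≤ C) (hgm : Measurable g) :
    ∫ p, KK n g 0 p =
      ∫ t : ℝ, t ^ 2 * gg g (t / √(1 + t ^ 2)) * ((√(1 + t ^ 2)) ^ (n + 1))⁻¹ := by
  obtain ⟨C, hC⟩ := hgb
  have hC0 : 0 ≤ C := (abs_nonneg _).trans (hC 0 (by constructor <;> norm_num))
  have h1 : Integrable (KK n g 0) := ((integrable_bnd hn).const_mul C).mono'
    (measurable_KK n hgm _).aestronglyMeasurable (Eventually.of_forall fun p => KK_bound n hC0 hC _ p)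
  rw [Measure.volume_eq_prod] at h1 ⊢
  rw [integral_prod _ h1]
  refine integral_congr_ae (Eventually.of_forall fun t => ?_)
  dsimp only
  have h2 : ∀ s : ℝ, KK n g 0 (t, s) = (gg g (t / √(1 + t ^ 2)) * ((√(1 + t ^ 2)) ^ (n + 1))⁻¹) *
      max (|t| - |s|) 0 := by
    intro s
    have h3 : rho 0 (t, s) = √(1 + t ^ 2) := by
      rw [rho]
      congr 1
      ring
    rw [KK, h3]
    ring
  simp only [h2]
  rw [integral_const_mul, integral_hat _ (abs_nonneg t), sq_abs]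
  ring

theorem image_f : (fun t : ℝ => t / √(1 + t ^ 2)) '' univ = Ioo (-1 : ℝ) 1 := by
  ext τ
  constructor
  · rintro ⟨t, -, rfl⟩
    have := mem_Ioo_div 0 (t, 0)
    have h3 : rho 0 (t, 0) = √(1 + t ^ 2) := by
      rw [rho]
      congr 1
      ring
    rwa [h3] at this
  · intro hτ
    have h1 : 0 < 1 - τ ^ 2 := by nlinarith [hτ.1, hτ.2]
    have h2 : 0 < √(1 - τ ^ 2) := Real.sqrt_pos.2 h1
    refine ⟨τ / √(1 - τ ^ 2), mem_univ _, ?_⟩
    have h3 : 1 + (τ / √(1 - τ ^ 2)) ^ 2 = (√(1 - τ ^ 2))⁻¹ ^ 2 := by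
      rw [div_pow, inv_pow, Real.sq_sqrt h1.le]
      field_simp
      ring
    dsimp only
    rw [h3, Real.sqrt_sq (inv_nonneg.2 h2.le)]
    field_simp

theorem weight_nonneg' {n : ℕ} (hn : 3 ≤ n) (g : ℝ → ℝ) (hgb : ∃ C, ∀ t ∈ Icc (-1 : ℝ) 1, |g t| ≤ C)
    (hgm : Measurable g) (hgc : ∀ᵐ t : ℝ, t ∈ Ioo (-1 : ℝ) 1 → ContinuousAt g t) (u w : E n)
    (huw : Orthonormal ℝ ![u, w])
    (hpos : ∀ z : ℝ, 0 < z → 0 ≤ ∫ v : Sph n, max (z * |inner ℝ u (v : E n)| - |inner ℝ w (v : E n)|) 0 *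
      g (inner ℝ u (v : E n)) ∂((volume : Measure (E n)).toSphere)) :
    0 ≤ ∫ t in (-1 : ℝ)..1, g t * t ^ 2 * (1 - t ^ 2) ^ (((n : ℝ) - 4) / 2) := by
  have h1 := KK_zero_nonneg hn g hgb hgm hgc
    fun z hz => KK_nonneg hn g hgb hgm u w huw hz (hpos z hz)
  rw [KK_zero_integral hn g hgb hgm] at h1
  rw [intervalIntegral.integral_of_le (by norm_num), integral_Ioc_eq_integral_Ioo, ← image_f]
  have hinj : InjOn (fun t : ℝ => t / √(1 + t ^ 2)) univ := by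
    have : StrictMono (fun t : ℝ => t / √(1 + t ^ 2)) := by
      refine strictMono_of_deriv_pos fun t => ?_
      rw [(hasDeriv_f t).deriv]
      have : 0 < √(1 + t ^ 2) := Real.sqrt_pos.2 (by positivity)
      positivity
    exact this.injective.injOn
  rw [integral_image_eq_integral_abs_deriv_smul MeasurableSet.univ
    (fun t _ => (hasDeriv_f t).hasDerivWithinAt) hinj, Measure.restrict_univ]
  refine h1.trans (le_of_eq (integral_congr_ae (Eventually.of_forall fun t => ?_)))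
  dsimp only
  have h0 : (0 : ℝ) < 1 + t ^ 2 := by positivity
  have h2 : 0 < √(1 + t ^ 2) := Real.sqrt_pos.2 h0
  have h5 : √(1 + t ^ 2) ^ 2 = 1 + t ^ 2 := Real.sq_sqrt h0.le
  have hmem : t / √(1 + t ^ 2) ∈ Ioo (-1 : ℝ) 1 := by
    rw [← image_f]
    exact ⟨t, mem_univ _, rfl⟩
  rw [gg_eq g ⟨hmem.1.le, hmem.2.le⟩, smul_eq_mul]
  set r := √(1 + t ^ 2) with hr
  have h6 : 1 - (t / r) ^ 2 = r ^ (-2 : ℝ) := by
    rw [Real.rpow_neg h2.le, div_pow, h5]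
    norm_num
    rw [h5]
    field_simp
    ring
  have h7 : (1 - (t / r) ^ 2) ^ (((n : ℝ) - 4) / 2) = r ^ 4 * (r ^ n)⁻¹ := by
    rw [h6, ← Real.rpow_mul h2.le]
    have h8 : (-2 : ℝ) * (((n : ℝ) - 4) / 2) = (4 : ℕ) - (n : ℝ) := by
      push_cast
      ring
    rw [h8, Real.rpow_sub h2, Real.rpow_natCast, Real.rpow_natCast]
    rfl
  rw [h7, abs_of_pos (by positivity), pow_succ]
  field_simp
  ring

end Pool.Agent.Helper115_ME.UU
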