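import Mathlib
import Pool.Agent.Helper115_ME.UU.U01
import Pool.Agent.Helper115_ME.UU.U02
import Pool.Agent.Helper115_ME.UU.U03
import Pool.Agent.Helper115_ME.UU.U04
import Pool.Agent.Helper115_ME.UU.U05
import Pool.Agent.Helper115_ME.UU.U06
import Pool.Agent.Helper115_ME.UU.U07
import Pool.Agent.Helper115_ME.UU.U08
import Pool.Agent.Helper115_ME.UU.U09
import Pool.Agent.Helper115_ME.UU.U10
import Pool.Agent.Helper115_ME.UU.U11
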