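import Mathlib
import Pool.Agent.Helper115_ME.CC.OpenSuff
import Pool.Agent.Helper115_ME.UU.Lemmas

/-!
# The key inequality for even densities which are nonincreasing in `|t|`
-/

set_option autoImplicit false

namespace Pool.Agent.Helper115_ME

open MeasureTheory Metric Set Filter Topology
open scoped ContDiff

noncomputable section

variable {n : ℕ}

theorem kappa_contDiff_two {K : ConvexBody (E n)} (hK : IsSmooth (hS K)) {f y : E n} (hf : ‖f‖ = 1)
    (hy : ‖y‖ = 1) (hfy : inner ℝ f y = (0 : ℝ)) : ContDiff ℝ 2 (fun z : ℝ => supp K (y + z • f)) := by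
  have h1 : ContDiff ℝ ∞ (fun z : ℝ => y + z • f) :=
    contDiff_const.add (contDiff_id.smul contDiff_const)
  have h2 : ContDiff ℝ ∞ (fun z : ℝ => supp K (y + z • f)) := by
    rw [← contDiffOn_univ]
    have h3 := (contDiffOn_supp hK).comp (g := supp K) (f := fun z : ℝ => y + z • f) h1.contDiffOn
      (s := univ) (fun z _ => line_ne_zero hf hy hfy z)
    exact h3
  exact h2.of_le two_le_infty

/-- general reduction to lines, unbounded integrable kernels -/
theorem sphere_nonneg' (hn : 3 ≤ n) (K : ConvexBody (E n)) {f u : E n} (hf : ‖f‖ = 1) (hu : ‖u‖ = 1)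
    (huf : inner ℝ u f = (0 : ℝ)) (Q : ℝ → ℝ → ℝ) (hQ : Measurable (Function.uncurry Q))
    (hint : Integrable (fun v : Sph n => hS K v * Q (inner ℝ u (v : E n)) (inner ℝ f (v : E n))) (sig n))
    (hline : ∀ y : E n, inner ℝ f y = (0 : ℝ) → ‖y‖ = 1 → |(inner ℝ u y : ℝ)| < 1 → 0 ≤ ∫ z : ℝ, supp K (y + z • f) *
      (Q (inner ℝ u y / √(1 + z ^ 2)) (z / √(1 + z ^ 2)) * ((√(1 + z ^ 2)) ^ (n + 1))⁻¹)) :
    0 ≤ ∫ v : Sph n, hS K v * Q (inner ℝ u (v : E n)) (inner ℝ f (v : E n)) ∂(sig n) := by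
  set F : E n → ℝ := fun x => supp K x * (Q (inner ℝ u x / ‖x‖) (inner ℝ f x / ‖x‖) * (‖x‖ ^ (n + 1))⁻¹) with hF
  have hcu : Continuous (fun x : E n => (inner ℝ u x : ℝ)) := by fun_prop
  have hcf : Continuous (fun x : E n => (inner ℝ f x : ℝ)) := by fun_prop
  have hmeas : Measurable F := by
    have h1 : Measurable (supp K) := (continuous_supp K).measurable
    have h2 : Measurable (fun x : E n => ((inner ℝ u x / ‖x‖, inner ℝ f x / ‖x‖) : ℝ × ℝ)) :=
      (hcu.measurable.div measurable_norm).prodMk (hcf.measurable.div measurable_norm)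
    have h3 : Measurable (fun x : E n => Q (inner ℝ u x / ‖x‖) (inner ℝ f x / ‖x‖)) :=
      hQ.comp h2
    exact h1.mul (h3.mul (measurable_norm.pow_const (n + 1)).inv)
  have hval : ∀ x : E n, ‖x‖ = 1 → F x = supp K x * Q (inner ℝ u x) (inner ℝ f x) := by
    intro x hx
    simp only [hF, hx, div_one, one_pow, inv_one, mul_one]
  have h1 : (fun v : Sph n => F v) = fun v : Sph n =>
      hS K v * Q (inner ℝ u (v : E n)) (inner ℝ f (v : E n)) := by
    funext v
    exact hval v (norm_coe_sph v)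
  have h0 := UU.sphere_nonneg_of_lines' hn f u hf hu huf F hmeas ?_ ?_ ?_
  · rw [h1] at h0
    exact h0
  · intro c hc x
    have hcn : ‖c • x‖ = c * ‖x‖ := by rw [norm_smul, Real.norm_of_nonneg hc.le]
    have e1 : inner ℝ u (c • x) / ‖c • x‖ = inner ℝ u x / ‖x‖ := by
      rw [hcn, inner_smul_right, mul_div_mul_left _ _ hc.ne']
    have e2 : inner ℝ f (c • x) / ‖c • x‖ = inner ℝ f x / ‖x‖ := by
      rw [hcn, inner_smul_right, mul_div_mul_left _ _ hc.ne']
    show supp K (c • x) * (Q (inner ℝ u (c • x) / ‖c • x‖) (inner ℝ f (c • x) / ‖c • x‖) *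
      (‖c • x‖ ^ (n + 1))⁻¹) = (c ^ n)⁻¹ * (supp K x * (Q (inner ℝ u x / ‖x‖) (inner ℝ f x / ‖x‖) *
      (‖x‖ ^ (n + 1))⁻¹))
    rw [e1, e2, hcn, supp_smul K hc.le, mul_pow, mul_inv, pow_succ c n, mul_inv]
    have hc' : c * c⁻¹ = 1 := mul_inv_cancel₀ hc.ne'
    calc c * supp K x * (Q (inner ℝ u x / ‖x‖) (inner ℝ f x / ‖x‖) * ((c ^ n)⁻¹ * c⁻¹ * (‖x‖ ^ (n + 1))⁻¹))
        = (c * c⁻¹) * ((c ^ n)⁻¹ * (supp K x * (Q (inner ℝ u x / ‖x‖) (inner ℝ f x / ‖x‖) *
          (‖x‖ ^ (n + 1))⁻¹))) := by ring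
      _ = _ := by rw [hc', one_mul]
  · rw [h1]; exact hint
  · intro y hfy hy huy
    refine (hline y hfy hy huy).trans (le_of_eq ?_)
    congr 1
    funext z
    have e1 : inner ℝ u (y + z • f) = inner ℝ u y := by
      rw [inner_add_right, inner_smul_right, huf, mul_zero, add_zero]
    have e2 : inner ℝ f (y + z • f) = z := by
      rw [inner_add_right, inner_smul_right, hfy, real_inner_self_eq_norm_sq, hf]; ring
    show _ = supp K (y + z • f) * (Q (inner ℝ u (y + z • f) / ‖y + z • f‖)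
      (inner ℝ f (y + z • f) / ‖y + z • f‖) * (‖y + z • f‖ ^ (n + 1))⁻¹)
    rw [e1, e2, norm_line hf hy hfy]

/-! ### truncated kernels -/

/-- `Λ` on `(-1,1)`, zero elsewhere -/
def LamI (n : ℕ) (g : ℝ → ℝ) : ℝ → ℝ := (Ioo (-1 : ℝ) 1).indicator (UU.Lam n g)

/-- `Θ` with `Λ` truncated -/
def ThtI (n : ℕ) (g : ℝ → ℝ) (τ : ℝ) : ℝ := LamI n g τ * ((√(1 - τ ^ 2)) ^ (n - 2))⁻¹

/-- `H` with `Θ` truncated -/
def HHI (n : ℕ) (g : ℝ → ℝ) (τ : ℝ) : ℝ := (UU.ff g τ + ((n : ℝ) - 2) * ThtI n g τ) / (1 - τ ^ 2)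

theorem ThtI_eq {g : ℝ → ℝ} {τ : ℝ} (hτ : τ ∈ Ioo (-1 : ℝ) 1) : ThtI n g τ = UU.Tht n g τ := by
  unfold ThtI UU.Tht LamI
  rw [indicator_of_mem hτ]

theorem HHI_eq {g : ℝ → ℝ} {τ : ℝ} (hτ : τ ∈ Ioo (-1 : ℝ) 1) : HHI n g τ = UU.HH n g τ := by
  unfold HHI UU.HH
  rw [ThtI_eq hτ]

theorem measurable_LamI (hn : 3 ≤ n) {g : ℝ → ℝ} (hg : ContDiff ℝ 2 g) : Measurable (LamI n g) := by
  have h := (UU.Lam_continuousOn hn g hg).measurable_piecewise (g := fun _ => 0) continuousOn_const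
      (measurableSet_Ioo : MeasurableSet (Ioo (-1 : ℝ) 1))
  unfold LamI
  convert h using 1
  exact Set.piecewise_eq_indicator.symm

theorem continuous_deriv_one {g : ℝ → ℝ} (hg : ContDiff ℝ 2 g) : Continuous (deriv g) ∧ Continuous (deriv (deriv g)) := by
  have hc1 : ContDiff ℝ 1 (deriv g) := by
    have : ContDiff ℝ (1 + 1) g := by simpa [one_add_one_eq_two] using hg
    exact (contDiff_succ_iff_deriv.1 this).2.2
  exact ⟨hc1.continuous, hc1.continuous_deriv (by norm_num)⟩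

theorem continuous_ff {g : ℝ → ℝ} (hg : ContDiff ℝ 2 g) : Continuous (UU.ff g) :=
  hg.continuous.sub (continuous_id.mul (continuous_deriv_one hg).1)

theorem measurable_ThtI (hn : 3 ≤ n) {g : ℝ → ℝ} (hg : ContDiff ℝ 2 g) : Measurable (ThtI n g) := by
  have h := measurable_LamI hn hg
  unfold ThtI
  fun_prop

theorem measurable_HHI (hn : 3 ≤ n) {g : ℝ → ℝ} (hg : ContDiff ℝ 2 g) : Measurable (HHI n g) := by
  have h := measurable_ThtI hn hg
  have h2 := (continuous_ff hg).measurable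
  unfold HHI
  fun_prop

theorem div_sqrt_mem (z : ℝ) {a : ℝ} (ha : |a| < 1) : a / √(1 + z ^ 2) ∈ Ioo (-1 : ℝ) 1 := by
  have h1 : 1 ≤ √(1 + z ^ 2) := Real.one_le_sqrt.2 (by nlinarith [sq_nonneg z])
  have h0 : 0 < √(1 + z ^ 2) := by linarith
  rw [mem_Ioo, ← abs_lt, abs_div, abs_of_pos h0, div_lt_one h0]
  linarith

theorem z_div_sqrt_mem (z : ℝ) : z / √(1 + z ^ 2) ∈ Ioo (-1 : ℝ) 1 := by
  have h0 : 0 < √(1 + z ^ 2) := Real.sqrt_pos.2 (by positivity)
  have h1 : |z| < √(1 + z ^ 2) := by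
    rw [← Real.sqrt_sq_eq_abs]
    exact Real.sqrt_lt_sqrt (sq_nonneg z) (by linarith)
  rw [mem_Ioo, ← abs_lt, abs_div, abs_of_pos h0, div_lt_one h0]
  exact h1

/-- bound for `Θ` -/
theorem exists_bound_ThtI (hn : 3 ≤ n) {g : ℝ → ℝ} (hg : ContDiff ℝ 2 g) :
    ∃ C, 0 ≤ C ∧ ∀ τ, |ThtI n g τ| ≤ C * ((√(1 - τ ^ 2)) ^ (n - 2))⁻¹ := by
  obtain ⟨C, hC⟩ := UU.Lam_bounded hn g hg
  refine ⟨|C|, abs_nonneg _, fun τ => ?_⟩
  have h0 : 0 ≤ ((√(1 - τ ^ 2)) ^ (n - 2))⁻¹ := by positivity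
  unfold ThtI LamI
  rw [abs_mul, abs_of_nonneg h0]
  refine mul_le_mul_of_nonneg_right ?_ h0
  by_cases hτ : τ ∈ Ioo (-1 : ℝ) 1
  · rw [indicator_of_mem hτ]
    exact (hC τ hτ).trans (le_abs_self _)
  · rw [indicator_of_notMem hτ, abs_zero]
    exact abs_nonneg _

theorem exists_bound_Icc {F : ℝ → ℝ} (hF : Continuous F) : ∃ C, 0 ≤ C ∧ ∀ t ∈ Icc (-1 : ℝ) 1, |F t| ≤ C := by
  obtain ⟨C, hC⟩ := (isCompact_Icc (a := (-1 : ℝ)) (b := 1)).exists_bound_of_continuousOn hF.continuousOn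
  exact ⟨C, (norm_nonneg _).trans (hC 0 (by constructor <;> norm_num)), fun t ht => hC t ht⟩

/-- two orthonormal coordinates -/
theorem sq_add_sq_le {u f : E n} (hu : ‖u‖ = 1) (hf : ‖f‖ = 1) (huf : inner ℝ u f = (0 : ℝ)) (v : Sph n) :
    (inner ℝ u (v : E n) : ℝ) ^ 2 + (inner ℝ f (v : E n) : ℝ) ^ 2 ≤ 1 := by
  have h1 : 0 ≤ ‖(v : E n) - (inner ℝ u (v : E n) : ℝ) • u - (inner ℝ f (v : E n) : ℝ) • f‖ ^ 2 := by positivity
  rw [← real_inner_self_eq_norm_sq] at h1
  have hfu : inner ℝ f u = (0 : ℝ) := by rw [real_inner_comm]; exact huf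
  simp only [inner_sub_left, inner_sub_right, inner_smul_left, inner_smul_right,
      real_inner_self_eq_norm_sq, hu, hf, huf, hfu, norm_coe_sph, RCLike.conj_to_real,
      real_inner_comm u (v : E n), real_inner_comm f (v : E n)] at h1
  linarith

/-- integrability of the kernels -/
theorem integrable_kernel (hn : 3 ≤ n) {g : ℝ → ℝ} (hg : ContDiff ℝ 2 g) {u f : E n} (hu : ‖u‖ = 1)
    (hf : ‖f‖ = 1) (huf : inner ℝ u f = (0 : ℝ)) :
    Integrable (fun v : Sph n => (inner ℝ f (v : E n) : ℝ) ^ 2 * HHI n g (inner ℝ u (v : E n))) (sig n) ∧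
    Integrable (fun v : Sph n => ThtI n g (inner ℝ u (v : E n))) (sig n) := by
  obtain ⟨C, hC0, hC⟩ := exists_bound_ThtI hn hg
  obtain ⟨M, hM0, hM⟩ := exists_bound_Icc (continuous_ff hg)
  have hp := UU.integrable_pole hn hu
  have hcu : Continuous (fun v : Sph n => (inner ℝ u (v : E n) : ℝ)) := by fun_prop
  have hcf : Continuous (fun v : Sph n => (inner ℝ f (v : E n) : ℝ)) := by fun_prop
  have hn' : (0 : ℝ) ≤ (n : ℝ) - 2 := by
    have : (3 : ℝ) ≤ n := by exact_mod_cast hn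
    linarith
  constructor
  · refine Integrable.mono' (((integrable_const M).add (hp.const_mul (((n : ℝ) - 2) * C)))) ?_ ?_
    · exact ((hcf.pow 2).measurable.mul ((measurable_HHI hn hg).comp hcu.measurable)).aestronglyMeasurable
    · filter_upwards [ae_mem_Ioo (by omega) hu] with v hv
      set τ : ℝ := inner ℝ u (v : E n) with hτ
      set b : ℝ := inner ℝ f (v : E n) with hb
      have h1 : b ^ 2 ≤ 1 - τ ^ 2 := by
        have := sq_add_sq_le hu hf huf v
        rw [← hτ, ← hb] at this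
        linarith
      have h2 : 0 < 1 - τ ^ 2 := by nlinarith [hv.1, hv.2]
      have h3 : ‖b ^ 2 * HHI n g τ‖ ≤ |UU.ff g τ + ((n : ℝ) - 2) * ThtI n g τ| := by
        unfold HHI
        rw [Real.norm_eq_abs, abs_mul, abs_of_nonneg (sq_nonneg b), abs_div, abs_of_pos h2, mul_div_assoc',
          div_le_iff₀ h2, mul_comm]
        exact mul_le_mul_of_nonneg_left h1 (abs_nonneg _)
      refine h3.trans ((abs_add_le _ _).trans ?_)
      rw [abs_mul, abs_of_nonneg hn']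
      show _ ≤ M + ((n : ℝ) - 2) * C * ((√(1 - τ ^ 2)) ^ (n - 2))⁻¹
      refine add_le_add (hM τ ⟨hv.1.le, hv.2.le⟩) ?_
      rw [mul_assoc]
      exact mul_le_mul_of_nonneg_left (hC τ) hn'
  · refine Integrable.mono' (hp.const_mul C) ?_ ?_
    · exact ((measurable_ThtI hn hg).comp hcu.measurable).aestronglyMeasurable
    · refine Eventually.of_forall fun v => ?_
      rw [Real.norm_eq_abs]
      exact hC _

/-- first inequality: lines in a direction `f` orthogonal to `u` -/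
theorem sphere_U1 (hn : 3 ≤ n) {K : ConvexBody (E n)} (hK : IsSmooth (hS K)) {u f : E n}
    (hu : ‖u‖ = 1) (hf : ‖f‖ = 1) (huf : inner ℝ u f = (0 : ℝ)) {g : ℝ → ℝ} (hg : ContDiff ℝ 2 g)
    (hΛ : ∀ τ ∈ Ioo (-1 : ℝ) 1, 0 ≤ UU.Lam n g τ) :
    0 ≤ ∫ v : Sph n, hS K v * (-(ThtI n g (inner ℝ u (v : E n))) +
      (inner ℝ f (v : E n)) ^ 2 * HHI n g (inner ℝ u (v : E n))) ∂(sig n) := by
  obtain ⟨i1, i2⟩ := integrable_kernel hn hg hu hf huf
  refine sphere_nonneg' hn K hf hu huf (fun τ b => -(ThtI n g τ) + b ^ 2 * HHI n g τ) ?_ ?_ ?_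
  · have h1 := measurable_ThtI hn hg
    have h2 := measurable_HHI hn hg
    have h3 : Measurable (fun p : ℝ × ℝ => -(ThtI n g p.1) + p.2 ^ 2 * HHI n g p.1) :=
      (h1.comp measurable_fst).neg.add ((measurable_snd.pow_const 2).mul (h2.comp measurable_fst))
    exact h3
  · exact integrable_mul_density (i2.neg.add i1) (continuous_hS K)
  · intro y hfy hy huy
    have h := UU.line_f hn g hg hΛ (fun z : ℝ => supp K (y + z • f)) (kappa_convex K y f)
      (kappa_contDiff hK hf hy hfy) (kappa_growth K hf hy) (inner ℝ u y) huy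
    refine h.trans (le_of_eq ?_)
    congr 1
    funext z
    have hm := div_sqrt_mem z huy
    rw [ThtI_eq hm, HHI_eq hm]

/-- second inequality: lines in direction `u` -/
theorem sphere_U2 (hn : 3 ≤ n) {K : ConvexBody (E n)} (hK : IsSmooth (hS K)) {u w : E n}
    (hu : ‖u‖ = 1) (hw : ‖w‖ = 1) (huw : inner ℝ u w = (0 : ℝ)) {g : ℝ → ℝ} (hg : ContDiff ℝ 2 g)
    (heven : ∀ t, g (-t) = g t) (hmono : ∀ t ∈ Icc (0 : ℝ) 1, deriv g t ≤ 0)
    (hW : ∫ t in (0 : ℝ)..1, g t * t ^ 2 * UU.om n t = 0) :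
    0 ≤ ∫ v : Sph n, hS K v * ((inner ℝ w (v : E n)) ^ 2 * (deriv (deriv g) (inner ℝ u (v : E n)) +
      HHI n g (inner ℝ u (v : E n)))) ∂(sig n) := by
  obtain ⟨i1, -⟩ := integrable_kernel hn hg hu hw huw
  obtain ⟨-, hc2⟩ := continuous_deriv_one hg
  have hwu : inner ℝ w u = (0 : ℝ) := by rw [real_inner_comm]; exact huw
  have hcu : Continuous (fun v : Sph n => (inner ℝ u (v : E n) : ℝ)) := by fun_prop
  have hcw : Continuous (fun v : Sph n => (inner ℝ w (v : E n) : ℝ)) := by fun_prop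
  refine sphere_nonneg' hn K (f := u) (u := w) hu hw hwu
    (fun a τ => a ^ 2 * (deriv (deriv g) τ + HHI n g τ)) ?_ ?_ ?_
  · have h2 := measurable_HHI hn hg
    have h3 : Measurable (fun p : ℝ × ℝ => p.1 ^ 2 * (deriv (deriv g) p.2 + HHI n g p.2)) :=
      (measurable_fst.pow_const 2).mul ((hc2.measurable.comp measurable_snd).add (h2.comp measurable_snd))
    exact h3
  · have i2 : Integrable (fun v : Sph n => (inner ℝ w (v : E n) : ℝ) ^ 2 * deriv (deriv g) (inner ℝ u (v : E n))) (sig n) :=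
      integrable_sig ((hcw.pow 2).mul (hc2.comp hcu))
    refine (integrable_mul_density (i2.add i1) (continuous_hS K)).congr (Eventually.of_forall fun v => ?_)
    simp only [Pi.add_apply]
    ring
  · intro y huy hy _
    have hlam := UU.Lam_nonneg hn g hg heven hmono hW
    have hD : ∀ t, deriv (deriv g) (-t) = deriv (deriv g) t := by
      have e1 : ∀ t, deriv g (-t) = -deriv g t := by
        intro t
        have h1 : deriv (fun s => g (-s)) t = -deriv g (-t) := by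
          rw [deriv_comp_neg]
        have h2 : (fun s => g (-s)) = g := funext heven
        rw [h2] at h1
        linarith
      intro t
      have h1 : deriv (fun s => deriv g (-s)) t = -deriv (deriv g) (-t) := by
        rw [deriv_comp_neg]
      have h2 : (fun s => deriv g (-s)) = fun s => -deriv g s := funext e1
      rw [h2, deriv.fun_neg] at h1
      linarith
    have hff : ∀ t, UU.ff g (-t) = UU.ff g t := by
      intro t
      unfold UU.ff
      have h1 : deriv (fun s => g (-s)) t = -deriv g (-t) := by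
        rw [deriv_comp_neg]
      have h2 : (fun s => g (-s)) = g := funext heven
      rw [h2] at h1
      rw [heven]
      have h3 : deriv g (-t) = -deriv g t := by linarith
      rw [h3]
      ring
    have hLamE : ∀ t, UU.Lam n g (-t) = UU.Lam n g t := by
      intro t
      unfold UU.Lam UU.om
      congr 1
      funext s
      rw [neg_mul, hff, neg_sq]
    have hHH : ∀ t, UU.HH n g (-t) = UU.HH n g t := by
      intro t
      unfold UU.HH UU.Tht
      rw [hff, hLamE, neg_sq]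
    have h := UU.ibp_line (fun z : ℝ => supp K (y + z • u)) (kappa_convex K y u)
      (kappa_contDiff_two hK hu hy huy) (kappa_growth K hu hy) (UU.J2 n g) (UU.J0 n g) (UU.J1 n g) (UU.J2 n g)
      (fun z => by
        unfold UU.J2
        rw [neg_sq, neg_div, hD, hHH])
      (fun _ _ => rfl) (fun y hy => UU.hasDerivAt_J0 hn g hg hy) (fun y hy => UU.hasDerivAt_J1 hn g hg hy)
      (fun y hy => UU.J0_nonneg hn g hg hmono hW (fun x hx => UU.B_lemma hn hx) hy)
      (UU.tendsto_J0 hn g hg) (UU.tendsto_mul_J1 hn g hg) (UU.tendsto_J1_zero hn g hg heven hW)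
      ⟨_, UU.tendsto_J0_zero hn g hg⟩
    have h2 : ∀ z : ℝ, supp K (y + z • u) * (((inner ℝ w y : ℝ) / √(1 + z ^ 2)) ^ 2 *
        (deriv (deriv g) (z / √(1 + z ^ 2)) + HHI n g (z / √(1 + z ^ 2))) * ((√(1 + z ^ 2)) ^ (n + 1))⁻¹) =
        (inner ℝ w y : ℝ) ^ 2 * (supp K (y + z • u) * UU.J2 n g z) := by
      intro z
      have h0 : √(1 + z ^ 2) ≠ 0 := (Real.sqrt_pos.2 (by positivity)).ne'
      unfold UU.J2
      rw [HHI_eq (z_div_sqrt_mem z), pow_add _ n 1, pow_add _ n 3]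
      field_simp
    simp only [h2]
    rw [integral_const_mul]
    exact mul_nonneg (sq_nonneg _) h

theorem Wt_even (hn : 3 ≤ n) {g : ℝ → ℝ} (hg : Continuous g) (heven : ∀ t, g (-t) = g t) :
    Wt n g = 2 * ∫ t in (0 : ℝ)..1, g t * t ^ 2 * UU.om n t := by
  have h := C06.symm_int hn hg
  unfold C06.uw at h
  unfold Wt UU.om
  have h1 : ∀ t : ℝ, g t * t ^ 2 * (1 - t ^ 2) ^ (((n : ℝ) - 4) / 2) =
      g t * (t ^ 2 * (1 - t ^ 2) ^ (((n : ℝ) - 4) / 2)) := fun t => by ring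
  simp only [h1]
  rw [h, ← intervalIntegral.integral_const_mul]
  congr 1
  funext t
  rw [heven]
  ring

/-- the key inequality for even densities -/
theorem key_even (hn : 3 ≤ n) {g : ℝ → ℝ} (hg : ContDiff ℝ 2 g) (heven : ∀ t, g (-t) = g t)
    (hmono : ∀ t ∈ Icc (0 : ℝ) 1, deriv g t ≤ 0) (hW : Wt n g = 0) {K : ConvexBody (E n)} (hK : IsSmooth (hS K))
    {u w : E n} (huw : Orthonormal ℝ ![u, w]) :
    0 ≤ ∫ v : Sph n, hS K v * (g (inner ℝ u (v : E n)) - inner ℝ u (v : E n) * deriv g (inner ℝ u (v : E n)) +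
      deriv (deriv g) (inner ℝ u (v : E n)) * (inner ℝ w (v : E n)) ^ 2) ∂(sig n) := by
  have hW' : ∫ t in (0 : ℝ)..1, g t * t ^ 2 * UU.om n t = 0 := by
    have := Wt_even hn hg.continuous heven
    rw [hW] at this
    linarith
  have hΛ := UU.Lam_nonneg hn g hg heven hmono hW'
  obtain ⟨b, i, j, hij, hbi, hbj⟩ := exists_basis_two huw
  obtain ⟨hu, hw, huw0⟩ := pair_orthonormal huw
  set S : Finset (Fin n) := (Finset.univ.erase i).erase j with hS'
  have hjm : j ∈ Finset.univ.erase i := Finset.mem_erase.2 ⟨hij.symm, Finset.mem_univ j⟩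
  have hb1 : ∀ k, ‖b k‖ = 1 := fun k => b.orthonormal.1 k
  have hbk : ∀ k ∈ S, inner ℝ u (b k) = (0 : ℝ) := by
    intro k hk
    have hk2 : k ≠ i := Finset.ne_of_mem_erase (Finset.mem_of_mem_erase hk)
    rw [← hbi]
    exact b.orthonormal.2 hk2.symm
  have hA : ∀ k ∈ S, 0 ≤ ∫ v : Sph n, hS K v * (-(ThtI n g (inner ℝ u (v : E n))) +
      (inner ℝ (b k) (v : E n)) ^ 2 * HHI n g (inner ℝ u (v : E n))) ∂(sig n) := fun k hk =>
    sphere_U1 hn hK hu (hb1 k) (hbk k hk) hg hΛ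
  have hB := sphere_U2 hn hK hu hw huw0 hg heven hmono hW'
  have hhc : Continuous (hS K) := continuous_hS K
  have hcu : Continuous (fun v : Sph n => (inner ℝ u (v : E n) : ℝ)) := by fun_prop
  have hcw : Continuous (fun v : Sph n => (inner ℝ w (v : E n) : ℝ)) := by fun_prop
  obtain ⟨hc1, hc2⟩ := continuous_deriv_one hg
  have hintk : ∀ k ∈ S, Integrable (fun v : Sph n => hS K v * (-(ThtI n g (inner ℝ u (v : E n))) +
      (inner ℝ (b k) (v : E n)) ^ 2 * HHI n g (inner ℝ u (v : E n)))) (sig n) := by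
    intro k hk
    obtain ⟨i1, i2⟩ := integrable_kernel hn hg hu (hb1 k) (hbk k hk)
    exact integrable_mul_density (i2.neg.add i1) hhc
  have hintw : Integrable (fun v : Sph n => hS K v * ((inner ℝ w (v : E n)) ^ 2 *
      (deriv (deriv g) (inner ℝ u (v : E n)) + HHI n g (inner ℝ u (v : E n))))) (sig n) := by
    obtain ⟨i1, -⟩ := integrable_kernel hn hg hu hw huw0
    have i2 : Integrable (fun v : Sph n => (inner ℝ w (v : E n) : ℝ) ^ 2 * deriv (deriv g) (inner ℝ u (v : E n))) (sig n) :=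
      integrable_sig ((hcw.pow 2).mul (hc2.comp hcu))
    refine (integrable_mul_density (i2.add i1) hhc).congr (Eventually.of_forall fun v => ?_)
    simp only [Pi.add_apply]
    ring
  have hsum : 0 ≤ (∫ v : Sph n, hS K v * ((inner ℝ w (v : E n)) ^ 2 *
      (deriv (deriv g) (inner ℝ u (v : E n)) + HHI n g (inner ℝ u (v : E n)))) ∂(sig n)) +
      ∑ k ∈ S, ∫ v : Sph n, hS K v * (-(ThtI n g (inner ℝ u (v : E n))) +
      (inner ℝ (b k) (v : E n)) ^ 2 * HHI n g (inner ℝ u (v : E n))) ∂(sig n) :=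
    add_nonneg hB (Finset.sum_nonneg hA)
  rw [← integral_finsetSum _ hintk, ← integral_add hintw (integrable_finsetSum _ hintk)] at hsum
  refine hsum.trans (le_of_eq (integral_congr_ae ?_))
  filter_upwards [ae_mem_Ioo (by omega) hu] with v hv
  set τ : ℝ := inner ℝ u (v : E n) with hτ
  have h2 : 1 - τ ^ 2 ≠ 0 := by nlinarith [hv.1, hv.2]
  have h3 : ∑ k, (inner ℝ (b k) (v : E n)) ^ 2 = (1 : ℝ) := by
    have := b.sum_sq_norm_inner_right (v : E n)
    simpa using this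
  rw [← Finset.add_sum_erase _ _ (Finset.mem_univ i), ← Finset.add_sum_erase _ _ hjm, hbi, hbj] at h3
  have hcard : (S.card : ℝ) = (n : ℝ) - 2 := by
    rw [hS', Finset.card_erase_of_mem hjm, Finset.card_erase_of_mem (Finset.mem_univ i)]
    simp only [Finset.card_univ, Fintype.card_fin]
    rw [Nat.sub_sub, Nat.cast_sub (by omega)]
    norm_num
  have h4 : ∑ k ∈ S, (inner ℝ (b k) (v : E n)) ^ 2 = 1 - τ ^ 2 - (inner ℝ w (v : E n)) ^ 2 := by
    rw [hS', hτ]; linarith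
  rw [← Finset.mul_sum, Finset.sum_add_distrib, Finset.sum_const, ← Finset.sum_mul, nsmul_eq_mul, hcard, h4]
  have h5 : (1 - τ ^ 2) * HHI n g τ = UU.ff g τ + ((n : ℝ) - 2) * ThtI n g τ := by
    unfold HHI
    rw [mul_div_cancel₀ _ h2]
  have h6 : (1 - τ ^ 2 - (inner ℝ w (v : E n)) ^ 2) * HHI n g τ = UU.ff g τ + ((n : ℝ) - 2) * ThtI n g τ -
      (inner ℝ w (v : E n)) ^ 2 * HHI n g τ := by
    rw [← h5]; ring
  rw [h6]
  unfold UU.ff
  ring

end

end Pool.Agent.Helper115_ME
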