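import Mathlib
import Pool.Agent.Helper115_ME.UU.Key

/-!
# Bodies with support function `u ↦ ∫ h_K(v) g(⟨u,v⟩) dσ(v)`
-/

set_option autoImplicit false

namespace Pool.Agent.Helper115_ME

open MeasureTheory Metric Set Filter Topology
open scoped ContDiff

noncomputable section

variable {n : ℕ}

/-- `u ↦ ∫ h_K(v) g(⟨u,v⟩) dσ(v)` is a support function -/
def HasBody (K : ConvexBody (E n)) (g : ℝ → ℝ) : Prop :=
  ∃ L : ConvexBody (E n), ∀ u : Sph n, hS L u = ∫ v : Sph n, hS K v * g (inner ℝ (u : E n) (v : E n)) ∂(sig n)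

/-- pointwise limits of support functions are support functions -/
theorem exists_body_of_limit (H : E n → ℝ) (L : ℕ → ConvexBody (E n))
    (hlim : ∀ u : E n, ‖u‖ = 1 → Tendsto (fun j => supp (L j) u) atTop (𝓝 (H u))) :
    ∃ L' : ConvexBody (E n), ∀ u : Sph n, hS L' u = H (u : E n) := by
  have hconv : ∀ x : E n, ∃ a, Tendsto (fun j => supp (L j) x) atTop (𝓝 a) := by
    intro x
    by_cases hx : x = 0
    · refine ⟨0, ?_⟩
      have : ∀ j, supp (L j) x = 0 := fun j => by
        rw [hx]; simpa using supp_smul (L j) (le_refl (0 : ℝ)) 0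
      simp [this]
    · have hx' : ‖‖x‖⁻¹ • x‖ = 1 := by simp [norm_smul, hx]
      refine ⟨‖x‖ * H (‖x‖⁻¹ • x), ?_⟩
      refine ((hlim _ hx').const_mul ‖x‖).congr fun j => ?_
      rw [supp_smul _ (by positivity), ← mul_assoc, mul_inv_cancel₀ (by simpa using hx), one_mul]
  choose p hp using hconv
  obtain ⟨L', hLp⟩ := exists_body p
    (fun x y => le_of_tendsto_of_tendsto' (hp (x + y)) ((hp x).add (hp y))
      fun j => supp_add_le _ _ _)
    (fun c hc x => tendsto_nhds_unique (hp (c • x))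
      (((hp x).const_mul c).congr fun j => (supp_smul _ hc x).symm))
  refine ⟨L', fun u => ?_⟩
  show supp L' (u : E n) = H (u : E n)
  rw [hLp]
  exact tendsto_nhds_unique (hp _) (hlim _ (norm_coe_sph u))

/-- limits of densities -/
theorem HasBody.limit {K : ConvexBody (E n)} {G : ℕ → ℝ → ℝ} {g : ℝ → ℝ} (hG : ∀ j, HasBody K (G j))
    (hlim : ∀ u : E n, ‖u‖ = 1 → Tendsto (fun j => ∫ v : Sph n, hS K v * G j (inner ℝ u (v : E n)) ∂(sig n)) atTop
      (𝓝 (∫ v : Sph n, hS K v * g (inner ℝ u (v : E n)) ∂(sig n)))) : HasBody K g := by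
  choose L hL using hG
  obtain ⟨L', hL'⟩ := exists_body_of_limit (fun u => ∫ v : Sph n, hS K v * g (inner ℝ u (v : E n)) ∂(sig n)) L
    (fun u hu => by
      refine (hlim u hu).congr fun j => ?_
      have := hL j ⟨u, by simpa using hu⟩
      exact this.symm)
  exact ⟨L', hL'⟩

/-- sums of densities -/
theorem HasBody.add {K : ConvexBody (E n)} {g₁ g₂ : ℝ → ℝ} (h1 : HasBody K g₁) (h2 : HasBody K g₂)
    (i1 : ∀ u : E n, ‖u‖ = 1 → Integrable (fun v : Sph n => g₁ (inner ℝ u (v : E n))) (sig n))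
    (i2 : ∀ u : E n, ‖u‖ = 1 → Integrable (fun v : Sph n => g₂ (inner ℝ u (v : E n))) (sig n)) :
    HasBody K (fun t => g₁ t + g₂ t) := by
  obtain ⟨L1, hL1⟩ := h1
  obtain ⟨L2, hL2⟩ := h2
  obtain ⟨L, hL⟩ := exists_body (fun x => supp L1 x + supp L2 x)
    (fun x y => by
      have a1 := supp_add_le L1 x y
      have a2 := supp_add_le L2 x y
      linarith)
    (fun c hc x => by rw [supp_smul _ hc, supp_smul _ hc]; ring)
  refine ⟨L, fun u => ?_⟩
  have e1 : hS L u = hS L1 u + hS L2 u := hL (u : E n)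
  rw [e1, hL1, hL2, ← integral_add (integrable_mul_density (i1 _ (norm_coe_sph u)) (continuous_hS K))
    (integrable_mul_density (i2 _ (norm_coe_sph u)) (continuous_hS K))]
  congr 1
  funext v
  ring

/-- nonnegative constants -/
theorem hasBody_const (K : ConvexBody (E n)) {c : ℝ} (hc : 0 ≤ c) : HasBody K (fun _ => c) := by
  have h0 := integral_hS_nonneg K
  have hc' : 0 ≤ c * ∫ v, hS K v ∂(sig n) := mul_nonneg hc h0
  obtain ⟨L, hL⟩ := exists_body (fun x : E n => (c * ∫ v, hS K v ∂(sig n)) * ‖x‖)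
    (fun x y => by
      rw [← mul_add]
      exact mul_le_mul_of_nonneg_left (norm_add_le x y) hc')
    (fun r hr x => by rw [norm_smul, Real.norm_of_nonneg hr]; ring)
  refine ⟨L, fun u => ?_⟩
  have e1 : hS L u = (c * ∫ v, hS K v ∂(sig n)) * ‖(u : E n)‖ := hL (u : E n)
  rw [e1, norm_coe_sph, mul_one, ← integral_const_mul]
  congr 1
  funext v
  ring

/-- `C²` densities with nonnegative curvature functional -/
theorem smooth_body (hn : 3 ≤ n) {g : ℝ → ℝ} (hg : ContDiff ℝ 2 g) {K : ConvexBody (E n)}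
    (hpos : ∀ u w : E n, Orthonormal ℝ ![u, w] → 0 ≤ ∫ v : Sph n, hS K v * (g (inner ℝ u (v : E n)) -
      inner ℝ u (v : E n) * deriv g (inner ℝ u (v : E n)) +
      deriv (deriv g) (inner ℝ u (v : E n)) * (inner ℝ w (v : E n)) ^ 2) ∂(sig n)) : HasBody K g := by
  set H : Sph n → ℝ := fun u => ∫ v : Sph n, hS K v * g (inner ℝ (u : E n) (v : E n)) ∂(sig n) with hH
  have hext : ∀ x : E n, ‖x‖ = 1 → ext0 H x = ∫ v : Sph n, hS K v * g (inner ℝ x (v : E n)) ∂(sig n) :=
    fun x hx => ext0_sphere H ⟨x, by simpa using hx⟩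
  have hcont : Continuous H := by
    have hF : Continuous (Function.uncurry fun (u v : Sph n) => hS K v * g (inner ℝ (u : E n) (v : E n))) := by
      have h1 : Continuous fun p : Sph n × Sph n => (inner ℝ (p.1 : E n) (p.2 : E n) : ℝ) := by fun_prop
      exact ((continuous_hS K).comp continuous_snd).mul (hg.continuous.comp h1)
    exact continuous_parametric_integral_of_continuous hF isCompact_univ |> fun h => by simpa using h
  have hcirc : ∀ u w : E n, Orthonormal ℝ ![u, w] →
      (fun θ : ℝ => ext0 H (Real.cos θ • u + Real.sin θ • w)) = fun θ : ℝ =>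
        ∫ v : Sph n, hS K v * g (inner ℝ (Real.cos θ • u + Real.sin θ • w) (v : E n)) ∂(sig n) :=
    fun u w h => funext fun θ => hext _ (norm_circle h θ)
  obtain ⟨L, hL⟩ := body_of_circles (by omega) H hcont
    (fun u w h => by rw [hcirc u w h]; exact (C07.sphere_second_deriv g hg (hS K) (continuous_hS K) u w).1)
    (fun u w h => by
      show 0 ≤ ext0 H u + iteratedDeriv 2 (fun θ : ℝ => ext0 H (Real.cos θ • u + Real.sin θ • w)) 0
      rw [hcirc u w h, hext u (pair_orthonormal h).1]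
      rw [(C07.sphere_second_deriv g hg (hS K) (continuous_hS K) u w).2]
      exact hpos u w h)
  exact ⟨L, fun u => by rw [hL]⟩

theorem Wt_add_const (hn : 3 ≤ n) {g : ℝ → ℝ} (hgi : IntegrableOn (fun t => g t * wgt n t) (Ioo (-1) 1)) (δ : ℝ) :
    Wt n (fun t => g t + δ) = Wt n g + δ * W1 n := by
  rw [Wt_eq, Wt_eq, W1_eq, ← integral_const_mul, ← integral_add hgi ((integrableOn_wgt (n := n) hn).const_mul _)]
  exact setIntegral_congr_fun measurableSet_Ioo fun t _ => add_mul (g t) δ (wgt n t)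

theorem integrableOn_mul_wgt_of_continuous (hn : 3 ≤ n) {g : ℝ → ℝ} (hg : Continuous g) :
    IntegrableOn (fun t => g t * wgt n t) (Ioo (-1) 1) := by
  have h1 : IntegrableOn (fun t : ℝ => g t * t ^ 2 * (1 - t ^ 2) ^ (((n : ℝ) - 4) / 2)) (Ioo (-1) 1) :=
    (C04.w_mul_int hn (g := fun t => g t * t ^ 2) (hg.mul (continuous_pow 2))).mono_set Ioo_subset_Icc_self
  refine h1.congr_fun (fun t _ => ?_) measurableSet_Ioo
  simp only [wgt]
  ring

/-- smooth even densities, nonincreasing on `[0,1]` -/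
theorem smooth_even (hn : 3 ≤ n) {g : ℝ → ℝ} (hg : ContDiff ℝ 2 g) (heven : ∀ t, g (-t) = g t)
    (hmono : ∀ t ∈ Icc (0 : ℝ) 1, deriv g t ≤ 0) (hW : 0 ≤ Wt n g) {K : ConvexBody (E n)} (hK : IsSmooth (hS K)) :
    HasBody K g := by
  refine smooth_body hn hg fun u w huw => ?_
  have hW1 := W1_pos hn
  set c : ℝ := Wt n g / W1 n with hc
  have hc0 : 0 ≤ c := div_nonneg hW hW1.le
  set g' : ℝ → ℝ := fun t => g t + (-c) with hg'
  have hd : deriv g' = deriv g := by
    funext s
    simp only [hg', deriv_add_const]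
  have h1 := key_even hn (g := g') (hg.add contDiff_const) (fun t => by simp only [hg', heven])
    (fun t ht => by rw [hd]; exact hmono t ht)
    (by rw [hg', Wt_add_const hn (integrableOn_mul_wgt_of_continuous hn hg.continuous), hc, neg_mul,
          div_mul_cancel₀ _ hW1.ne']; ring) hK huw
  rw [hd] at h1
  have hhc : Continuous (hS K) := continuous_hS K
  have hcu : Continuous (fun v : Sph n => (inner ℝ u (v : E n) : ℝ)) := by fun_prop
  have hcw : Continuous (fun v : Sph n => (inner ℝ w (v : E n) : ℝ)) := by fun_prop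
  obtain ⟨hc1, hc2⟩ := continuous_deriv_one hg
  have i1 : Integrable (fun v : Sph n => hS K v * (g (inner ℝ u (v : E n)) -
      inner ℝ u (v : E n) * deriv g (inner ℝ u (v : E n)) +
      deriv (deriv g) (inner ℝ u (v : E n)) * (inner ℝ w (v : E n)) ^ 2)) (sig n) :=
    integrable_sig (hhc.mul (((hg.continuous.comp hcu).sub (hcu.mul (hc1.comp hcu))).add
      ((hc2.comp hcu).mul (hcw.pow 2))))
  have e1 : ∀ v : Sph n, hS K v * (g' (inner ℝ u (v : E n)) -
      inner ℝ u (v : E n) * deriv g (inner ℝ u (v : E n)) +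
      deriv (deriv g) (inner ℝ u (v : E n)) * (inner ℝ w (v : E n)) ^ 2) =
      hS K v * (g (inner ℝ u (v : E n)) -
      inner ℝ u (v : E n) * deriv g (inner ℝ u (v : E n)) +
      deriv (deriv g) (inner ℝ u (v : E n)) * (inner ℝ w (v : E n)) ^ 2) - c * hS K v := by
    intro v
    simp only [hg']
    ring
  simp_rw [e1] at h1
  rw [integral_sub i1 ((integrable_sig hhc).const_mul c), integral_const_mul] at h1
  have h2 := mul_nonneg hc0 (integral_hS_nonneg K)
  linarith

end

end Pool.Agent.Helper115_ME
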