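import Mathlib
import Pool.Agent.Helper115_ME.UU.Body

/-!
# Even densities which are nonincreasing on `[0,1)`
-/

set_option autoImplicit false

namespace Pool.Agent.Helper115_ME

open MeasureTheory Metric Set Filter Topology
open scoped ContDiff

noncomputable section

variable {n : ℕ}

/-- `g` is even on `(-1,1)` and nonincreasing on `[0,1)` -/
structure EvenAnti (g : ℝ → ℝ) : Prop where
  even : ∀ t ∈ Ioo (-1 : ℝ) 1, g (-t) = g t
  anti : ∀ s t, 0 ≤ s → s ≤ t → t < 1 → g t ≤ g s

theorem EvenAnti.le_zero {g : ℝ → ℝ} (hg : EvenAnti g) {t : ℝ} (ht : t ∈ Ioo (-1 : ℝ) 1) : g t ≤ g 0 := by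
  rcases le_total 0 t with h | h
  · exact hg.anti 0 t le_rfl h ht.2
  · rw [← hg.even t ht]
    exact hg.anti 0 (-t) le_rfl (by linarith) (by linarith [ht.1])

theorem EvenAnti.eq_abs {g : ℝ → ℝ} (hg : EvenAnti g) {t : ℝ} (ht : t ∈ Ioo (-1 : ℝ) 1) : g |t| = g t := by
  rcases le_total 0 t with h | h
  · rw [abs_of_nonneg h]
  · rw [abs_of_nonpos h, hg.even t ht]

theorem EvenAnti.max {g : ℝ → ℝ} (hg : EvenAnti g) (c : ℝ) : EvenAnti (fun t => max (g t) c) :=
  ⟨fun t ht => by rw [hg.even t ht], fun s t hs hst ht => max_le_max_right c (hg.anti s t hs hst ht)⟩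

theorem EvenAnti.add_const {g : ℝ → ℝ} (hg : EvenAnti g) (c : ℝ) : EvenAnti (fun t => g t + c) :=
  ⟨fun t ht => by rw [hg.even t ht], fun s t hs hst ht => by linarith [hg.anti s t hs hst ht]⟩

open Classical in
/-- the antitone function `γ` with `γ(t²) = g(t)` -/
def gam (g : ℝ → ℝ) (C : ℝ) (x : ℝ) : ℝ := if x < 0 then C else if x < 1 then g (√x) else -C

theorem gam_sq {g : ℝ → ℝ} (hg : EvenAnti g) (C : ℝ) {t : ℝ} (ht : t ∈ Ioo (-1 : ℝ) 1) : gam g C (t ^ 2) = g t := by
  have h1 : t ^ 2 < 1 := by nlinarith [ht.1, ht.2]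
  unfold gam
  rw [if_neg (not_lt.2 (sq_nonneg t)), if_pos h1, Real.sqrt_sq_eq_abs, hg.eq_abs ht]

theorem sqrt_mem {x : ℝ} (h1 : x < 1) : √x < 1 := by
  rw [Real.sqrt_lt' one_pos]
  simpa using h1

theorem gam_bound {g : ℝ → ℝ} {C : ℝ} (hC0 : 0 ≤ C) (hC : ∀ t, 0 ≤ t → t < 1 → |g t| ≤ C) (x : ℝ) : |gam g C x| ≤ C := by
  unfold gam
  split_ifs with h1 h2
  · rw [abs_of_nonneg hC0]
  · exact hC _ (Real.sqrt_nonneg x) (sqrt_mem h2)
  · rw [abs_neg, abs_of_nonneg hC0]

theorem gam_antitone {g : ℝ → ℝ} (hg : EvenAnti g) {C : ℝ} (hC0 : 0 ≤ C)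
    (hC : ∀ t, 0 ≤ t → t < 1 → |g t| ≤ C) : Antitone (gam g C) := by
  intro x y hxy
  have hb : ∀ z, -C ≤ gam g C z ∧ gam g C z ≤ C := fun z => abs_le.1 (gam_bound hC0 hC z)
  by_cases hx : x < 0
  · have : gam g C x = C := by unfold gam; rw [if_pos hx]
    rw [this]
    exact (hb y).2
  by_cases hy : y < 1
  · have e1 : gam g C x = g (√x) := by
      unfold gam; rw [if_neg hx, if_pos (lt_of_le_of_lt hxy hy)]
    have hy0 : ¬ y < 0 := fun h => hx (lt_of_le_of_lt hxy h)
    have e2 : gam g C y = g (√y) := by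
      unfold gam; rw [if_neg hy0, if_pos hy]
    rw [e1, e2]
    exact hg.anti _ _ (Real.sqrt_nonneg x) (Real.sqrt_le_sqrt hxy) (sqrt_mem hy)
  · have hy0 : ¬ y < 0 := by
      intro h
      exact hy (by linarith)
    have : gam g C y = -C := by unfold gam; rw [if_neg hy0, if_neg hy]
    rw [this]
    exact (hb x).1

/-- smooth approximation -/
theorem exists_smooth_even {g : ℝ → ℝ} (hg : EvenAnti g) {C : ℝ} (hC0 : 0 ≤ C)
    (hC : ∀ t, 0 ≤ t → t < 1 → |g t| ≤ C) :
    ∃ (G : ℕ → ℝ → ℝ) (N : Set ℝ), (∀ j, ContDiff ℝ 2 (G j)) ∧ (∀ j t, G j (-t) = G j t) ∧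
      (∀ j, ∀ t ∈ Icc (0 : ℝ) 1, deriv (G j) t ≤ 0) ∧ (∀ j t, |G j t| ≤ C) ∧ volume N = 0 ∧
      ∀ t ∈ Ioo (-1 : ℝ) 1, t ∉ N → Tendsto (fun j => G j t) atTop (𝓝 (g t)) := by
  obtain ⟨Γ, h1, h2, h3, h4⟩ := UU.exists_smooth_antitone (gam g C) (gam_antitone hg hC0 hC) C (gam_bound hC0 hC)
  have hcount := (gam_antitone hg hC0 hC).countable_not_continuousAt
  set D : Set ℝ := {x | ¬ContinuousAt (gam g C) x} with hD
  have hNc : ((fun t : ℝ => t ^ 2) ⁻¹' D).Countable := by
    have hsub : (fun t : ℝ => t ^ 2) ⁻¹' D ⊆ (Real.sqrt '' D) ∪ ((fun x => -√x) '' D) := by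
      intro t ht
      rcases le_total 0 t with h | h
      · left
        exact ⟨t ^ 2, ht, Real.sqrt_sq h⟩
      · right
        refine ⟨t ^ 2, ht, ?_⟩
        show -√(t ^ 2) = t
        rw [Real.sqrt_sq_eq_abs, abs_of_nonpos h, neg_neg]
    exact ((hcount.image _).union (hcount.image _)).mono hsub
  refine ⟨fun j t => Γ j (t ^ 2), (fun t : ℝ => t ^ 2) ⁻¹' D, ?_, ?_, ?_, ?_, hNc.measure_zero _, ?_⟩
  · intro j
    exact ((h1 j).of_le two_le_infty).comp (contDiff_id.pow 2)
  · intro j t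
    simp only [neg_sq]
  · intro j t ht
    have hd : HasDerivAt (fun t : ℝ => Γ j (t ^ 2)) (deriv (Γ j) (t ^ 2) * (2 * t)) t := by
      have e1 : HasDerivAt (Γ j) (deriv (Γ j) (t ^ 2)) (t ^ 2) :=
        ((h1 j).differentiable (by simp) (t ^ 2)).hasDerivAt
      have e2 : HasDerivAt (fun t : ℝ => t ^ 2) (2 * t) t := by
        simpa using hasDerivAt_pow 2 t
      exact HasDerivAt.comp (h₂ := Γ j) (h := fun t : ℝ => t ^ 2) t e1 e2
    rw [hd.deriv]
    exact mul_nonpos_of_nonpos_of_nonneg ((h2 j).deriv_nonpos) (by linarith [ht.1])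
  · intro j t
    exact h3 j _
  · intro t ht htN
    have h5 : ContinuousAt (gam g C) (t ^ 2) := by
      by_contra hcon
      exact htN hcon
    have h6 := h4 _ h5
    rwa [gam_sq hg C ht] at h6

/-- the set of bad directions is null -/
theorem ae_notMem (hn : 3 ≤ n) {u : E n} (hu : ‖u‖ = 1) {N : Set ℝ} (hN : volume N = 0) :
    ∀ᵐ v : Sph n ∂(sig n), (inner ℝ u (v : E n) : ℝ) ∉ N := by
  rw [ae_iff]
  simpa using UU.null_inner hn hu hN

/-- bounded even densities -/
theorem bounded_even (hn : 3 ≤ n) {g : ℝ → ℝ} (hg : EvenAnti g) {C : ℝ} (hC0 : 0 ≤ C)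
    (hC : ∀ t, 0 ≤ t → t < 1 → |g t| ≤ C) (hW : 0 ≤ Wt n g) {K : ConvexBody (E n)} (hK : IsSmooth (hS K)) :
    HasBody K g := by
  obtain ⟨G, N, hG1, hG2, hG3, hG4, hN, hG5⟩ := exists_smooth_even hg hC0 hC
  have hW1 := W1_pos hn
  have hwi := integrableOn_wgt (n := n) hn
  have hNae : ∀ᵐ t : ℝ ∂(volume.restrict (Ioo (-1 : ℝ) 1)), t ∉ N := by
    refine ae_restrict_of_ae ?_
    rw [ae_iff]
    simpa using hN
  have hlimW : Tendsto (fun j => Wt n (G j)) atTop (𝓝 (Wt n g)) := by
    simp_rw [Wt_eq]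
    refine tendsto_integral_of_dominated_convergence (fun t => C * wgt n t) ?_ (hwi.const_mul _) ?_ ?_
    · intro j
      exact ((hG1 j).continuous.measurable.mul measurable_wgt).aestronglyMeasurable
    · intro j
      filter_upwards [ae_restrict_mem measurableSet_Ioo] with t ht
      have h1 := wgt_nonneg (n := n) (t := t) ⟨ht.1.le, ht.2.le⟩
      rw [norm_mul, Real.norm_of_nonneg h1, Real.norm_eq_abs]
      exact mul_le_mul_of_nonneg_right (hG4 j t) h1
    · filter_upwards [ae_restrict_mem measurableSet_Ioo, hNae] with t ht htN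
      exact (hG5 t ht htN).mul_const _
  set δ : ℕ → ℝ := fun j => max 0 (-(Wt n (G j) / W1 n)) with hδ
  have hδ0 : Tendsto δ atTop (𝓝 0) := by
    have h1 : Tendsto δ atTop (𝓝 (max 0 (-(Wt n g / W1 n)))) :=
      (tendsto_const_nhds).max ((hlimW.div_const _).neg)
    have h2 : max 0 (-(Wt n g / W1 n)) = 0 := by
      refine max_eq_left ?_
      have := div_nonneg hW hW1.le
      linarith
    rwa [h2] at h1
  have hbody : ∀ j, HasBody K (fun t => G j t + δ j) := by
    intro j
    have hd : deriv (fun t => G j t + δ j) = deriv (G j) := by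
      funext s
      simp only [deriv_add_const]
    refine smooth_even hn ((hG1 j).add contDiff_const) (fun t => by simp only [hG2]) ?_ ?_ hK
    · intro t ht
      rw [hd]
      exact hG3 j t ht
    · rw [Wt_add_const hn (integrableOn_mul_wgt_of_continuous hn (hG1 j).continuous)]
      have h2 : -(Wt n (G j) / W1 n) ≤ δ j := le_max_right _ _
      have h3 : -(Wt n (G j) / W1 n) * W1 n ≤ δ j * W1 n := mul_le_mul_of_nonneg_right h2 hW1.le
      have h4 : Wt n (G j) / W1 n * W1 n = Wt n (G j) := div_mul_cancel₀ _ hW1.ne'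
      linarith
  refine HasBody.limit hbody fun u hu => ?_
  have hcu : Continuous (fun v : Sph n => (inner ℝ u (v : E n) : ℝ)) := by fun_prop
  have hi : ∀ j, Integrable (fun v : Sph n => hS K v * G j (inner ℝ u (v : E n))) (sig n) := fun j =>
    integrable_sig ((continuous_hS K).mul ((hG1 j).continuous.comp hcu))
  have h1 : ∀ j, ∫ v : Sph n, hS K v * (G j (inner ℝ u (v : E n)) + δ j) ∂(sig n) =
      (∫ v : Sph n, hS K v * G j (inner ℝ u (v : E n)) ∂(sig n)) + δ j * ∫ v : Sph n, hS K v ∂(sig n) := by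
    intro j
    rw [← integral_const_mul, ← integral_add (hi j) ((integrable_sig (continuous_hS K)).const_mul _)]
    congr 1
    funext v
    ring
  simp_rw [h1]
  have h3 : (∫ v : Sph n, hS K v * g (inner ℝ u (v : E n)) ∂(sig n)) =
      (∫ v : Sph n, hS K v * g (inner ℝ u (v : E n)) ∂(sig n)) + 0 * ∫ v : Sph n, hS K v ∂(sig n) := by ring
  rw [h3]
  refine Tendsto.add ?_ (hδ0.mul_const _)
  obtain ⟨R, hR⟩ : ∃ R, ∀ v, |hS K v| ≤ R := by
    obtain ⟨R, hR⟩ := (isCompact_univ.image (continuous_hS K)).isBounded.subset_closedBall 0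
    refine ⟨R, fun v => ?_⟩
    have := hR (mem_image_of_mem _ (mem_univ v))
    simpa using this
  refine tendsto_integral_of_dominated_convergence (fun _ => R * C) (fun j => (hi j).aestronglyMeasurable)
    (integrable_const _) ?_ ?_
  · intro j
    refine Eventually.of_forall fun v => ?_
    rw [norm_mul, Real.norm_eq_abs, Real.norm_eq_abs]
    exact mul_le_mul (hR v) (hG4 j _) (abs_nonneg _) ((abs_nonneg _).trans (hR v))
  · filter_upwards [ae_mem_Ioo (by omega) hu, ae_notMem hn hu hN] with v hv hvN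
    exact (hG5 _ hv hvN).const_mul _

/-- unbounded even densities -/
theorem general_even (hn : 3 ≤ n) (e : Sph n) {g : ℝ → ℝ} (hg : EvenAnti g)
    (hgint : Integrable (fun v : Sph n => g (inner ℝ (e : E n) (v : E n))) (sig n))
    (hgi : IntegrableOn (fun t => g t * wgt n t) (Ioo (-1) 1)) (hW : 0 ≤ Wt n g)
    {K : ConvexBody (E n)} (hK : IsSmooth (hS K)) : HasBody K g := by
  have hW1 := W1_pos hn
  have hwi := integrableOn_wgt (n := n) hn
  set G : ℕ → ℝ → ℝ := fun k t => max (g t) (-(k : ℝ)) with hG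
  have hk0 : ∀ k : ℕ, (0 : ℝ) ≤ k := fun k => Nat.cast_nonneg k
  have hGabs : ∀ k t, |G k t| ≤ |g t| := by
    intro k t
    simp only [hG]
    rcases le_total (g t) (-(k : ℝ)) with h | h
    · rw [max_eq_right h, abs_neg, abs_of_nonneg (hk0 k)]
      have := neg_abs_le (g t)
      linarith
    · rw [max_eq_left h]
  have hGlim : ∀ t, Tendsto (fun k => G k t) atTop (𝓝 (g t)) := by
    intro t
    refine tendsto_const_nhds.congr' ?_
    obtain ⟨N₀, hN₀⟩ := exists_nat_ge (-(g t))
    filter_upwards [eventually_ge_atTop N₀] with N hN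
    have h1 : (N₀ : ℝ) ≤ N := by exact_mod_cast hN
    simp only [hG]
    rw [max_eq_left (by linarith)]
  have hGea : ∀ k, EvenAnti (G k) := fun k => hg.max _
  have hGb : ∀ k, ∀ t, 0 ≤ t → t < 1 → |G k t| ≤ |g 0| + k := by
    intro k t ht0 ht1
    have h1 : g t ≤ g 0 := hg.anti 0 t le_rfl ht0 ht1
    have h2 := le_abs_self (g 0)
    have h3 := abs_nonneg (g 0)
    simp only [hG]
    rw [abs_le]
    constructor
    · have := le_max_right (g t) (-(k : ℝ))
      linarith
    · exact max_le (by linarith [hk0 k]) (by linarith [hk0 k])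
  have hGwm : ∀ k, AEStronglyMeasurable (fun t => G k t * wgt n t) (volume.restrict (Ioo (-1 : ℝ) 1)) := by
    intro k
    -- `G k t * w = max (g t * w) (-k w)` as `w ≥ 0`
    have h1 : AEStronglyMeasurable (fun t => max (g t * wgt n t) (-(k : ℝ) * wgt n t)) (volume.restrict (Ioo (-1 : ℝ) 1)) :=
      hgi.aestronglyMeasurable.sup (measurable_wgt.const_mul _).aestronglyMeasurable
    refine h1.congr ?_
    filter_upwards [ae_restrict_mem measurableSet_Ioo] with t ht
    have h2 := wgt_nonneg (n := n) (t := t) ⟨ht.1.le, ht.2.le⟩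
    simp only [hG]
    rw [max_mul_of_nonneg _ _ h2]
  have hGwi : ∀ k, IntegrableOn (fun t => G k t * wgt n t) (Ioo (-1) 1) := by
    intro k
    refine Integrable.mono hgi (hGwm k) ?_
    refine Eventually.of_forall fun t => ?_
    rw [norm_mul, norm_mul]
    exact mul_le_mul_of_nonneg_right (hGabs k t) (norm_nonneg _)
  have hlimW : Tendsto (fun j => Wt n (G j)) atTop (𝓝 (Wt n g)) := by
    simp_rw [Wt_eq]
    refine tendsto_integral_of_dominated_convergence (fun t => ‖g t * wgt n t‖) hGwm hgi.norm ?_ ?_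
    · intro j
      refine Eventually.of_forall fun t => ?_
      rw [norm_mul, norm_mul]
      exact mul_le_mul_of_nonneg_right (hGabs j t) (norm_nonneg _)
    · exact Eventually.of_forall fun t => (hGlim t).mul_const _
  set δ : ℕ → ℝ := fun j => max 0 (-(Wt n (G j) / W1 n)) with hδ
  have hδ0 : Tendsto δ atTop (𝓝 0) := by
    have h1 : Tendsto δ atTop (𝓝 (max 0 (-(Wt n g / W1 n)))) :=
      (tendsto_const_nhds).max ((hlimW.div_const _).neg)
    have h2 : max 0 (-(Wt n g / W1 n)) = 0 := by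
      refine max_eq_left ?_
      have := div_nonneg hW hW1.le
      linarith
    rwa [h2] at h1
  have hδnn : ∀ j, 0 ≤ δ j := fun j => le_max_left _ _
  have hbody : ∀ j, HasBody K (fun t => G j t + δ j) := by
    intro j
    refine bounded_even hn ((hGea j).add_const (δ j)) (C := |g 0| + j + δ j)
      (by have := hδnn j; have := hk0 j; positivity) ?_ ?_ hK
    · intro t ht0 ht1
      refine (abs_add_le _ _).trans ?_
      rw [abs_of_nonneg (hδnn j)]
      linarith [hGb j t ht0 ht1]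
    · rw [Wt_add_const hn (hGwi j)]
      have h2 : -(Wt n (G j) / W1 n) ≤ δ j := le_max_right _ _
      have h3 : -(Wt n (G j) / W1 n) * W1 n ≤ δ j * W1 n := mul_le_mul_of_nonneg_right h2 hW1.le
      have h4 : Wt n (G j) / W1 n * W1 n = Wt n (G j) := div_mul_cancel₀ _ hW1.ne'
      linarith
  refine HasBody.limit hbody fun u hu => ?_
  have hgu := integrable_all_directions (by omega) e hgint hu
  have hGm : ∀ j, AEStronglyMeasurable (fun v : Sph n => G j (inner ℝ u (v : E n))) (sig n) := by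
    intro j
    simp only [hG]
    exact hgu.aestronglyMeasurable.sup aestronglyMeasurable_const
  have hGi : ∀ j, Integrable (fun v : Sph n => G j (inner ℝ u (v : E n))) (sig n) := fun j =>
    hgu.mono (hGm j) (Eventually.of_forall fun v => hGabs j _)
  have hi : ∀ j, Integrable (fun v : Sph n => hS K v * G j (inner ℝ u (v : E n))) (sig n) := fun j =>
    integrable_mul_density (hGi j) (continuous_hS K)
  have h1 : ∀ j, ∫ v : Sph n, hS K v * (G j (inner ℝ u (v : E n)) + δ j) ∂(sig n) =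
      (∫ v : Sph n, hS K v * G j (inner ℝ u (v : E n)) ∂(sig n)) + δ j * ∫ v : Sph n, hS K v ∂(sig n) := by
    intro j
    rw [← integral_const_mul, ← integral_add (hi j) ((integrable_sig (continuous_hS K)).const_mul _)]
    congr 1
    funext v
    ring
  simp_rw [h1]
  have h3 : (∫ v : Sph n, hS K v * g (inner ℝ u (v : E n)) ∂(sig n)) =
      (∫ v : Sph n, hS K v * g (inner ℝ u (v : E n)) ∂(sig n)) + 0 * ∫ v : Sph n, hS K v ∂(sig n) := by ring
  rw [h3]
  refine Tendsto.add ?_ (hδ0.mul_const _)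
  refine tendsto_integral_of_dominated_convergence (fun v => ‖hS K v * g (inner ℝ u (v : E n))‖)
    (fun j => (hi j).aestronglyMeasurable) (integrable_mul_density hgu (continuous_hS K)).norm ?_ ?_
  · intro j
    refine Eventually.of_forall fun v => ?_
    rw [norm_mul, norm_mul]
    exact mul_le_mul_of_nonneg_left (hGabs j _) (norm_nonneg _)
  · exact Eventually.of_forall fun v => (hGlim _).const_mul _

end

end Pool.Agent.Helper115_ME
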