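import Mathlib
import Pool.Agent.Helper115_ME.UU.Even
import Pool.Agent.Helper115_ME.CC.OpenSuff

/-!
# Necessity of the segment condition for general densities
-/

set_option autoImplicit false

namespace Pool.Agent.Helper115_ME

open MeasureTheory Metric Set Filter Topology
open scoped ContDiff

noncomputable section

variable {n : ℕ}

/-- integrability for bounded measurable densities -/
theorem integrable_density' {g : ℝ → ℝ} (hgb : ∃ C, ∀ t, |g t| ≤ C) (hgm : Measurable g)
    (u : E n) {F : Sph n → ℝ} (hF : Continuous F) :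
    Integrable (fun v : Sph n => F v * g (inner ℝ u (v : E n))) (sig n) := by
  obtain ⟨C, hC⟩ := hgb
  have hcu : Continuous (fun v : Sph n => (inner ℝ u (v : E n) : ℝ)) := by fun_prop
  refine integrable_mul_density ?_ hF
  exact (integrable_const C).mono' (hgm.comp hcu.measurable).aestronglyMeasurable
    (Eventually.of_forall fun v => by rw [Real.norm_eq_abs]; exact hC _)

/-- necessity, for densities which are bounded above, measurable and almost everywhere continuous -/
theorem necessity_gen (hn : 3 ≤ n) (e : Sph n) {g : ℝ → ℝ} (hgm : Measurable g)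
    (hgc : ∀ᵐ t : ℝ, t ∈ Ioo (-1 : ℝ) 1 → ContinuousAt g t) {M : ℝ} (hM0 : 0 ≤ M)
    (hM : ∀ t ∈ Ioo (-1 : ℝ) 1, g t ≤ M)
    (hgint : Integrable (fun v : Sph n => g (inner ℝ (e : E n) (v : E n))) (sig n)) {μ : Distr n}
    (hμ : ∀ f : SmoothFun n, val μ f = ∫ v : Sph n, f.1 v * g (inner ℝ (e : E n) (v : E n)) ∂(sig n))
    {T : Body n → Body n} (hT : Generates e μ T) :
    IntegrableOn (fun t => g t * wgt n t) (Ioo (-1) 1) ∧ 0 ≤ Wt n g := by
  obtain ⟨w, hw⟩ := exists_perp_one hn e
  have hmem : ∀ᵐ v : Sph n ∂(sig n), (inner ℝ (e : E n) (v : E n) : ℝ) ∈ Ioo (-1 : ℝ) 1 :=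
    ae_mem_Ioo (by omega) (norm_coe_sph e)
  classical
  -- truncations
  set gN : ℕ → ℝ → ℝ := fun N t => if t ∈ Ioo (-1 : ℝ) 1 then max (g t) (-(N : ℝ)) else 0 with hgN
  have hgN1 : ∀ N, ∀ t ∈ Ioo (-1 : ℝ) 1, gN N t = max (g t) (-(N : ℝ)) := fun N t ht => by
    simp only [hgN, ht, if_true]
  have hgNb : ∀ N, ∀ t, |gN N t| ≤ M + N := by
    intro N t
    have hN : (0 : ℝ) ≤ N := Nat.cast_nonneg N
    by_cases ht : t ∈ Ioo (-1 : ℝ) 1
    · rw [hgN1 N t ht, abs_le]
      refine ⟨?_, ?_⟩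
      · have := le_max_right (g t) (-(N : ℝ))
        linarith
      · refine max_le ?_ ?_
        · linarith [hM t ht]
        · linarith
    · simp only [hgN, ht, if_false, abs_zero]; positivity
  have hgNm' : ∀ N, Measurable (gN N) := fun N =>
    Measurable.ite measurableSet_Ioo (hgm.max measurable_const) measurable_const
  have hgNc : ∀ N, ∀ᵐ t : ℝ, t ∈ Ioo (-1 : ℝ) 1 → ContinuousAt (gN N) t := by
    intro N
    filter_upwards [hgc] with t ht hmem
    have h1 : ContinuousAt (fun t => max (g t) (-(N : ℝ))) t := (ht hmem).max continuousAt_const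
    refine h1.congr ?_
    filter_upwards [isOpen_Ioo.mem_nhds hmem] with s hs
    exact (hgN1 N s hs).symm
  have hWN : ∀ N, 0 ≤ Wt n (gN N) := by
    intro N
    refine UU.weight_nonneg' hn (gN N) ⟨M + N, fun t _ => hgNb N t⟩ (hgNm' N) (hgNc N) (e : E n) w hw fun z hz => ?_
    refine (segment_test e hw hgint hμ hT hz).trans ?_
    have hcm : Continuous fun v : Sph n => max (z * |inner ℝ (e : E n) (v : E n)| - |inner ℝ w (v : E n)|) 0 := by
      have h1 : Continuous fun v : Sph n => |(inner ℝ (e : E n) (v : E n) : ℝ)| := by fun_prop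
      have h2 : Continuous fun v : Sph n => |(inner ℝ w (v : E n) : ℝ)| := by fun_prop
      exact ((continuous_const.mul h1).sub h2).max continuous_const
    refine integral_mono_ae (integrable_mul_density hgint hcm)
      (integrable_density' ⟨M + N, hgNb N⟩ (hgNm' N) (e : E n) hcm) ?_
    filter_upwards [hmem] with v hv
    refine mul_le_mul_of_nonneg_left ?_ (le_max_right _ _)
    rw [hgN1 N _ hv]
    exact le_max_left _ _
  -- monotone limit
  set F : ℕ → ℝ → ℝ := fun N t => (M - gN N t) * wgt n t with hF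
  have hwi := integrableOn_wgt (n := n) hn
  have hgNm : ∀ N, AEStronglyMeasurable (gN N) (volume.restrict (Ioo (-1 : ℝ) 1)) := fun N =>
    (hgNm' N).aestronglyMeasurable
  have hgNi : ∀ N, IntegrableOn (fun t => gN N t * wgt n t) (Ioo (-1) 1) := fun N =>
    hwi.bdd_mul (hgNm N) (Eventually.of_forall fun t => by rw [Real.norm_eq_abs]; exact hgNb N t)
  have hFi : ∀ N, IntegrableOn (F N) (Ioo (-1) 1) := fun N => by
    have h1 : F N = fun t => M * wgt n t - gN N t * wgt n t := by
      funext t; simp only [hF]; ring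
    rw [h1]
    exact (hwi.const_mul M).sub (hgNi N)
  have hFint : ∀ N, ∫ t in Ioo (-1 : ℝ) 1, F N t ≤ M * W1 n := by
    intro N
    have h1 : ∀ t, F N t = M * wgt n t - gN N t * wgt n t := by
      intro t; simp only [hF]; ring
    simp_rw [h1]
    rw [integral_sub (hwi.const_mul M) (hgNi N), integral_const_mul, ← W1_eq, ← Wt_eq]
    linarith [hWN N]
  have hFnn : ∀ N, ∀ t ∈ Ioo (-1 : ℝ) 1, 0 ≤ F N t := by
    intro N t ht
    refine mul_nonneg ?_ (wgt_nonneg ⟨ht.1.le, ht.2.le⟩)
    rw [hgN1 N t ht]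
    have hN : (0 : ℝ) ≤ N := Nat.cast_nonneg N
    have : max (g t) (-(N : ℝ)) ≤ M := max_le (hM t ht) (by linarith)
    linarith
  have hlim : ∀ t ∈ Ioo (-1 : ℝ) 1, ∀ᶠ N in atTop, F N t = (M - g t) * wgt n t := by
    intro t ht
    obtain ⟨N₀, hN₀⟩ := exists_nat_ge (-(g t))
    filter_upwards [eventually_ge_atTop N₀] with N hN
    have h1 : -(N : ℝ) ≤ g t := by
      have : (N₀ : ℝ) ≤ N := by exact_mod_cast hN
      linarith
    simp only [hF]
    rw [hgN1 N t ht, max_eq_left h1]
  have hgm2 : AEStronglyMeasurable (fun t => (M - g t) * wgt n t) (volume.restrict (Ioo (-1 : ℝ) 1)) :=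
    ((measurable_const.sub hgm).mul measurable_wgt).aestronglyMeasurable
  have hnn : ∀ᵐ t ∂(volume.restrict (Ioo (-1 : ℝ) 1)), 0 ≤ (M - g t) * wgt n t := by
    filter_upwards [ae_restrict_mem measurableSet_Ioo] with t ht
    exact mul_nonneg (by linarith [hM t ht]) (wgt_nonneg ⟨ht.1.le, ht.2.le⟩)
  have hlint : ∫⁻ t in Ioo (-1 : ℝ) 1, ENNReal.ofReal ((M - g t) * wgt n t) ≤ ENNReal.ofReal (M * W1 n) := by
    have h1 : ∫⁻ t in Ioo (-1 : ℝ) 1, ENNReal.ofReal ((M - g t) * wgt n t) =
        ∫⁻ t in Ioo (-1 : ℝ) 1, liminf (fun N => ENNReal.ofReal (F N t)) atTop := by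
      refine lintegral_congr_ae ?_
      filter_upwards [ae_restrict_mem measurableSet_Ioo] with t ht
      have h2 : Tendsto (fun N => ENNReal.ofReal (F N t)) atTop (𝓝 (ENNReal.ofReal ((M - g t) * wgt n t))) := by
        refine tendsto_const_nhds.congr' ?_
        filter_upwards [hlim t ht] with N hN
        rw [hN]
      exact h2.liminf_eq.symm
    rw [h1]
    refine (lintegral_liminf_le' fun N => (hFi N).aestronglyMeasurable.aemeasurable.ennreal_ofReal).trans ?_
    refine liminf_le_of_le (by isBoundedDefault) fun b hb => ?_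
    obtain ⟨N, hN⟩ := hb.exists
    refine hN.trans ?_
    rw [← ofReal_integral_eq_lintegral_ofReal (hFi N) ?_]
    · exact ENNReal.ofReal_le_ofReal (hFint N)
    · filter_upwards [ae_restrict_mem measurableSet_Ioo] with t ht
      exact hFnn N t ht
  have hint : IntegrableOn (fun t => (M - g t) * wgt n t) (Ioo (-1) 1) := by
    refine ⟨hgm2, ?_⟩
    rw [hasFiniteIntegral_iff_ofReal hnn]
    exact hlint.trans_lt ENNReal.ofReal_lt_top
  have hgi : IntegrableOn (fun t => g t * wgt n t) (Ioo (-1) 1) := by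
    have h1 := (hwi.const_mul M).sub hint
    refine h1.congr (Eventually.of_forall fun t => ?_)
    simp only [Pi.sub_apply]
    ring
  refine ⟨hgi, ?_⟩
  have h3 : ∫ t in Ioo (-1 : ℝ) 1, (M - g t) * wgt n t ≤ M * W1 n := by
    have h4 : (0 : ℝ) ≤ M * W1 n := mul_nonneg hM0 (W1_pos hn).le
    rw [← ENNReal.ofReal_le_ofReal_iff h4, ofReal_integral_eq_lintegral_ofReal hint hnn]
    exact hlint
  have h5 : ∀ t, (M - g t) * wgt n t = M * wgt n t - g t * wgt n t := fun t => by ring
  simp_rw [h5] at h3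
  rw [integral_sub (hwi.const_mul M) hgi, integral_const_mul, ← W1_eq, ← Wt_eq] at h3
  linarith

/-- the extension by zero of a continuous function on `(-1,1)` is measurable -/
theorem measurable_ext_of_continuousOn {g : ℝ → ℝ} (hg : ContinuousOn g (Ioo (-1 : ℝ) 1)) :
    Measurable (fun t => if t ∈ Ioo (-1 : ℝ) 1 then g t else 0) := by
  have h1 : Measurable ((Ioo (-1 : ℝ) 1).piecewise g (fun _ => (0 : ℝ))) :=
    hg.measurable_piecewise continuousOn_const measurableSet_Ioo
  exact h1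

theorem EvenAnti.measurable_ext {g : ℝ → ℝ} (hg : EvenAnti g) :
    Measurable (fun t => if t ∈ Ioo (-1 : ℝ) 1 then g t else 0) := by
  classical
  have h1 : Measurable (fun x : Ico (0 : ℝ) 1 => g x) := by
    have : Antitone (fun x : Ico (0 : ℝ) 1 => g x) := fun x y hxy => hg.anti x y x.2.1 hxy y.2.2
    exact this.measurable
  have h2 : Measurable (fun x : ℝ => if hx : x ∈ Ico (0 : ℝ) 1 then g x else 0) :=
    Measurable.dite (f := fun x : Ico (0 : ℝ) 1 => g x) (g := fun _ => (0 : ℝ)) h1 measurable_const measurableSet_Ico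
  have h3 := h2.comp measurable_abs
  have h4 : (fun t => if t ∈ Ioo (-1 : ℝ) 1 then g t else 0) =
      (fun x : ℝ => if hx : x ∈ Ico (0 : ℝ) 1 then g x else 0) ∘ abs := by
    funext t
    simp only [Function.comp]
    by_cases ht : t ∈ Ioo (-1 : ℝ) 1
    · have h5 : |t| ∈ Ico (0 : ℝ) 1 := ⟨abs_nonneg t, abs_lt.2 ht⟩
      rw [if_pos ht, dif_pos h5, hg.eq_abs ht]
    · have h5 : ¬ |t| ∈ Ico (0 : ℝ) 1 := fun h => ht (abs_lt.1 h.2)
      rw [if_neg ht, dif_neg h5]
  rw [h4]
  exact h3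

/-- an even function, nonincreasing on `[0,1)`, is continuous almost everywhere -/
theorem EvenAnti.ae_continuousAt {g : ℝ → ℝ} (hg : EvenAnti g) :
    ∀ᵐ t : ℝ, t ∈ Ioo (-1 : ℝ) 1 → ContinuousAt g t := by
  have h1 : AntitoneOn g (Ioo 0 1) := fun s hs t ht hst => hg.anti s t hs.1.le hst ht.2
  have h2 : MonotoneOn g (Ioo (-1) 0) := fun s hs t ht hst => by
    rw [← hg.even s ⟨hs.1, hs.2.trans one_pos⟩, ← hg.even t ⟨ht.1, ht.2.trans one_pos⟩]
    exact hg.anti (-t) (-s) (by linarith [ht.2]) (by linarith) (by linarith [hs.1])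
  have c1 := h1.countable_not_continuousWithinAt
  have c2 := h2.countable_not_continuousWithinAt
  have c3 : (({x | x ∈ Ioo (0 : ℝ) 1 ∧ ¬ContinuousWithinAt g (Ioo 0 1) x} ∪
      {x | x ∈ Ioo (-1 : ℝ) 0 ∧ ¬ContinuousWithinAt g (Ioo (-1) 0) x}) ∪ {0}).Countable :=
    (c1.union c2).union (countable_singleton 0)
  have c4 := c3.ae_notMem volume
  filter_upwards [c4] with t ht hmem
  by_contra hcon
  apply ht
  rcases lt_trichotomy t 0 with h | h | h
  · left; right
    refine ⟨⟨hmem.1, h⟩, fun hc => hcon (hc.continuousAt (isOpen_Ioo.mem_nhds ⟨hmem.1, h⟩))⟩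
  · right; exact h
  · left; left
    refine ⟨⟨h, hmem.2⟩, fun hc => hcon (hc.continuousAt (isOpen_Ioo.mem_nhds ⟨h, hmem.2⟩))⟩

end

end Pool.Agent.Helper115_ME
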