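import Mathlib
import Pool.Agent.Helper115_ME.UU.Nec2
import Pool.Agent.Helper115_ME.CC.Final

/-!
# Sums of concave densities and of even densities nonincreasing on `[0,1)`
-/

set_option autoImplicit false

namespace Pool.Agent.Helper115_ME

open MeasureTheory Metric Set Filter Topology
open scoped ContDiff

noncomputable section

variable {n : ℕ}

/-- densities matter on `(-1,1)` only -/
theorem HasBody.congr (hn : 2 ≤ n) {K : ConvexBody (E n)} {g g' : ℝ → ℝ} (h : HasBody K g)
    (hgg : ∀ t ∈ Ioo (-1 : ℝ) 1, g t = g' t) : HasBody K g' := by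
  obtain ⟨L, hL⟩ := h
  refine ⟨L, fun u => ?_⟩
  rw [hL]
  refine integral_congr_ae ?_
  filter_upwards [ae_mem_Ioo hn (norm_coe_sph u)] with v hv
  simp only [hgg _ hv]

/-- the map generated by a density all of whose images are convex bodies -/
theorem generates_of_hasBody (hn : 3 ≤ n) (e : Sph n) {g : ℝ → ℝ}
    (hgint : Integrable (fun v : Sph n => g (inner ℝ (e : E n) (v : E n))) (sig n)) {μ : Distr n}
    (hμ : ∀ f : SmoothFun n, val μ f = ∫ v : Sph n, f.1 v * g (inner ℝ (e : E n) (v : E n)) ∂(sig n))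
    (hB : ∀ K : ConvexBody (E n), IsSmooth (hS K) → HasBody K g) :
    ∃ T : Body n → Body n, Admissible T ∧ Generates e μ T := by
  -- the functional
  set G : Sph n → ℝ := fun v => g (inner ℝ (e : E n) (v : E n)) with hG
  let Λ₀ : C(Sph n, ℝ) →ₗ[ℝ] ℝ :=
    { toFun := fun f => ∫ v, f v * G v ∂(sig n)
      map_add' := fun f f' => by
        rw [← integral_add (integrable_mul_density hgint f.continuous)
          (integrable_mul_density hgint f'.continuous)]
        congr 1
        funext v
        show (f v + f' v) * G v = _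
        ring
      map_smul' := fun c f => by
        rw [RingHom.id_apply, smul_eq_mul, ← integral_const_mul]
        congr 1
        funext v
        show (c * f v) * G v = _
        ring }
  let Λ : C(Sph n, ℝ) →L[ℝ] ℝ := Λ₀.mkContinuous (∫ v, |G v| ∂(sig n)) fun f => by
    show ‖∫ v, f v * G v ∂(sig n)‖ ≤ _
    refine (norm_integral_le_integral_norm _).trans ?_
    rw [← integral_mul_const]
    refine integral_mono (integrable_mul_density hgint f.continuous).norm (hgint.norm.mul_const _) fun v => ?_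
    show ‖f v * G v‖ ≤ |G v| * ‖f‖
    rw [norm_mul, mul_comm, Real.norm_eq_abs (G v)]
    exact mul_le_mul_of_nonneg_left (f.norm_coe_le_norm v) (abs_nonneg _)
  have hL : ∀ K : ConvexBody (E n), IsSmooth (hS K) →
      ∃ L : ConvexBody (E n), ∀ ϑ : E n ≃ₗᵢ[ℝ] E n, IsRot ϑ → hS L (act ϑ e) = Λ (hSC K ϑ) := by
    intro K hK
    obtain ⟨L, hL⟩ := hB K hK
    refine ⟨L, fun ϑ _ => ?_⟩
    rw [hL]
    show ∫ v : Sph n, hS K v * g (inner ℝ (ϑ (e : E n)) (v : E n)) ∂(sig n) = ∫ v, hS K (act ϑ v) * G v ∂(sig n)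
    have hmp : MeasurePreserving (act ϑ) (sig n) (sig n) := ⟨(continuous_act ϑ).measurable, map_act ϑ⟩
    have hint : Integrable (fun v : Sph n => hS K v * g (inner ℝ (ϑ (e : E n)) (v : E n))) (sig n) :=
      integrable_mul_density (integrable_all_directions (by omega) e hgint
        (by rw [LinearIsometryEquiv.norm_map]; exact norm_coe_sph e)) (continuous_hS K)
    have h1 : ∫ v : Sph n, hS K v * g (inner ℝ (ϑ (e : E n)) (v : E n)) ∂(sig n) =
        ∫ v : Sph n, hS K (act ϑ v) * g (inner ℝ (ϑ (e : E n)) (act ϑ v : E n)) ∂(sig n) := by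
      conv_lhs => rw [← map_act ϑ]
      rw [integral_map (continuous_act ϑ).measurable.aemeasurable (by rw [map_act ϑ]; exact hint.aestronglyMeasurable)]
    rw [h1]
    congr 1
    funext v
    congr 2
    show inner ℝ (ϑ (e : E n)) (ϑ (v : E n)) = _
    rw [LinearIsometryEquiv.inner_map_map]
  obtain ⟨T, hT, hT2⟩ := construct (by omega) e Λ hL
  refine ⟨T, hT, fun K hK ϑ hϑ => ?_⟩
  rw [hT2 K ϑ hϑ, hμ]
  rfl

theorem sum_criterion (hn : 3 ≤ n) (e : Sph n) (g g₁ g₂ : ℝ → ℝ) (hg₁ : ConcaveOn ℝ (Ioo (-1) 1) g₁)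
    (hg₂ : EvenAnti g₂) (hg : ∀ t ∈ Ioo (-1 : ℝ) 1, g t = g₁ t + g₂ t)
    (hint : Integrable (fun v : Sph n => g (inner ℝ (e : E n) (v : E n))) (sig n))
    (μ : Distr n) (hμ : HasDensity e g μ) :
    (∃ T : Body n → Body n, Admissible T ∧ Generates e μ T) ↔
      (IntegrableOn (fun t : ℝ => g t * t ^ 2 * (1 - t ^ 2) ^ (((n : ℝ) - 4) / 2)) (Ioo (-1) 1) ∧
        0 ≤ ∫ t in Ioo (-1 : ℝ) 1, g t * t ^ 2 * (1 - t ^ 2) ^ (((n : ℝ) - 4) / 2)) := by
  classical
  have e1 : (fun t : ℝ => g t * t ^ 2 * (1 - t ^ 2) ^ (((n : ℝ) - 4) / 2)) = fun t => g t * wgt n t := by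
    funext t; simp only [wgt]; ring
  rw [e1, ← Wt_eq]
  have hn2 : 2 ≤ n := by omega
  obtain ⟨M, hM0, hM⟩ := exists_upper hg₁
  have hc1 : ContinuousOn g₁ (Ioo (-1) 1) := hg₁.continuousOn isOpen_Ioo
  have hub : ∀ t ∈ Ioo (-1 : ℝ) 1, g t ≤ M + |g₂ 0| := fun t ht => by
    rw [hg t ht]
    exact add_le_add (hM t ht) ((hg₂.le_zero ht).trans (le_abs_self _))
  have hb1 : ∀ t ∈ Ioo (-1 : ℝ) 1, |g₁ t| ≤ |g t| + (M + |g₂ 0|) := fun t ht => by
    have h1 := hg t ht
    have h2 := (hg₂.le_zero ht).trans (le_abs_self _)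
    have h3 := hM t ht
    have h4 := neg_abs_le (g t)
    have h5 := abs_nonneg (g t)
    have h6 := abs_nonneg (g₂ 0)
    rw [abs_le]; constructor <;> linarith
  have hb2 : ∀ t ∈ Ioo (-1 : ℝ) 1, |g₂ t| ≤ |g t| + (M + |g₂ 0|) := fun t ht => by
    have h1 := hg t ht
    have h2 := (hg₂.le_zero ht).trans (le_abs_self _)
    have h3 := hM t ht
    have h4 := neg_abs_le (g t)
    have h5 := abs_nonneg (g t)
    have h6 := abs_nonneg (g₂ 0)
    rw [abs_le]; constructor <;> linarith
  -- extension by zero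
  set G : ℝ → ℝ := fun t => if t ∈ Ioo (-1 : ℝ) 1 then g t else 0 with hG
  have hGg : ∀ t ∈ Ioo (-1 : ℝ) 1, G t = g t := fun t ht => by simp only [hG, if_pos ht]
  have hm1 := measurable_ext_of_continuousOn hc1
  have hm2 := hg₂.measurable_ext
  have hGm : Measurable G := by
    have h1 : G = fun t => (if t ∈ Ioo (-1 : ℝ) 1 then g₁ t else 0) + (if t ∈ Ioo (-1 : ℝ) 1 then g₂ t else 0) := by
      funext t
      simp only [hG]
      by_cases ht : t ∈ Ioo (-1 : ℝ) 1
      · rw [if_pos ht, if_pos ht, if_pos ht, hg t ht]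
      · rw [if_neg ht, if_neg ht, if_neg ht, add_zero]
    rw [h1]
    exact hm1.add hm2
  have hGc : ∀ᵐ t : ℝ, t ∈ Ioo (-1 : ℝ) 1 → ContinuousAt G t := by
    filter_upwards [hg₂.ae_continuousAt] with t ht hmem
    have h1 : ContinuousAt (fun t => g₁ t + g₂ t) t :=
      (hc1.continuousAt (isOpen_Ioo.mem_nhds hmem)).add (ht hmem)
    refine h1.congr ?_
    filter_upwards [isOpen_Ioo.mem_nhds hmem] with s hs
    rw [hGg s hs, hg s hs]
  have haeG : ∀ u : E n, ‖u‖ = 1 → ∀ᵐ v : Sph n ∂(sig n), G (inner ℝ u (v : E n)) = g (inner ℝ u (v : E n)) := by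
    intro u hu
    filter_upwards [ae_mem_Ioo hn2 hu] with v hv
    exact hGg _ hv
  have hWG : Wt n G = Wt n g := by
    rw [Wt_eq, Wt_eq]
    exact setIntegral_congr_fun measurableSet_Ioo fun t ht => by simp only [hGg t ht]
  constructor
  · rintro ⟨T, -, hT⟩
    have h1 := necessity_gen hn e hGm hGc (M := M + |g₂ 0|) (by positivity)
      (fun t ht => by rw [hGg t ht]; exact hub t ht)
      (hint.congr ((haeG _ (norm_coe_sph e)).mono fun v hv => hv.symm)) (μ := μ)
      (fun f => by
        rw [hμ f]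
        refine integral_congr_ae ?_
        filter_upwards [haeG _ (norm_coe_sph e)] with v hv
        rw [hv]) hT
    refine ⟨h1.1.congr_fun (fun t ht => by simp only [hGg t ht]) measurableSet_Ioo, ?_⟩
    rw [← hWG]; exact h1.2
  · rintro ⟨hgi, hW⟩
    have hW1 := W1_pos hn
    have hwi := integrableOn_wgt (n := n) hn
    have hbd : IntegrableOn (fun t => (|g t| + (M + |g₂ 0|)) * wgt n t) (Ioo (-1) 1) := by
      have h1 : IntegrableOn (fun t => |g t * wgt n t| + (M + |g₂ 0|) * wgt n t) (Ioo (-1) 1) :=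
        hgi.abs.add (hwi.const_mul _)
      refine h1.congr_fun (fun t ht => ?_) measurableSet_Ioo
      have h2 := wgt_nonneg (n := n) (t := t) ⟨ht.1.le, ht.2.le⟩
      simp only [abs_mul, abs_of_nonneg h2]
      ring
    have hwg1 : IntegrableOn (fun t => g₁ t * wgt n t) (Ioo (-1) 1) := by
      refine Integrable.mono' hbd ?_ ?_
      · exact (hc1.aestronglyMeasurable measurableSet_Ioo).mul measurable_wgt.aestronglyMeasurable
      · filter_upwards [ae_restrict_mem measurableSet_Ioo] with t ht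
        have h2 := wgt_nonneg (n := n) (t := t) ⟨ht.1.le, ht.2.le⟩
        rw [norm_mul, Real.norm_eq_abs, Real.norm_of_nonneg h2]
        exact mul_le_mul_of_nonneg_right (hb1 t ht) h2
    have hwg2 : IntegrableOn (fun t => g₂ t * wgt n t) (Ioo (-1) 1) := by
      refine Integrable.mono' hbd ?_ ?_
      · have h1 : AEStronglyMeasurable (fun t => (if t ∈ Ioo (-1 : ℝ) 1 then g₂ t else 0) * wgt n t)
            (volume.restrict (Ioo (-1 : ℝ) 1)) := (hm2.mul measurable_wgt).aestronglyMeasurable
        refine h1.congr ?_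
        filter_upwards [ae_restrict_mem measurableSet_Ioo] with t ht
        simp only [if_pos ht]
      · filter_upwards [ae_restrict_mem measurableSet_Ioo] with t ht
        have h2 := wgt_nonneg (n := n) (t := t) ⟨ht.1.le, ht.2.le⟩
        rw [norm_mul, Real.norm_eq_abs, Real.norm_of_nonneg h2]
        exact mul_le_mul_of_nonneg_right (hb2 t ht) h2
    have hsum : Wt n g = Wt n g₁ + Wt n g₂ := by
      rw [Wt_eq, Wt_eq, Wt_eq, ← integral_add hwg1 hwg2]
      exact setIntegral_congr_fun measurableSet_Ioo fun t ht => by simp only [hg t ht]; ring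
    -- integrability on the sphere
    have hbs : Integrable (fun v : Sph n => |g (inner ℝ (e : E n) (v : E n))| + (M + |g₂ 0|)) (sig n) :=
      hint.abs.add (integrable_const _)
    have hce : Measurable (fun v : Sph n => (inner ℝ (e : E n) (v : E n) : ℝ)) :=
      (by fun_prop : Continuous (fun v : Sph n => (inner ℝ (e : E n) (v : E n) : ℝ))).measurable
    have hs1 : Integrable (fun v : Sph n => g₁ (inner ℝ (e : E n) (v : E n))) (sig n) := by
      refine Integrable.mono' hbs ?_ ?_
      · refine (hm1.comp hce).aestronglyMeasurable.congr ?_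
        filter_upwards [ae_mem_Ioo hn2 (norm_coe_sph e)] with v hv
        simp only [Function.comp, if_pos hv]
      · filter_upwards [ae_mem_Ioo hn2 (norm_coe_sph e)] with v hv
        rw [Real.norm_eq_abs]; exact hb1 _ hv
    have hs2 : Integrable (fun v : Sph n => g₂ (inner ℝ (e : E n) (v : E n))) (sig n) := by
      refine Integrable.mono' hbs ?_ ?_
      · refine (hm2.comp hce).aestronglyMeasurable.congr ?_
        filter_upwards [ae_mem_Ioo hn2 (norm_coe_sph e)] with v hv
        simp only [Function.comp, if_pos hv]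
      · filter_upwards [ae_mem_Ioo hn2 (norm_coe_sph e)] with v hv
        rw [Real.norm_eq_abs]; exact hb2 _ hv
    set w₁ : ℝ := Wt n g₁ / W1 n with hw₁
    set w₂ : ℝ := Wt n g₂ / W1 n with hw₂
    have hw : 0 ≤ w₁ + w₂ := by
      rw [hw₁, hw₂, ← add_div, ← hsum]
      exact div_nonneg hW hW1.le
    have hi1 : Integrable (fun v : Sph n => g₁ (inner ℝ (e : E n) (v : E n)) + (-w₁)) (sig n) :=
      hs1.add (integrable_const _)
    have hi2 : Integrable (fun v : Sph n => g₂ (inner ℝ (e : E n) (v : E n)) + (-w₂)) (sig n) :=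
      hs2.add (integrable_const _)
    refine generates_of_hasBody hn e hint hμ fun K hK => ?_
    have b1 : HasBody K (fun t => g₁ t + (-w₁)) := by
      refine general_open hn e (g := fun t => g₁ t + (-w₁)) (hg₁.add_const (-w₁)) hi1 ?_ ?_ hK
      · have h1 : IntegrableOn (fun t => g₁ t * wgt n t + (-w₁) * wgt n t) (Ioo (-1) 1) :=
          hwg1.add (hwi.const_mul _)
        refine h1.congr_fun (fun t _ => ?_) measurableSet_Ioo
        ring
      · rw [Wt_add_const hn hwg1, hw₁, neg_mul, div_mul_cancel₀ _ hW1.ne']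
        linarith
    have b2 : HasBody K (fun t => g₂ t + (-w₂)) := by
      refine general_even hn e (g := fun t => g₂ t + (-w₂)) (hg₂.add_const (-w₂)) hi2 ?_ ?_ hK
      · have h1 : IntegrableOn (fun t => g₂ t * wgt n t + (-w₂) * wgt n t) (Ioo (-1) 1) :=
          hwg2.add (hwi.const_mul _)
        refine h1.congr_fun (fun t _ => ?_) measurableSet_Ioo
        ring
      · rw [Wt_add_const hn hwg2, hw₂, neg_mul, div_mul_cancel₀ _ hW1.ne']
        linarith
    have b3 := hasBody_const K hw
    have b12 := b1.add b2 (fun u hu => integrable_all_directions hn2 e (g := fun t => g₁ t + (-w₁)) hi1 hu)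
      (fun u hu => integrable_all_directions hn2 e (g := fun t => g₂ t + (-w₂)) hi2 hu)
    have b123 := b12.add b3
      (fun u hu => integrable_all_directions hn2 e
        (g := fun t => (g₁ t + (-w₁)) + (g₂ t + (-w₂))) (hi1.add hi2) hu)
      (fun u hu => integrable_const _)
    refine b123.congr hn2 fun t ht => ?_
    rw [hg t ht]
    ring

end

end Pool.Agent.Helper115_ME
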